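import Pool.Agent.H36.SubMean

/-! Topology of `ℂℙⁿ` and potentials of smooth functions. -/

open MeasureTheory Filter Topology Complex Set
open scoped LinearAlgebra.Projectivization ContDiff

namespace Pool.Agent.H36

variable {n : ℕ}

lemma CP.mk_surjective : Function.Surjective (CP.mk (n := n)) := by
  intro x
  refine ⟨⟨Projectivization.rep x, Projectivization.rep_nonzero x⟩, ?_⟩
  exact Projectivization.mk_rep x

lemma CP.mk_continuous : Continuous (CP.mk (n := n)) := continuous_coinduced_rng

lemma CP.mk_eq_mk_of_smul {Z W : Aff (n + 1)} (hZ : Z ≠ 0) (hW : W ≠ 0) {c : ℂ} (hc : c • W = Z) :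
    CP.mk ⟨Z, hZ⟩ = CP.mk ⟨W, hW⟩ := by
  have h : Projectivization.mk ℂ Z hZ = Projectivization.mk ℂ W hW := by
    rw [Projectivization.mk_eq_mk_iff']
    exact ⟨c, hc⟩
  exact h

lemma CP.exists_smul_of_mk_eq {Z W : Aff (n + 1)} (hZ : Z ≠ 0) (hW : W ≠ 0)
    (h : CP.mk ⟨Z, hZ⟩ = CP.mk ⟨W, hW⟩) : ∃ c : ℂ, c • W = Z := by
  have h' : Projectivization.mk ℂ Z hZ = Projectivization.mk ℂ W hW := h
  rw [Projectivization.mk_eq_mk_iff'] at h'
  exact h'

lemma continuous_iff_mk {X : Type*} [TopologicalSpace X] {f : CP n → X} :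
    Continuous f ↔ Continuous (f ∘ CP.mk) := continuous_coinduced_dom

lemma homog_continuous (i : Fin (n + 1)) : Continuous (homog i : Aff n → Aff (n + 1)) := by
  unfold homog
  apply (PiLp.continuous_toLp 2 _).comp
  apply continuous_pi
  intro j
  refine Fin.succAboveCases i ?_ (fun k => ?_) j
  · simpa using continuous_const
  · simp only [Fin.insertNth_apply_succAbove]
    exact (EuclideanSpace.proj k : Aff n →L[ℂ] ℂ).continuous

lemma chart_continuous (i : Fin (n + 1)) : Continuous (chart i : Aff n → CP n) := by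
  unfold chart
  exact CP.mk_continuous.comp ((homog_continuous i).subtype_mk _)

/-- affine coordinates -/
noncomputable def affCoord (i : Fin (n + 1)) (Z : Aff (n + 1)) : Aff n :=
  WithLp.toLp 2 fun j => Z (i.succAbove j) / Z i

lemma homog_succAbove (i : Fin (n + 1)) (z : Aff n) (j : Fin n) :
    homog i z (i.succAbove j) = z j := by
  simp [homog]

lemma affCoord_homog (i : Fin (n + 1)) (z : Aff n) : affCoord i (homog i z) = z := by
  ext j
  simp [affCoord, homog_succAbove, homog_self]

lemma smul_homog_affCoord {i : Fin (n + 1)} {Z : Aff (n + 1)} (h : Z i ≠ 0) :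
    Z i • homog i (affCoord i Z) = Z := by
  ext j
  refine Fin.succAboveCases i ?_ (fun k => ?_) j
  · simp [homog_self]
  · simp only [PiLp.smul_apply, smul_eq_mul, homog_succAbove]
    simp only [affCoord]
    field_simp

lemma mk_eq_chart {i : Fin (n + 1)} {Z : Aff (n + 1)} (hZ : Z ≠ 0) (h : Z i ≠ 0) :
    CP.mk ⟨Z, hZ⟩ = chart i (affCoord i Z) :=
  CP.mk_eq_mk_of_smul hZ (homog_ne_zero _ _) (smul_homog_affCoord h)

lemma exists_coord_ne_zero {Z : Aff (n + 1)} (hZ : Z ≠ 0) : ∃ i, Z i ≠ 0 := by
  by_contra h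
  push Not at h
  apply hZ
  ext j
  simpa using h j

lemma exists_chart (x : CP n) : ∃ (i : Fin (n + 1)) (z : Aff n), chart i z = x := by
  obtain ⟨⟨Z, hZ⟩, rfl⟩ := CP.mk_surjective x
  obtain ⟨i, hi⟩ := exists_coord_ne_zero hZ
  exact ⟨i, affCoord i Z, (mk_eq_chart hZ hi).symm⟩

lemma affCoord_continuousAt {i : Fin (n + 1)} {Z : Aff (n + 1)} (h : Z i ≠ 0) :
    ContinuousAt (affCoord i) Z := by
  unfold affCoord
  apply (PiLp.continuous_toLp 2 _).continuousAt.comp
  apply continuousAt_pi.2
  intro j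
  exact ((EuclideanSpace.proj (i.succAbove j) : Aff (n+1) →L[ℂ] ℂ).continuous.continuousAt).div
    ((EuclideanSpace.proj i : Aff (n+1) →L[ℂ] ℂ).continuous.continuousAt) h

/-- A function that is continuous in all affine charts is continuous. -/
lemma continuous_of_charts {X : Type*} [TopologicalSpace X] {f : CP n → X}
    (h : ∀ i, Continuous fun z => f (chart i z)) : Continuous f := by
  rw [continuous_iff_mk, continuous_iff_continuousAt]
  rintro ⟨Z, hZ⟩
  obtain ⟨i, hi⟩ := exists_coord_ne_zero hZ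
  have hev : (f ∘ CP.mk) =ᶠ[𝓝 ⟨Z, hZ⟩] fun W : {Z : Aff (n + 1) // Z ≠ 0} =>
      (fun z => f (chart i z)) (affCoord i W.1) := by
    have ho : IsOpen {W : {Z : Aff (n + 1) // Z ≠ 0} | W.1 i ≠ 0} := by
      have hc : Continuous fun W : {Z : Aff (n + 1) // Z ≠ 0} => W.1 i :=
        (EuclideanSpace.proj i : Aff (n+1) →L[ℂ] ℂ).continuous.comp continuous_subtype_val
      exact isOpen_ne_fun hc continuous_const
    filter_upwards [ho.mem_nhds (show (⟨Z, hZ⟩ : {Z : Aff (n + 1) // Z ≠ 0}) ∈ _ from hi)] with W hW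
    simp only [Function.comp]
    rw [← mk_eq_chart W.2 hW]
  refine ContinuousAt.congr ?_ hev.symm
  refine ContinuousAt.comp (g := fun z => f (chart i z)) (h i).continuousAt ?_
  have h2 : ContinuousAt (affCoord i) ((fun W : {Z : Aff (n + 1) // Z ≠ 0} => W.1) ⟨Z, hZ⟩) :=
    affCoord_continuousAt hi
  exact ContinuousAt.comp (g := affCoord i) h2 continuous_subtype_val.continuousAt

lemma SmoothCP.continuous {φ : CP n → ℝ} (h : SmoothCP φ) : Continuous φ :=
  continuous_of_charts fun i => (h i).continuous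

/-- the map from the unit sphere -/
noncomputable def sph (Z : Metric.sphere (0 : Aff (n + 1)) 1) : CP n :=
  CP.mk ⟨Z.1, by
    intro h
    have := Z.2
    rw [h, mem_sphere_zero_iff_norm] at this
    simp at this⟩

lemma sph_continuous : Continuous (sph (n := n)) := by
  unfold sph
  exact CP.mk_continuous.comp (continuous_subtype_val.subtype_mk _)

lemma sph_surjective : Function.Surjective (sph (n := n)) := by
  intro x
  obtain ⟨⟨Z, hZ⟩, rfl⟩ := CP.mk_surjective x
  have hn : ‖Z‖ ≠ 0 := norm_ne_zero_iff.2 hZ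
  refine ⟨⟨((‖Z‖ : ℂ)⁻¹) • Z, ?_⟩, ?_⟩
  · rw [mem_sphere_zero_iff_norm, norm_smul, norm_inv, Complex.norm_real, norm_norm,
      inv_mul_cancel₀ hn]
  · unfold sph
    exact CP.mk_eq_mk_of_smul _ hZ rfl

instance : CompactSpace (CP n) := by
  have h : CompactSpace (Metric.sphere (0 : Aff (n + 1)) 1) :=
    isCompact_iff_compactSpace.1 (isCompact_sphere _ _)
  have h2 : IsCompact (range (sph (n := n))) := isCompact_range sph_continuous
  rw [sph_surjective.range_eq] at h2
  exact ⟨h2⟩

/-- the potential of `φ` in the `i`-th chart -/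
noncomputable def pot (φ : CP n → ℝ) (i : Fin (n + 1)) (z : Aff n) : ℝ := φ (chart i z) + fsPot z

lemma pot_coe (φ : CP n → ℝ) (i : Fin (n + 1)) (z : Aff n) :
    ((φ (chart i z) : ℝ) : EReal) + (fsPot z : EReal) = ((pot φ i z : ℝ) : EReal) := by
  unfold pot
  rw [EReal.coe_add]

lemma fsPot_contDiff : ContDiff ℝ ∞ (fsPot : Aff n → ℝ) := spsh_fsPot.smooth

lemma pot_contDiff {φ : CP n → ℝ} (h : SmoothCP φ) (i : Fin (n + 1)) : ContDiff ℝ ∞ (pot φ i) :=
  (h i).add fsPot_contDiff

lemma toReal_max_coe (a M : ℝ) : (max (a : EReal) (M : EReal)).toReal = max a M := by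
  rw [← (EReal.coe_strictMono.monotone.map_max : ((max a M : ℝ) : EReal) = max (a : EReal) M),
    EReal.toReal_coe]

/-- In every chart the potential of a smooth `ω`-psh function has nonnegative Levi form. -/
theorem SmoothOmegaPSH.spsh {φ : CP n → ℝ} (h : SmoothOmegaPSH φ) (i : Fin (n + 1)) :
    SPsh (pot φ i) := by
  apply lap_of_submean (pot_contDiff h.1 i)
  intro z w
  have hu := (pot_contDiff h.1 i).continuous
  -- lower bound of the potential on the disc
  have hc : Continuous fun ζ : ℂ => pot φ i (z + ζ • w) := hu.comp (by fun_prop)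
  obtain ⟨C, hC⟩ := (isCompact_sphere (0:ℂ) |1|).exists_bound_of_continuousOn hc.continuousOn
  have h1 := (h.2.psh i).submean z w (-C)
  simp only [pot_coe] at h1
  simp only [toReal_max_coe] at h1
  have h2 : Real.circleAverage (fun ζ : ℂ => max (pot φ i (z + ζ • w)) (-C)) 0 1 =
      Real.circleAverage (fun ζ : ℂ => pot φ i (z + ζ • w)) 0 1 := by
    apply Real.circleAverage_congr_sphere
    intro ζ hζ
    have := hC ζ hζ
    rw [Real.norm_eq_abs] at this
    exact max_eq_left (abs_le.1 this).1
  rw [h2] at h1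
  exact_mod_cast h1

/-- Conversely. -/
theorem smoothOmegaPSH_of_spsh {φ : CP n → ℝ} (h : ∀ i, SPsh (pot φ i)) : SmoothOmegaPSH φ := by
  have hs : SmoothCP φ := by
    intro i
    have h1 : (fun z : Aff n => φ (chart i z)) = fun z => pot φ i z - fsPot z := by
      funext z; simp [pot]
    rw [h1]
    exact (h i).smooth.sub fsPot_contDiff
  refine ⟨hs, ?_, ?_, ?_⟩
  · exact (continuous_coe_real_ereal.comp hs.continuous).upperSemicontinuous
  · exact ⟨chart 0 0, EReal.coe_ne_bot _⟩
  · intro i
    simp only [pot_coe]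
    refine ⟨?_, fun z => EReal.coe_lt_top _, ?_⟩
    · exact (continuous_coe_real_ereal.comp (h i).smooth.continuous).upperSemicontinuous
    · intro z w M
      simp only [toReal_max_coe]
      have h1 := submean_of_lap (h i) z w
      have hc : Continuous fun ζ : ℂ => pot φ i (z + ζ • w) :=
        (h i).smooth.continuous.comp (by fun_prop)
      have h2 : Real.circleAverage (fun ζ : ℂ => pot φ i (z + ζ • w)) 0 1 ≤
          Real.circleAverage (fun ζ : ℂ => max (pot φ i (z + ζ • w)) M) 0 1 := by
        apply Real.circleAverage_mono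
        · exact hc.continuousOn.circleIntegrable zero_le_one
        · exact (hc.max continuous_const).continuousOn.circleIntegrable zero_le_one
        · intro ζ _
          exact le_max_left _ _
      exact_mod_cast h1.trans h2

lemma exists_bound {φ : CP n → ℝ} (h : Continuous φ) : ∃ K, ∀ x, |φ x| ≤ K := by
  obtain ⟨K, hK⟩ := isCompact_univ.exists_bound_of_continuousOn h.continuousOn
  exact ⟨K, fun x => hK x (mem_univ x)⟩

/-- The total Monge-Ampère mass of the potential of a smooth `ω`-psh function. -/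
theorem SmoothOmegaPSH.mass {φ : CP n → ℝ} (h : SmoothOmegaPSH φ) :
    maLoc (pot φ 0) univ = maLoc (fsPot : Aff n → ℝ) univ := by
  obtain ⟨K, hK⟩ := exists_bound h.1.continuous
  apply maLoc_univ_eq (h.spsh 0) spsh_fsPot K
  · intro z
    unfold pot
    simpa using hK (chart 0 z)
  · intro z
    rw [sub_self, abs_zero]
    exact (abs_nonneg _).trans (hK (chart 0 0))

end Pool.Agent.H36
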