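import Pool.Agent.H36.Psi

/-! The inductive construction. -/

open MeasureTheory Filter Topology Complex Set
open scoped LinearAlgebra.Projectivization ContDiff

namespace Pool.Agent.H36

variable {m : ℕ}

/-- radii `1/(k+1)` -/
noncomputable def rk (k : ℕ) : ℝ := 1 / ((k : ℝ) + 1)

lemma rk_pos (k : ℕ) : 0 < rk k := by unfold rk; positivity

lemma rk_anti : Antitone rk := by
  intro a b h
  unfold rk
  have : (a : ℝ) ≤ b := by exact_mod_cast h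
  gcongr

/-- The state of the construction at step `k`. -/
structure Inv (k : ℕ) (P : Aff (m + 3) → ℂ) (δ : ℝ) : Prop where
  pol : Pol k P
  pos : 0 < δ
  sm : ∀ Z ∈ Sr m (rk k), δ ≤ Sf k P Z
  exp : ck k * Real.log δ ≤ -k
  mass : maLoc (pot (psiF k P δ) 0) {z | rk k ≤ ‖z‖} ≤ ENNReal.ofReal (rk k)

lemma exists_inv {k : ℕ} {P : Aff (m + 3) → ℂ} (hP : Pol k P) {D : ℝ} (hD : 0 < D) :
    ∃ δ, δ ≤ D ∧ Inv k P δ := by
  obtain ⟨s, hs0, hs⟩ := exists_Sf_lower hP (rk_pos k)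
  obtain ⟨δ₀, hδ₀, hmass⟩ := exists_delta_mass hP (rk_pos k) (rk_pos k)
  set E : ℝ := Real.exp (-(k / ck k)) with hE
  have hEpos : 0 < E := Real.exp_pos _
  set δ := min (min D s) (min δ₀ E) with hδ
  have hδpos : 0 < δ := lt_min (lt_min hD hs0) (lt_min hδ₀ hEpos)
  refine ⟨δ, (min_le_left _ _).trans (min_le_left _ _), hP, hδpos, ?_, ?_, ?_⟩
  · intro Z hZ
    exact ((min_le_left _ _).trans (min_le_right _ _)).trans (hs Z hZ)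
  · have h1 : δ ≤ E := (min_le_right _ _).trans (min_le_right _ _)
    have h2 : Real.log δ ≤ -(k / ck k) := by
      have := Real.log_le_log hδpos h1
      rwa [hE, Real.log_exp] at this
    have h3 := ck_pos k
    calc ck k * Real.log δ ≤ ck k * (-(k / ck k)) := by gcongr
    _ = -k := by field_simp
  · exact hmass δ hδpos ((min_le_right _ _).trans (min_le_left _ _))

/-- the monomial `Z_0^{2^{k+1}-b} Z_2^b` -/
noncomputable def mon (k b : ℕ) (Z : Aff (m + 3)) : ℂ := Z 0 ^ (2 ^ (k + 1) - b) * Z 2 ^ b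

/-- `P² + ε Z_0^{2^{k+1}-b} Z_2^b` -/
noncomputable def nextP (ε : ℝ) (b k : ℕ) (P : Aff (m + 3) → ℂ) (Z : Aff (m + 3)) : ℂ :=
  P Z ^ 2 + (ε : ℂ) * mon k b Z

lemma pol_nextP {k b : ℕ} {P : Aff (m + 3) → ℂ} (hP : Pol k P) (hb1 : 1 ≤ b)
    (hb2 : b ≤ 2 ^ (k + 1)) (ε : ℝ) : Pol (k + 1) (nextP ε b k P) := by
  refine ⟨fun i => ?_, fun c Z => ?_, fun Z hZ => ?_, ?_⟩
  · unfold nextP mon
    exact ((hP.holo i).pow 2).add ((Holo.const _).mul (((holo_homog_coord i 0).pow _).mul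
      ((holo_homog_coord i 2).pow _)))
  · unfold nextP mon
    rw [hP.hom]
    simp only [PiLp.smul_apply, smul_eq_mul]
    rw [mul_pow, mul_pow, mul_pow]
    have e1 : c ^ (2 ^ (k + 1)) = c ^ (2 ^ (k + 1) - b) * c ^ b := by
      rw [← pow_add, Nat.sub_add_cancel hb2]
    have e2 : (c ^ 2 ^ k) ^ 2 = c ^ (2 ^ (k + 1)) := by
      rw [← pow_mul, pow_succ]
    rw [e2, e1]
    ring
  · unfold nextP mon
    rw [hP.line Z hZ, hZ, zero_pow (by omega)]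
    rw [mul_zero, mul_zero, add_zero, ← pow_mul, pow_succ]
  · unfold nextP mon
    exact (hP.cont.pow 2).add (continuous_const.mul (((coord_cont 0).pow _).mul
      ((coord_cont 2).pow _)))

lemma norm_coord_le {n : ℕ} (Z : Aff n) (i : Fin n) : ‖Z i‖ ≤ ‖Z‖ := by
  have h1 : ‖Z i‖ ^ 2 ≤ ‖Z‖ ^ 2 := by
    rw [EuclideanSpace.norm_sq_eq]
    exact Finset.single_le_sum (f := fun i => ‖Z i‖ ^ 2) (fun i _ => by positivity)
      (Finset.mem_univ i)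
  exact le_of_sq_le_sq₀ h1 (norm_nonneg _)
where
  le_of_sq_le_sq₀ {a b : ℝ} (h : a ^ 2 ≤ b ^ 2) (hb : 0 ≤ b) : a ≤ b := by
    by_contra hc
    push Not at hc
    nlinarith

lemma norm_mon_le (k b : ℕ) {Z : Aff (m + 3)} (hZ : ‖Z‖ = 1) : ‖mon k b Z‖ ≤ 1 := by
  unfold mon
  rw [norm_mul, norm_pow, norm_pow]
  have h0 : ‖Z 0‖ ≤ 1 := hZ ▸ norm_coord_le Z 0
  have h2 : ‖Z 2‖ ≤ 1 := hZ ▸ norm_coord_le Z 2
  calc ‖Z 0‖ ^ (2 ^ (k + 1) - b) * ‖Z 2‖ ^ b ≤ 1 * 1 :=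
        mul_le_mul (pow_le_one₀ (norm_nonneg _) h0) (pow_le_one₀ (norm_nonneg _) h2)
          (by positivity) zero_le_one
  _ = 1 := one_mul 1

/-- The relation between two consecutive states. -/
structure Rel (b : ℕ → ℕ) (k : ℕ) (P : Aff (m + 3) → ℂ) (δ : ℝ) (P' : Aff (m + 3) → ℂ)
    (δ' ε : ℝ) : Prop where
  eps_pos : 0 < ε
  eps_le : ε ≤ 1
  eq : P' = nextP ε (b (k + 1)) k P
  delta : δ' ≤ δ ^ 2
  up : ∀ Z : Aff (m + 3), ‖Z‖ = 1 → 2 * ε * ‖P Z‖ ^ 2 + ε ^ 2 ≤ Tf k P δ Z ^ 2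
  low : ∀ Z ∈ Sr m (rk k), ε ^ 2 ≤ Sf k P Z ^ 2 / (4 * ((m : ℝ) + 2))

lemma exists_next {b : ℕ → ℕ} (hb1 : ∀ k, 1 ≤ b k) (hb2 : ∀ k, b k ≤ 2 ^ k) {k : ℕ}
    {P : Aff (m + 3) → ℂ} {δ : ℝ} (h : Inv k P δ) :
    ∃ P' δ' ε, Inv (k + 1) P' δ' ∧ Rel b k P δ P' δ' ε := by
  -- lower bound for Tf on the unit sphere
  obtain ⟨t, ht0, ht⟩ : ∃ t : ℝ, 0 < t ∧ ∀ Z : Aff (m + 3), ‖Z‖ = 1 → t ≤ Tf k P δ Z := by
    obtain ⟨Z0, hZ0, hmin⟩ := (isCompact_sphere (0 : Aff (m + 3)) 1).exists_isMinOn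
      (f := Tf k P δ) (NormedSpace.sphere_nonempty.2 zero_le_one) (Tf_cont h.pol.cont δ).continuousOn
    refine ⟨Tf k P δ Z0, h.pol.Tf_pos h.pos ?_, fun Z hZ => hmin (by simpa using hZ)⟩
    rintro rfl
    simp at hZ0
  obtain ⟨A, hA⟩ : ∃ A : ℝ, ∀ Z : Aff (m + 3), ‖Z‖ = 1 → ‖P Z‖ ^ 2 ≤ A := by
    obtain ⟨A, hA⟩ := (isCompact_sphere (0 : Aff (m + 3)) 1).exists_bound_of_continuousOn
      (f := fun Z => ‖P Z‖ ^ 2) (h.pol.cont.norm.pow 2).continuousOn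
    refine ⟨A, fun Z hZ => ?_⟩
    have := hA Z (by simpa using hZ)
    rwa [Real.norm_eq_abs, abs_of_nonneg (by positivity)] at this
  obtain ⟨s, hs0, hs⟩ := exists_Sf_lower h.pol (rk_pos k)
  set A' : ℝ := max A 0 with hA'
  have hA'0 : 0 ≤ A' := le_max_right _ _
  set ε : ℝ := min (min 1 (t ^ 2 / (2 * A' + 1))) (s / (2 * ((m : ℝ) + 2))) with hε
  have hεpos : 0 < ε := lt_min (lt_min one_pos (by positivity)) (by positivity)
  have hε1 : ε ≤ 1 := (min_le_left _ _).trans (min_le_left _ _)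
  have hε2 : ε ≤ t ^ 2 / (2 * A' + 1) := (min_le_left _ _).trans (min_le_right _ _)
  have hε3 : ε ≤ s / (2 * ((m : ℝ) + 2)) := min_le_right _ _
  have hpol := pol_nextP h.pol (hb1 (k + 1)) (hb2 (k + 1)) ε
  obtain ⟨δ', hδ', hinv⟩ := exists_inv hpol (D := δ ^ 2) (by have := h.pos; positivity)
  refine ⟨_, δ', ε, hinv, hεpos, hε1, rfl, hδ', ?_, ?_⟩
  · intro Z hZ
    have h1 := ht Z hZ
    have h2 : ‖P Z‖ ^ 2 ≤ A' := (hA Z hZ).trans (le_max_left _ _)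
    have h3 : t ^ 2 ≤ Tf k P δ Z ^ 2 := by gcongr
    have h4 : ε * (2 * A' + 1) ≤ t ^ 2 := by rwa [le_div_iff₀ (by positivity)] at hε2
    calc 2 * ε * ‖P Z‖ ^ 2 + ε ^ 2 ≤ 2 * ε * A' + ε * 1 := by
          rw [sq ε]
          gcongr
    _ = ε * (2 * A' + 1) := by ring
    _ ≤ t ^ 2 := h4
    _ ≤ Tf k P δ Z ^ 2 := h3
  · intro Z hZ
    have h1 := hs Z hZ
    have h2 : ε ^ 2 ≤ (s / (2 * ((m : ℝ) + 2))) ^ 2 := by gcongr
    have h3 : s ^ 2 ≤ Sf k P Z ^ 2 := by gcongr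
    refine h2.trans ?_
    rw [div_pow, div_le_div_iff₀ (by positivity) (by positivity)]
    have hm : (0:ℝ) ≤ m := Nat.cast_nonneg m
    nlinarith [sq_nonneg (Sf k P Z), mul_nonneg hm (sq_nonneg (Sf k P Z)), mul_nonneg (mul_nonneg hm hm) (sq_nonneg (Sf k P Z)), mul_nonneg hm (sq_nonneg s)]

lemma pol_zero : Pol 0 (fun Z : Aff (m + 3) => Z 1) := by
  refine ⟨fun i => holo_homog_coord i 1, fun c Z => ?_, fun Z _ => ?_, coord_cont 1⟩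
  · simp
  · simp

/-- The sequences. -/
theorem exists_sequence (b : ℕ → ℕ) (hb1 : ∀ k, 1 ≤ b k) (hb2 : ∀ k, b k ≤ 2 ^ k) :
    ∃ (P : ℕ → Aff (m + 3) → ℂ) (δ ε : ℕ → ℝ), P 0 = (fun Z => Z 1) ∧
      (∀ k, Inv k (P k) (δ k)) ∧ ∀ k, Rel b k (P k) (δ k) (P (k + 1)) (δ (k + 1)) (ε k) := by
  classical
  obtain ⟨δ0, -, h0⟩ := exists_inv (pol_zero (m := m)) (D := 1) one_pos
  have hstep : ∀ k (s : {s : (Aff (m + 3) → ℂ) × ℝ // Inv k s.1 s.2}),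
      ∃ (s' : {s : (Aff (m + 3) → ℂ) × ℝ // Inv (k + 1) s.1 s.2}) (ε : ℝ),
        Rel b k s.1.1 s.1.2 s'.1.1 s'.1.2 ε := by
    intro k s
    obtain ⟨P', δ', ε, h1, h2⟩ := exists_next hb1 hb2 s.2
    exact ⟨⟨(P', δ'), h1⟩, ε, h2⟩
  choose nx ex hnx using hstep
  let seq : (k : ℕ) → {s : (Aff (m + 3) → ℂ) × ℝ // Inv k s.1 s.2} := fun k =>
    Nat.rec ⟨(fun Z => Z 1, δ0), h0⟩ (fun k s => nx k s) k
  refine ⟨fun k => (seq k).1.1, fun k => (seq k).1.2, fun k => ex k (seq k), rfl,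
    fun k => (seq k).2, fun k => ?_⟩
  exact hnx k (seq k)

end Pool.Agent.H36
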