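import Pool.Agent.H36.CPn

/-! Convergence of Monge-Ampère measures to a Dirac mass. -/

open MeasureTheory Filter Topology Complex Set
open scoped LinearAlgebra.Projectivization ContDiff

namespace Pool.Agent.H36

variable {n : ℕ}

lemma norm_homog_sq (i : Fin (n + 1)) (z : Aff n) : ‖homog i z‖ ^ 2 = 1 + ‖z‖ ^ 2 := by
  rw [EuclideanSpace.norm_sq_eq, EuclideanSpace.norm_sq_eq, Fin.sum_univ_succAbove _ i]
  simp [homog_self, homog_succAbove]

/-- the compact set of the points outside the ball of radius `r` in the chart `0` -/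
def outer (n : ℕ) (r : ℝ) : Set (CP n) :=
  sph '' {Z | (1 + r ^ 2) * ‖Z.1 0‖ ^ 2 ≤ 1}

lemma outer_compact (r : ℝ) : IsCompact (outer n r) := by
  have h : CompactSpace (Metric.sphere (0 : Aff (n + 1)) 1) :=
    isCompact_iff_compactSpace.1 (isCompact_sphere _ _)
  apply IsCompact.image _ sph_continuous
  apply IsClosed.isCompact
  have hc : Continuous fun Z : Metric.sphere (0 : Aff (n + 1)) 1 => Z.1 0 :=
    (EuclideanSpace.proj 0 : Aff (n+1) →L[ℂ] ℂ).continuous.comp continuous_subtype_val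
  exact isClosed_le (by fun_prop) continuous_const

lemma chart_mem_outer {r : ℝ} {z : Aff n} (hr : 0 ≤ r) (hz : r ≤ ‖z‖) :
    chart 0 z ∈ outer n r := by
  set Z := homog 0 z with hZ
  have hZ0 : Z ≠ 0 := homog_ne_zero 0 z
  have hn : ‖Z‖ ≠ 0 := norm_ne_zero_iff.2 hZ0
  refine ⟨⟨((‖Z‖ : ℂ)⁻¹) • Z, ?_⟩, ?_, ?_⟩
  · rw [mem_sphere_zero_iff_norm, norm_smul, norm_inv, Complex.norm_real, norm_norm,
      inv_mul_cancel₀ hn]
  · simp only [mem_ofPred_eq, PiLp.smul_apply, smul_eq_mul]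
    rw [hZ, homog_self, mul_one, norm_inv, Complex.norm_real, norm_norm, inv_pow, norm_homog_sq]
    rw [← div_eq_mul_inv, div_le_one (by positivity)]
    have : r ^ 2 ≤ ‖z‖ ^ 2 := by gcongr
    linarith
  · unfold sph chart
    exact CP.mk_eq_mk_of_smul _ hZ0 rfl

/-- one-sided Dini argument -/
lemma dini {φ : ℕ → CP n → ℝ} (hc : ∀ j, Continuous (φ j)) (hanti : ∀ x, Antitone fun j => φ j x)
    {G : CP n → EReal} (hlim : ∀ x, Tendsto (fun j => (φ j x : EReal)) atTop (𝓝 (G x)))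
    {ψ : CP n → ℝ} (hψ : Continuous ψ) {K : Set (CP n)} (hK : IsCompact K) {κ : ℝ}
    (hG : ∀ x ∈ K, G x < ((ψ x + κ : ℝ) : EReal)) :
    ∀ᶠ j in atTop, ∀ x ∈ K, φ j x < ψ x + κ := by
  set U : ℕ → Set (CP n) := fun j => {x | φ j x < ψ x + κ} with hU
  have hUo : ∀ j, IsOpen (U j) := fun j => isOpen_lt (hc j) (hψ.add continuous_const)
  have hcov : K ⊆ ⋃ j, U j := by
    intro x hx
    have h1 := (hlim x).eventually (gt_mem_nhds (hG x hx))
    obtain ⟨j, hj⟩ := h1.exists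
    rw [mem_iUnion]
    refine ⟨j, ?_⟩
    simp only [hU, mem_ofPred_eq]
    exact_mod_cast hj
  have hmono : Monotone U := by
    intro a b hab x hx
    simp only [hU, mem_ofPred_eq] at hx ⊢
    exact lt_of_le_of_lt (hanti x hab) hx
  obtain ⟨J, hJ⟩ := hK.elim_directed_cover U hUo hcov hmono.directed_le
  filter_upwards [eventually_ge_atTop J] with j hj x hx
  exact hmono hj (hJ hx)

lemma glim_le {φ : ℕ → CP n → ℝ} (hanti : ∀ x, Antitone fun j => φ j x)
    {G : CP n → EReal} (hlim : ∀ x, Tendsto (fun j => (φ j x : EReal)) atTop (𝓝 (G x)))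
    (j : ℕ) (x : CP n) : G x ≤ (φ j x : EReal) := by
  have h : Antitone fun j => (φ j x : EReal) := fun a b hab =>
    EReal.coe_le_coe_iff.2 (hanti x hab)
  exact h.le_of_tendsto (hlim x) j

/-- The mass of the approximants escapes from the complement of every ball. -/
theorem outer_mass_tendsto (hn : 1 ≤ n) {φ ψ : ℕ → CP n → ℝ} (hφ : ∀ j, SmoothOmegaPSH (φ j))
    (hψ : ∀ j, SmoothOmegaPSH (ψ j)) (hanti : ∀ x, Antitone fun j => φ j x)
    {G : CP n → EReal} (hlim : ∀ x, Tendsto (fun j => (φ j x : EReal)) atTop (𝓝 (G x)))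
    (hA : ∀ r : ℝ, 0 < r → ∀ κ : ℝ, 0 < κ → ∀ᶠ k in atTop, ∀ x ∈ outer n r,
      ((ψ k x - κ : ℝ) : EReal) ≤ G x ∧ G x ≤ ((ψ k x + κ : ℝ) : EReal))
    (hB : ∀ r : ℝ, 0 < r → Tendsto (fun k => maLoc (pot (ψ k) 0) {z | r ≤ ‖z‖}) atTop (𝓝 0))
    {r : ℝ} (hr : 0 < r) :
    Tendsto (fun j => maLoc (pot (φ j) 0) {z | r ≤ ‖z‖}) atTop (𝓝 0) := by
  obtain ⟨σ, hσ, hθ⟩ := exists_cutoff_psh (n := n) hr
  set C : ℝ := (Real.pi / 2) ^ n / n.factorial with hC
  have hCpos : 0 < C := by positivity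
  have htot : maLoc (fsPot : Aff n → ℝ) univ = ENNReal.ofReal C := maLoc_fsPot hn
  rw [ENNReal.tendsto_nhds_zero]
  intro η hη
  -- choose s
  obtain ⟨s, hs0, hs1, hsη⟩ : ∃ s : ℝ, 0 < s ∧ s < 1 ∧
      ENNReal.ofReal (C / (1 - s) ^ n - C + s) ≤ η := by
    have h1 : Tendsto (fun s : ℝ => ENNReal.ofReal (C / (1 - s) ^ n - C + s)) (𝓝[>] 0)
        (𝓝 (ENNReal.ofReal (C / (1 - 0) ^ n - C + 0))) := by
      apply ENNReal.tendsto_ofReal
      apply Tendsto.mono_left _ nhdsWithin_le_nhds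
      apply ContinuousAt.tendsto (f := fun s : ℝ => C / (1 - s) ^ n - C + s)
      have : ContinuousAt (fun s : ℝ => (1 - s) ^ n) 0 := by fun_prop
      exact ((continuousAt_const.div this (by simp)).sub continuousAt_const).add continuousAt_id
    simp only [sub_zero, one_pow, div_one, sub_self, add_zero, ENNReal.ofReal_zero] at h1
    rw [ENNReal.tendsto_nhds_zero] at h1
    have h2 := h1 η hη
    have h3 : ∀ᶠ s : ℝ in 𝓝[>] 0, s < 1 := by
      filter_upwards [Ioo_mem_nhdsGT (zero_lt_one (α := ℝ))] with s hs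
      exact hs.2
    obtain ⟨s, h4, h5, h6⟩ := (h2.and (h3.and self_mem_nhdsWithin)).exists
    exact ⟨s, h6, h5, h4⟩
  set κ : ℝ := s * σ / 4 with hκ
  have hκpos : 0 < κ := by positivity
  -- choose k
  have hr2 : 0 < 0.5 * r := by positivity
  have hk1 := hA (0.5 * r) hr2 (κ / 2) (by positivity)
  have hk2 : ∀ᶠ k in atTop, maLoc (pot (ψ k) 0) {z | 0.5 * r ≤ ‖z‖} ≤ ENNReal.ofReal s := by
    have := hB (0.5 * r) hr2
    rw [ENNReal.tendsto_nhds_zero] at this
    exact this _ (by simpa using hs0)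
  obtain ⟨k, hk1, hk2⟩ := (hk1.and hk2).exists
  -- Dini
  have hdini := dini (fun j => (hφ j).1.continuous) hanti hlim (hψ k).1.continuous
    (outer_compact (0.5 * r)) (κ := κ) (by
      intro x hx
      refine lt_of_le_of_lt (hk1 x hx).2 ?_
      have : ψ k x + κ / 2 < ψ k x + κ := by linarith
      exact_mod_cast this)
  filter_upwards [hdini] with j hj
  -- bounds
  obtain ⟨K1, hK1⟩ := exists_bound (hφ j).1.continuous
  obtain ⟨K2, hK2⟩ := exists_bound (hψ k).1.continuous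
  have hclose : ∀ z : Aff n, 0.5 * r ≤ ‖z‖ → |pot (ψ k) 0 z - pot (φ j) 0 z| ≤ s * σ / 4 := by
    intro z hz
    have hm := chart_mem_outer hr2.le hz
    have h1 := hj _ hm
    have h2 := (hk1 _ hm).1
    have h3 := h2.trans (glim_le hanti hlim j (chart 0 z))
    have h4 : ψ k (chart 0 z) - κ / 2 ≤ φ j (chart 0 z) := by exact_mod_cast h3
    unfold pot
    rw [abs_le]
    constructor <;> linarith
  have hglue := glue_mass (K := max K1 K2) hr hσ hθ ((hφ j).spsh 0) ((hψ k).spsh 0)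
    (by
      intro z
      unfold pot
      simpa using Or.inl (hK1 (chart 0 z)))
    (by
      intro z
      unfold pot
      simpa using Or.inr (hK2 (chart 0 z))) hs0 hs1.le hclose
  -- masses
  have hmeas : MeasurableSet {z : Aff n | ‖z‖ < 0.5 * r} :=
    (isOpen_lt continuous_norm continuous_const).measurableSet
  have hcompl : {z : Aff n | ‖z‖ < 0.5 * r}ᶜ = {z : Aff n | 0.5 * r ≤ ‖z‖} := by
    ext z; simp
  have hψtot : maLoc (pot (ψ k) 0) {z | ‖z‖ < 0.5 * r} + maLoc (pot (ψ k) 0) {z | 0.5 * r ≤ ‖z‖} =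
      ENNReal.ofReal C := by
    rw [← hcompl, measure_add_measure_compl hmeas, (hψ k).mass, htot]
  have hφtot : maLoc (pot (φ j) 0) {z | r ≤ ‖z‖} ≤ ENNReal.ofReal C := by
    rw [← htot, ← (hφ j).mass]
    exact measure_mono (subset_univ _)
  rw [htot] at hglue
  set x := maLoc (pot (φ j) 0) {z | r ≤ ‖z‖} with hx
  set y := maLoc (pot (ψ k) 0) {z | ‖z‖ < 0.5 * r} with hy
  set w := maLoc (pot (ψ k) 0) {z | 0.5 * r ≤ ‖z‖} with hw
  have hxtop : x ≠ ⊤ := ne_top_of_le_ne_top ENNReal.ofReal_ne_top hφtot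
  have hytop : y ≠ ⊤ := by
    intro h; rw [h] at hψtot; simp at hψtot
  have hwtop : w ≠ ⊤ := ne_top_of_le_ne_top ENNReal.ofReal_ne_top hk2
  -- pass to reals
  clear_value x y w
  lift x to NNReal using hxtop
  lift y to NNReal using hytop
  lift w to NNReal using hwtop
  have e1 : (y : ℝ) + w = C := by
    have := congrArg ENNReal.toReal hψtot
    rw [ENNReal.toReal_ofReal hCpos.le, ENNReal.toReal_add (by simp) (by simp)] at this
    simpa using this
  have e2 : (w : ℝ) ≤ s := by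
    have := ENNReal.toReal_mono ENNReal.ofReal_ne_top hk2
    rw [ENNReal.toReal_ofReal hs0.le] at this
    simpa using this
  have hpow : 0 < (1 - s) ^ n := pow_pos (by linarith) n
  have e3 : (1 - s) ^ n * ((x : ℝ) + y) ≤ C := by
    have := ENNReal.toReal_mono ENNReal.ofReal_ne_top hglue
    rw [ENNReal.toReal_ofReal hCpos.le, ENNReal.toReal_mul, ENNReal.toReal_ofReal hpow.le,
      ENNReal.toReal_add (by simp) (by simp)] at this
    simpa using this
  have e4 : (x : ℝ) ≤ C / (1 - s) ^ n - C + s := by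
    have : (x : ℝ) + y ≤ C / (1 - s) ^ n := by
      rw [le_div_iff₀ hpow]; linarith
    linarith
  refine le_trans ?_ hsη
  rw [← ENNReal.ofReal_coe_nnreal]
  exact ENNReal.ofReal_le_ofReal e4

/-- probability measures concentrating at the origin -/
lemma integral_tendsto_of_concentrate {μ : ℕ → Measure (Aff n)} (h1 : ∀ j, μ j univ = 1)
    (h0 : ∀ r : ℝ, 0 < r → Tendsto (fun j => μ j {z | r ≤ ‖z‖}) atTop (𝓝 0))
    {f : Aff n → ℝ} (hf : Continuous f) {B : ℝ} (hB : ∀ z, |f z| ≤ B) :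
    Tendsto (fun j => ∫ z, f z ∂(μ j)) atTop (𝓝 (f 0)) := by
  have hprob : ∀ j, IsProbabilityMeasure (μ j) := fun j => ⟨h1 j⟩
  have hB0 : 0 ≤ B := (abs_nonneg _).trans (hB 0)
  rw [Metric.tendsto_atTop]
  intro ε hε
  obtain ⟨r, hr, hfr⟩ := Metric.continuousAt_iff.1 (hf.continuousAt (x := (0 : Aff n))) (ε / 3)
    (by positivity)
  have hsmall : ∀ᶠ j in atTop, μ j {z | r ≤ ‖z‖} ≤ ENNReal.ofReal (ε / (3 * (2 * B + 1))) := by
    have := h0 r hr
    rw [ENNReal.tendsto_nhds_zero] at this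
    exact this _ (by rw [gt_iff_lt, ENNReal.ofReal_pos]; positivity)
  obtain ⟨J, hJ⟩ := eventually_atTop.1 hsmall
  refine ⟨J, fun j hj => ?_⟩
  have hm : MeasurableSet {z : Aff n | r ≤ ‖z‖} :=
    (isClosed_le continuous_const continuous_norm).measurableSet
  have hfi : Integrable f (μ j) := by
    refine Integrable.of_bound hf.aestronglyMeasurable B (ae_of_all _ fun z => ?_)
    rw [Real.norm_eq_abs]; exact hB z
  have e1 : ∫ z, f z ∂(μ j) - f 0 = ∫ z, (f z - f 0) ∂(μ j) := by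
    rw [integral_sub hfi (integrable_const _)]
    simp
  rw [Real.dist_eq, e1]
  have hbd : ∀ z, ‖f z - f 0‖ ≤ ε / 3 + {z : Aff n | r ≤ ‖z‖}.indicator (fun _ => 2 * B) z := by
    intro z
    by_cases hz : r ≤ ‖z‖
    · rw [indicator_of_mem (show z ∈ {z : Aff n | r ≤ ‖z‖} from hz), Real.norm_eq_abs]
      have := abs_sub (f z) (f 0)
      have h2 := hB z
      have h3 := hB 0
      linarith
    · rw [indicator_of_notMem (show z ∉ {z : Aff n | r ≤ ‖z‖} from hz), add_zero]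
      push Not at hz
      have := hfr (x := z) (by simpa [dist_eq_norm] using hz)
      rw [Real.dist_eq] at this
      rw [Real.norm_eq_abs]
      exact this.le
  have hgi : Integrable (fun z => ε / 3 + {z : Aff n | r ≤ ‖z‖}.indicator (fun _ => 2 * B) z) (μ j) :=
    (integrable_const _).add ((integrable_const _).indicator hm)
  have e2 := norm_integral_le_of_norm_le hgi (ae_of_all _ hbd)
  rw [Real.norm_eq_abs] at e2
  refine lt_of_le_of_lt e2 ?_
  rw [integral_add (integrable_const _) ((integrable_const _).indicator hm),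
    integral_indicator hm]
  simp only [integral_const, probReal_univ, smul_eq_mul, one_mul]
  have e3 : (μ j).real {z : Aff n | r ≤ ‖z‖} ≤ ε / (3 * (2 * B + 1)) := by
    have := ENNReal.toReal_mono ENNReal.ofReal_ne_top (hJ j hj)
    rw [ENNReal.toReal_ofReal (by positivity)] at this
    exact this
  have e4 : ((μ j).restrict {z : Aff n | r ≤ ‖z‖}).real univ = (μ j).real {z : Aff n | r ≤ ‖z‖} := by
    simp [Measure.real]
  rw [e4]
  have e5 : (μ j).real {z : Aff n | r ≤ ‖z‖} * (2 * B) ≤ ε / 3 := by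
    calc (μ j).real {z : Aff n | r ≤ ‖z‖} * (2 * B) ≤ ε / (3 * (2 * B + 1)) * (2 * B + 1) := by
          gcongr
          linarith
    _ = ε / 3 := by field_simp
  linarith

lemma maSmooth_eq (φ : CP n → ℝ) :
    maSmooth φ = (ENNReal.ofReal (n.factorial * (2 / Real.pi) ^ n) • maLoc (pot φ 0)).map
      (chart 0) := by
  unfold maSmooth maLoc
  congr 1
  have hN : 0 ≤ (n.factorial : ℝ) * (2 / Real.pi) ^ n := by positivity
  rw [← withDensity_smul' _ _ ENNReal.ofReal_ne_top]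
  congr 1
  funext z
  simp only [Pi.smul_apply, smul_eq_mul]
  rw [← ENNReal.ofReal_mul hN]
  rfl

/-- Total mass one. -/
theorem norm_mass (hn : 1 ≤ n) {φ : CP n → ℝ} (h : SmoothOmegaPSH φ) :
    (ENNReal.ofReal (n.factorial * (2 / Real.pi) ^ n) • maLoc (pot φ 0)) univ = 1 := by
  rw [Measure.smul_apply, h.mass, maLoc_fsPot hn, smul_eq_mul, ← ENNReal.ofReal_mul (by positivity)]
  rw [← ENNReal.ofReal_one]
  congr 1
  rw [div_pow, div_pow]
  have : Real.pi ≠ 0 := Real.pi_ne_zero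
  field_simp

theorem maSmooth_univ (hn : 1 ≤ n) {φ : CP n → ℝ} (h : SmoothOmegaPSH φ) :
    maSmooth φ univ = 1 := by
  rw [maSmooth_eq, Measure.map_apply (chart_continuous 0).measurable MeasurableSet.univ,
    preimage_univ, norm_mass hn h]

/-- Convergence to the Dirac mass at `[1:0:…:0]`. -/
theorem ma_tendsto_dirac (hn : 1 ≤ n) {φ ψ : ℕ → CP n → ℝ} (hφ : ∀ j, SmoothOmegaPSH (φ j))
    (hψ : ∀ j, SmoothOmegaPSH (ψ j)) (hanti : ∀ x, Antitone fun j => φ j x)
    {G : CP n → EReal} (hlim : ∀ x, Tendsto (fun j => (φ j x : EReal)) atTop (𝓝 (G x)))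
    (hA : ∀ r : ℝ, 0 < r → ∀ κ : ℝ, 0 < κ → ∀ᶠ k in atTop, ∀ x ∈ outer n r,
      ((ψ k x - κ : ℝ) : EReal) ≤ G x ∧ G x ≤ ((ψ k x + κ : ℝ) : EReal))
    (hB : ∀ r : ℝ, 0 < r → Tendsto (fun k => maLoc (pot (ψ k) 0) {z | r ≤ ‖z‖}) atTop (𝓝 0))
    (χ : C(CP n, ℝ)) :
    Tendsto (fun j => ∫ x, χ x ∂(maSmooth (φ j))) atTop (𝓝 (χ (chart 0 0))) := by
  have e : ∀ j, ∫ x, χ x ∂(maSmooth (φ j)) = ∫ z, χ (chart 0 z)
      ∂(ENNReal.ofReal (n.factorial * (2 / Real.pi) ^ n) • maLoc (pot (φ j) 0)) := by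
    intro j
    rw [maSmooth_eq, integral_map (chart_continuous 0).measurable.aemeasurable
      χ.continuous.aestronglyMeasurable]
  simp_rw [e]
  obtain ⟨B, hB'⟩ := exists_bound (n := n) χ.continuous
  have hc : Continuous fun z : Aff n => χ (chart 0 z) := χ.continuous.comp (chart_continuous 0)
  refine integral_tendsto_of_concentrate (fun j => norm_mass hn (hφ j)) ?_ hc
    (fun z => hB' (chart 0 z))
  intro r hr
  have h1 := outer_mass_tendsto hn hφ hψ hanti hlim hA hB hr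
  have h2 := ENNReal.Tendsto.const_mul (a := ENNReal.ofReal (n.factorial * (2 / Real.pi) ^ n)) h1
    (Or.inr ENNReal.ofReal_ne_top)
  rw [mul_zero] at h2
  exact h2

end Pool.Agent.H36
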