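import Pool.Agent.H36.FS

/-! The Monge-Ampère density of `c log (δ + Σ |f_i|²)`, `f : ℂⁿ → ℂⁿ` holomorphic. -/

open MeasureTheory Filter Topology Complex Set
open scoped ContDiff ComplexOrder ComplexConjugate

namespace Pool.Agent.H36

variable {n : ℕ}

lemma wd_holo_zero {f : Aff n → ℂ} (hf : Holo f) (k : Fin n) (z : Aff n) : wd I k f z = 0 := by
  unfold wd
  rw [hf.cr, ← mul_assoc, Complex.I_mul_I]
  ring

lemma wd_holo {f : Aff n → ℂ} (hf : Holo f) (k : Fin n) (z : Aff n) :
    wd (-I) k f z = dv (bas k) f z := by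
  unfold wd
  rw [hf.cr]
  linear_combination (-(1/2) * dv (bas k) f z) * Complex.I_mul_I

lemma wd_conj_holo {f : Aff n → ℂ} (hf : Holo f) (k : Fin n) (z : Aff n) :
    wd I k (fun w => conj (f w)) z = conj (dv (bas k) f z) := by
  unfold wd
  rw [cdv_conj hf.smooth, cdv_conj hf.smooth]
  simp only [hf.cr, map_mul, Complex.conj_I]
  linear_combination (-(1/2) * conj (dv (bas k) f z)) * Complex.I_mul_I

lemma wd_conj_holo_zero {f : Aff n → ℂ} (hf : Holo f) (k : Fin n) (z : Aff n) :
    wd (-I) k (fun w => conj (f w)) z = 0 := by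
  unfold wd
  rw [cdv_conj hf.smooth, cdv_conj hf.smooth]
  simp only [hf.cr, map_mul, Complex.conj_I]
  linear_combination ((1/2) * conj (dv (bas k) f z)) * Complex.I_mul_I

lemma wd_sum {ι : Type*} [Fintype ι] {F : ι → Aff n → ℂ} (hF : ∀ i, ContDiff ℝ ∞ (F i))
    (c : ℂ) (j : Fin n) (z : Aff n) : wd c j (fun w => ∑ i, F i w) z = ∑ i, wd c j (F i) z := by
  unfold wd
  rw [cdv_sum hF, cdv_sum hF]
  simp only
  rw [Finset.mul_sum, ← Finset.sum_add_distrib, Finset.sum_div]

/-- Levi matrix of `log (δ + Σ|f_i|²)`. -/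
lemma levi_log_apply {f : Fin n → Aff n → ℂ} (hf : ∀ i, Holo (f i)) {δ : ℝ} (hδ : 0 < δ)
    (z : Aff n) (j k : Fin n) :
    levi (fun w => Real.log (δ + nsq f w)) z j k =
      ((δ + nsq f z : ℝ) : ℂ)⁻¹ * ∑ i, dv (bas j) (f i) z * conj (dv (bas k) (f i) z)
      - ((δ + nsq f z : ℝ) : ℂ)⁻¹ ^ 2 * ((∑ i, dv (bas j) (f i) z * conj (f i z)) *
        ∑ i, f i z * conj (dv (bas k) (f i) z)) := by
  set S : Aff n → ℝ := fun w => δ + nsq f w with hS
  have hSs : ContDiff ℝ ∞ S := contDiff_const.add (nsq_contDiff fun i => (hf i).smooth)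
  have hpos : ∀ z, 0 < S z := fun z => by
    simp only [hS]; unfold nsq; positivity
  set SC : Aff n → ℂ := fun w => (S w : ℂ) with hSC
  have hSCs : ContDiff ℝ ∞ SC := coe_contDiff hSs
  have hSC0 : ∀ z, SC z ≠ 0 := fun z => by
    simp only [hSC]; exact_mod_cast (hpos z).ne'
  have hSCi : ContDiff ℝ ∞ (fun w => (SC w)⁻¹) := hSCs.inv hSC0
  have hSCe : SC = fun w => (δ:ℂ) + ∑ i, f i w * conj (f i w) := by
    funext w
    simp only [hSC, hS]
    push_cast
    rw [nsq_coe]
  have hterm : ∀ i, ContDiff ℝ ∞ (fun w => f i w * conj (f i w)) := fun i =>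
    (hf i).smooth.mul (conj_contDiff (hf i).smooth)
  have hk : ∀ k z, wd I k SC z = ∑ i, f i z * conj (dv (bas k) (f i) z) := by
    intro k z
    rw [hSCe, wd_add contDiff_const (sum_contDiff hterm), wd_const]
    simp only [zero_add]
    rw [wd_sum hterm]
    refine Finset.sum_congr rfl fun i _ => ?_
    rw [wd_mul (hf i).smooth (conj_contDiff (hf i).smooth), wd_holo_zero (hf i),
      wd_conj_holo (hf i)]
    ring
  have hj : ∀ j z, wd (-I) j SC z = ∑ i, dv (bas j) (f i) z * conj (f i z) := by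
    intro j z
    rw [hSCe, wd_add contDiff_const (sum_contDiff hterm), wd_const]
    simp only [zero_add]
    rw [wd_sum hterm]
    refine Finset.sum_congr rfl fun i _ => ?_
    rw [wd_mul (hf i).smooth (conj_contDiff (hf i).smooth), wd_holo (hf i),
      wd_conj_holo_zero (hf i)]
    ring
  have hinv : ∀ j z, wd (-I) j (fun w => (SC w)⁻¹) z = - wd (-I) j SC z * ((SC z)⁻¹) ^ 2 := by
    intro j z
    have h1 : wd (-I) j (fun w => SC w * (SC w)⁻¹) z = 0 := by
      have : (fun w => SC w * (SC w)⁻¹) = fun _ => (1:ℂ) := by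
        funext w; exact mul_inv_cancel₀ (hSC0 w)
      rw [this, wd_const]
    rw [wd_mul hSCs hSCi] at h1
    have h0 := hSC0 z
    have h2 : SC z * wd (-I) j (fun w => (SC w)⁻¹) z = - (wd (-I) j SC z * (SC z)⁻¹) := by
      linear_combination h1
    calc wd (-I) j (fun w => (SC w)⁻¹) z
        = (SC z)⁻¹ * (SC z * wd (-I) j (fun w => (SC w)⁻¹) z) := by
          rw [← mul_assoc, inv_mul_cancel₀ h0, one_mul]
    _ = - wd (-I) j SC z * ((SC z)⁻¹) ^ 2 := by rw [h2]; ring
  -- first derivative of the logarithm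
  have hlog : wd I k (fun w => ((Real.log (S w) : ℝ) : ℂ)) =
      fun w => (∑ i, f i w * conj (dv (bas k) (f i) w)) * (SC w)⁻¹ := by
    funext w
    have h1 : ∀ v, dv v (fun w => ((Real.log (S w) : ℝ) : ℂ)) w = dv v SC w * (SC w)⁻¹ := by
      intro v
      rw [dv_ofReal (log_contDiff hSs hpos), dv_log hSs hpos, hSC, dv_ofReal hSs]
      push_cast
      ring
    have h2 : wd I k (fun w => ((Real.log (S w) : ℝ) : ℂ)) w = wd I k SC w * (SC w)⁻¹ := by
      unfold wd
      rw [h1, h1]; ring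
    rw [h2, hk]
  have hnum : ∀ i, ContDiff ℝ ∞ (fun w => f i w * conj (dv (bas k) (f i) w)) := fun i =>
    (hf i).smooth.mul (conj_contDiff ((hf i).dv _).smooth)
  rw [levi_eq]
  simp only [Matrix.of_apply]
  change wd (-I) j (wd I k (fun w => ((Real.log (S w) : ℝ) : ℂ))) z = _
  rw [hlog, wd_mul (sum_contDiff hnum) hSCi, wd_sum hnum, hinv, hj]
  have h3 : ∑ i, wd (-I) j (fun w => f i w * conj (dv (bas k) (f i) w)) z =
      ∑ i, dv (bas j) (f i) z * conj (dv (bas k) (f i) z) := by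
    refine Finset.sum_congr rfl fun i _ => ?_
    rw [wd_mul (hf i).smooth (conj_contDiff ((hf i).dv _).smooth), wd_holo (hf i),
      wd_conj_holo_zero ((hf i).dv _)]
    ring
  rw [h3]
  ring

/-- The determinant of the Levi matrix of `log (δ + Σ|f_i|²)`. -/
theorem det_levi_log {f : Fin n → Aff n → ℂ} (hf : ∀ i, Holo (f i)) {δ : ℝ} (hδ : 0 < δ)
    (z : Aff n) :
    (levi (fun w => Real.log (δ + nsq f w)) z).det =
      ((δ * ‖(Matrix.of fun i j => dv (bas j) (f i) z : Matrix (Fin n) (Fin n) ℂ).det‖ ^ 2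
        / (δ + nsq f z) ^ (n + 1) : ℝ) : ℂ) := by
  set J : Matrix (Fin n) (Fin n) ℂ := Matrix.of fun i j => dv (bas j) (f i) z with hJ
  set s : ℂ := ((δ + nsq f z : ℝ) : ℂ) with hs
  have hs0 : s ≠ 0 := by
    have : 0 < δ + nsq f z := by unfold nsq; positivity
    rw [hs]; exact_mod_cast this.ne'
  set u : Fin n → ℂ := fun i => - (s⁻¹ * conj (f i z)) with hu
  set v : Fin n → ℂ := fun i => f i z with hv
  have hM : levi (fun w => Real.log (δ + nsq f w)) z =
      s⁻¹ • (J.transpose * (1 + Matrix.replicateCol Unit u * Matrix.replicateRow Unit v)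
        * J.map conj) := by
    ext j k
    rw [levi_log_apply hf hδ]
    simp only [Matrix.smul_apply, smul_eq_mul]
    rw [mul_add, add_mul, mul_one, Matrix.add_apply, mul_add]
    have h1 : (J.transpose * J.map conj) j k =
        ∑ i, dv (bas j) (f i) z * conj (dv (bas k) (f i) z) := by
      simp [Matrix.mul_apply, hJ]
    have h2 : (J.transpose * (Matrix.replicateCol Unit u * Matrix.replicateRow Unit v)
        * J.map conj) j k = - (s⁻¹ * ((∑ i, dv (bas j) (f i) z * conj (f i z)) *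
        ∑ i, f i z * conj (dv (bas k) (f i) z))) := by
      rw [← Matrix.mul_assoc, Matrix.mul_assoc _ (Matrix.replicateRow Unit v), Matrix.mul_apply]
      simp only [Finset.univ_unique, Finset.sum_singleton]
      simp only [Matrix.mul_apply, Matrix.transpose_apply, Matrix.replicateCol_apply,
        Matrix.replicateRow_apply, Matrix.map_apply, hJ, Matrix.of_apply, hu, hv]
      rw [← mul_assoc, ← neg_mul]
      congr 1
      rw [Finset.mul_sum, ← Finset.sum_neg_distrib]
      refine Finset.sum_congr rfl fun i _ => ?_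
      ring
    rw [h1, h2]
    ring
  rw [hM, Matrix.det_smul, Matrix.det_mul, Matrix.det_mul, Matrix.det_transpose,
    Matrix.det_one_add_replicateCol_mul_replicateRow]
  have hdc : (J.map conj).det = conj J.det := by
    rw [← RingHom.mapMatrix_apply, ← RingHom.map_det]
  rw [hdc]
  have hdot : 1 + v ⬝ᵥ u = (δ : ℂ) * s⁻¹ := by
    have h3 : v ⬝ᵥ u = - (s⁻¹ * ((nsq f z : ℝ) : ℂ)) := by
      rw [nsq_coe]
      simp only [dotProduct, hu, hv]
      rw [Finset.mul_sum, ← Finset.sum_neg_distrib]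
      refine Finset.sum_congr rfl fun i _ => ?_
      ring
    rw [h3]
    have : s = (δ:ℂ) + ((nsq f z : ℝ) : ℂ) := by rw [hs]; push_cast; ring
    have h4 : (δ:ℂ) = s - ((nsq f z : ℝ) : ℂ) := by rw [this]; ring
    rw [h4]
    field_simp
    ring
  rw [hdot]
  simp only [Fintype.card_fin]
  have h5 := normSq_eq J.det
  push_cast at h5 ⊢
  rw [h5, div_eq_mul_inv, ← inv_pow]
  have h6 : ((δ:ℂ) + ((nsq f z : ℝ):ℂ)) = s := by rw [hs]; push_cast; ring
  rw [h6]
  ring

/-- Rescaled version: `c log (δ + Σ|f_i|²)`. -/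
theorem det_levi_clog {f : Fin n → Aff n → ℂ} (hf : ∀ i, Holo (f i)) {δ : ℝ} (hδ : 0 < δ) (c : ℝ)
    (z : Aff n) :
    (levi (fun w => c * Real.log (δ + nsq f w)) z).det.re =
      c ^ n * (δ * ‖(Matrix.of fun i j => dv (bas j) (f i) z : Matrix (Fin n) (Fin n) ℂ).det‖ ^ 2
        / (δ + nsq f z) ^ (n + 1)) := by
  have hS : ContDiff ℝ ∞ (fun w => Real.log (δ + nsq f w)) := by
    apply log_contDiff
    · exact contDiff_const.add (nsq_contDiff fun i => (hf i).smooth)
    · intro z; unfold nsq; positivity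
  have := det_levi_scale hS c 0 z
  simp only [add_zero] at this
  rw [this, det_levi_log hf hδ, Complex.ofReal_re]

end Pool.Agent.H36
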