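import Pool.Agent.H36.TotalMass

/-! Potentials `c log Σ |F_i|²` with `F_i` holomorphic. -/

open MeasureTheory Filter Topology Complex Set
open scoped ContDiff ComplexOrder ComplexConjugate

namespace Pool.Agent.H36

variable {n : ℕ}

/-- holomorphic functions on `ℂⁿ` -/
structure Holo (f : Aff n → ℂ) : Prop where
  smooth : ContDiff ℝ ∞ f
  cr : ∀ v z, dv (I • v) f z = I * dv v f z

lemma cdv_mul {f g : Aff n → ℂ} (hf : ContDiff ℝ ∞ f) (hg : ContDiff ℝ ∞ g) (v : Aff n) :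
    dv v (fun w => f w * g w) = fun z => dv v f z * g z + f z * dv v g z := by
  funext z
  unfold dv
  have := ((diffAt hf z).hasFDerivAt.mul (diffAt hg z).hasFDerivAt).fderiv
  have e : (fun w => f w * g w) = f * g := rfl
  rw [e, this]
  simp
  ring

lemma cdv_add {f g : Aff n → ℂ} (hf : ContDiff ℝ ∞ f) (hg : ContDiff ℝ ∞ g) (v : Aff n) :
    dv v (fun w => f w + g w) = fun z => dv v f z + dv v g z := by
  funext z
  unfold dv
  have := ((diffAt hf z).hasFDerivAt.add (diffAt hg z).hasFDerivAt).fderiv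
  have e : (fun w => f w + g w) = f + g := rfl
  rw [e, this]
  simp

lemma cdv_const (a : ℂ) (v : Aff n) : dv v (fun _ : Aff n => a) = fun _ => 0 := by
  funext z; simp [dv]

lemma cdv_conj {f : Aff n → ℂ} (hf : ContDiff ℝ ∞ f) (v : Aff n) :
    dv v (fun w => conj (f w)) = fun z => conj (dv v f z) := by
  funext z
  unfold dv
  have h : HasFDerivAt (fun w => conj (f w))
      ((Complex.conjCLE : ℂ →L[ℝ] ℂ).comp (fderiv ℝ f z)) z :=
    (Complex.conjCLE : ℂ →L[ℝ] ℂ).hasFDerivAt.comp z (diffAt hf z).hasFDerivAt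
  rw [h.fderiv]
  simp

lemma cdv_coord (v : Aff n) (i : Fin n) : dv v (fun w : Aff n => w i) = fun _ => v i := by
  funext z
  unfold dv
  have h : HasFDerivAt (fun w : Aff n => w i)
      ((EuclideanSpace.proj i : Aff n →L[ℂ] ℂ).restrictScalars ℝ) z :=
    ((EuclideanSpace.proj i : Aff n →L[ℂ] ℂ).restrictScalars ℝ).hasFDerivAt
  rw [h.fderiv]
  simp

lemma Holo.const (a : ℂ) : Holo (fun _ : Aff n => a) :=
  ⟨contDiff_const, fun v z => by rw [cdv_const, cdv_const]; simp⟩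

lemma coord_contDiff (i : Fin n) : ContDiff ℝ ∞ (fun w : Aff n => w i) :=
  ((EuclideanSpace.proj i : Aff n →L[ℂ] ℂ).restrictScalars ℝ).contDiff

lemma Holo.coord (i : Fin n) : Holo (fun w : Aff n => w i) :=
  ⟨coord_contDiff i, fun v z => by rw [cdv_coord, cdv_coord]; simp⟩

lemma Holo.add {f g : Aff n → ℂ} (hf : Holo f) (hg : Holo g) : Holo (fun w => f w + g w) :=
  ⟨hf.smooth.add hg.smooth, fun v z => by
    simp only [cdv_add hf.smooth hg.smooth, hf.cr, hg.cr]; ring⟩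

lemma Holo.mul {f g : Aff n → ℂ} (hf : Holo f) (hg : Holo g) : Holo (fun w => f w * g w) :=
  ⟨hf.smooth.mul hg.smooth, fun v z => by
    simp only [cdv_mul hf.smooth hg.smooth, hf.cr, hg.cr]; ring⟩

lemma Holo.pow {f : Aff n → ℂ} (hf : Holo f) (d : ℕ) : Holo (fun w => f w ^ d) := by
  induction d with
  | zero => simpa using Holo.const (n := n) 1
  | succ d ih => simpa only [pow_succ] using ih.mul hf

lemma Holo.dv {f : Aff n → ℂ} (hf : Holo f) (v : Aff n) : Holo (dv v f) := by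
  refine ⟨dv_contDiff hf.smooth v, fun w z => ?_⟩
  rw [dv_comm hf.smooth (I • w) v]
  have h1 : H36.dv (I • w) f = fun z => I * H36.dv w f z := by funext z; exact hf.cr w z
  rw [h1, cdv_mul contDiff_const (dv_contDiff hf.smooth w), cdv_const]
  simp only [zero_mul, zero_add]
  rw [dv_comm hf.smooth v w]

lemma normSq_eq (a : ℂ) : ((‖a‖ ^ 2 : ℝ) : ℂ) = a * conj a := by
  rw [Complex.mul_conj, Complex.normSq_eq_norm_sq]

/-- `Σ |F_i|²` -/
noncomputable def nsq {ι : Type*} [Fintype ι] (F : ι → Aff n → ℂ) (z : Aff n) : ℝ :=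
  ∑ i, ‖F i z‖ ^ 2

lemma nsq_coe {ι : Type*} [Fintype ι] (F : ι → Aff n → ℂ) (z : Aff n) :
    ((nsq F z : ℝ) : ℂ) = ∑ i, F i z * conj (F i z) := by
  unfold nsq
  push_cast
  refine Finset.sum_congr rfl fun i _ => ?_
  rw [← normSq_eq]; push_cast; rfl

lemma nsq_contDiff {ι : Type*} [Fintype ι] {F : ι → Aff n → ℂ} (hF : ∀ i, ContDiff ℝ ∞ (F i)) :
    ContDiff ℝ ∞ (nsq F) := by
  unfold nsq
  exact ContDiff.sum fun i _ => (hF i).norm_sq ℝ

lemma sum_contDiff {ι : Type*} [Fintype ι] {F : ι → Aff n → ℂ} (hF : ∀ i, ContDiff ℝ ∞ (F i)) :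
    ContDiff ℝ ∞ (fun z => ∑ i, F i z) := ContDiff.sum fun i _ => hF i

lemma cdv_sum {ι : Type*} [Fintype ι] {F : ι → Aff n → ℂ} (hF : ∀ i, ContDiff ℝ ∞ (F i))
    (v : Aff n) : dv v (fun w => ∑ i, F i w) = fun z => ∑ i, dv v (F i) z := by
  funext z
  unfold dv
  rw [fderiv_fun_sum (fun i _ => diffAt (hF i) z)]
  simp

lemma conj_contDiff {f : Aff n → ℂ} (hf : ContDiff ℝ ∞ f) :
    ContDiff ℝ ∞ (fun w => conj (f w)) :=
  (Complex.conjCLE : ℂ →L[ℝ] ℂ).contDiff.comp hf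

/-- first derivative of `Σ|F_i|²` -/
lemma dv_nsq {ι : Type*} [Fintype ι] {F : ι → Aff n → ℂ} (hF : ∀ i, Holo (F i)) (v : Aff n) :
    (fun z => ((dv v (nsq F) z : ℝ) : ℂ)) =
      fun z => ∑ i, (dv v (F i) z * conj (F i z) + F i z * conj (dv v (F i) z)) := by
  rw [← dv_ofReal' (nsq_contDiff fun i => (hF i).smooth)]
  have e : (fun w => ((nsq F w : ℝ) : ℂ)) = fun z => ∑ i, F i z * conj (F i z) := by
    funext z; exact nsq_coe F z
  rw [e, cdv_sum (fun i => (hF i).smooth.mul (conj_contDiff (hF i).smooth))]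
  funext z
  refine Finset.sum_congr rfl fun i _ => ?_
  rw [cdv_mul (hF i).smooth (conj_contDiff (hF i).smooth), cdv_conj (hF i).smooth]

lemma dv_nsq_re {ι : Type*} [Fintype ι] {F : ι → Aff n → ℂ} (hF : ∀ i, Holo (F i)) (v z : Aff n) :
    dv v (nsq F) z = 2 * (∑ i, conj (F i z) * dv v (F i) z).re := by
  have h := congrFun (dv_nsq hF v) z
  have h2 : ((dv v (nsq F) z : ℝ) : ℂ) = ((2 * (∑ i, conj (F i z) * dv v (F i) z).re : ℝ) : ℂ) := by
    rw [h, Finset.sum_add_distrib]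
    have e1 : ∑ i, dv v (F i) z * conj (F i z) = ∑ i, conj (F i z) * dv v (F i) z :=
      Finset.sum_congr rfl fun i _ => by ring
    have e2 : ∑ i, F i z * conj (dv v (F i) z) = conj (∑ i, conj (F i z) * dv v (F i) z) := by
      rw [map_sum]
      refine Finset.sum_congr rfl fun i _ => ?_
      rw [map_mul, Complex.conj_conj]
    rw [e1, e2, Complex.add_conj]
  exact_mod_cast h2

/-- `(D_v S)² + (D_{iv} S)² = 4 |Σ F̄_i D_v F_i|²` -/
lemma dv_nsq_sq {ι : Type*} [Fintype ι] {F : ι → Aff n → ℂ} (hF : ∀ i, Holo (F i)) (v z : Aff n) :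
    dv v (nsq F) z ^ 2 + dv (I • v) (nsq F) z ^ 2 = 4 * ‖∑ i, conj (F i z) * dv v (F i) z‖ ^ 2 := by
  rw [dv_nsq_re hF, dv_nsq_re hF]
  have e : ∑ i, conj (F i z) * dv (I • v) (F i) z = I * ∑ i, conj (F i z) * dv v (F i) z := by
    rw [Finset.mul_sum]
    refine Finset.sum_congr rfl fun i _ => ?_
    rw [(hF i).cr]; ring
  rw [e, ← Complex.normSq_eq_norm_sq, Complex.normSq_apply]
  simp
  ring

/-- `lap Σ|F_i|² = 4 Σ |D_v F_i|²` -/
lemma lap_nsq {ι : Type*} [Fintype ι] {F : ι → Aff n → ℂ} (hF : ∀ i, Holo (F i)) (v z : Aff n) :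
    lap (nsq F) z v = 4 * ∑ i, ‖dv v (F i) z‖ ^ 2 := by
  have hS := nsq_contDiff fun i => (hF i).smooth
  have key : ∀ v, ((dv v (dv v (nsq F)) z : ℝ) : ℂ) = ∑ i, (dv v (dv v (F i)) z * conj (F i z)
      + 2 * (dv v (F i) z * conj (dv v (F i) z)) + F i z * conj (dv v (dv v (F i)) z)) := by
    intro v
    rw [← dv_ofReal (dv_contDiff hS v), dv_nsq hF v, cdv_sum]
    · refine Finset.sum_congr rfl fun i _ => ?_
      have h1 := (hF i).smooth
      have h2 := dv_contDiff h1 v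
      rw [cdv_add (h2.mul (conj_contDiff h1)) (h1.mul (conj_contDiff h2)),
        cdv_mul h2 (conj_contDiff h1), cdv_mul h1 (conj_contDiff h2), cdv_conj h1, cdv_conj h2]
      ring
    · intro i
      have h1 := (hF i).smooth
      have h2 := dv_contDiff h1 v
      exact (h2.mul (conj_contDiff h1)).add (h1.mul (conj_contDiff h2))
  have h2 : ∀ i, dv (I • v) (dv (I • v) (F i)) z = - dv v (dv v (F i)) z := by
    intro i
    rw [((hF i).dv (I • v)).cr, dv_comm (hF i).smooth, ((hF i).dv v).cr, ← mul_assoc,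
      Complex.I_mul_I, neg_one_mul]
  have h3 : ((lap (nsq F) z v : ℝ) : ℂ) = ((4 * ∑ i, ‖dv v (F i) z‖ ^ 2 : ℝ) : ℂ) := by
    unfold lap
    push_cast
    rw [key, key, ← Finset.sum_add_distrib, Finset.mul_sum]
    refine Finset.sum_congr rfl fun i _ => ?_
    rw [h2, (hF i).cr]
    have h4 := normSq_eq (dv v (F i) z)
    push_cast at h4
    rw [h4]
    simp only [map_neg, map_mul, Complex.conj_I]
    linear_combination (-2 * dv v (F i) z * conj (dv v (F i) z)) * Complex.I_mul_I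
  exact_mod_cast h3

lemma dv_log {S : Aff n → ℝ} (hS : ContDiff ℝ ∞ S) (hpos : ∀ z, 0 < S z) (v : Aff n) :
    dv v (fun w => Real.log (S w)) = fun z => (S z)⁻¹ * dv v S z := by
  funext z
  unfold dv
  rw [((diffAt hS z).hasFDerivAt.log (hpos z).ne').fderiv]
  simp

lemma log_contDiff {S : Aff n → ℝ} (hS : ContDiff ℝ ∞ S) (hpos : ∀ z, 0 < S z) :
    ContDiff ℝ ∞ (fun w => Real.log (S w)) := hS.log fun z => (hpos z).ne'

lemma inv_contDiff {S : Aff n → ℝ} (hS : ContDiff ℝ ∞ S) (hpos : ∀ z, 0 < S z) :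
    ContDiff ℝ ∞ (fun w => (S w)⁻¹) := hS.inv fun z => (hpos z).ne'

lemma lap_log {S : Aff n → ℝ} (hS : ContDiff ℝ ∞ S) (hpos : ∀ z, 0 < S z) (z v : Aff n) :
    lap (fun w => Real.log (S w)) z v =
      (S z * lap S z v - (dv v S z ^ 2 + dv (I • v) S z ^ 2)) / S z ^ 2 := by
  have h0 : S z ≠ 0 := (hpos z).ne'
  have hinv : ∀ v, dv v (fun w => (S w)⁻¹) z = - (dv v S z) / S z ^ 2 := by
    intro v
    have h1 : dv v (fun w => S w * (S w)⁻¹) z = 0 := by
      have : (fun w => S w * (S w)⁻¹) = fun _ => (1:ℝ) := by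
        funext w; exact mul_inv_cancel₀ (hpos w).ne'
      rw [this, dv_const]
    rw [dv_mul hS (inv_contDiff hS hpos)] at h1
    field_simp
    field_simp at h1
    linear_combination h1
  have h : ∀ v, dv v (dv v (fun w => Real.log (S w))) z =
      (S z * dv v (dv v S) z - dv v S z ^ 2) / S z ^ 2 := by
    intro v
    rw [dv_log hS hpos, dv_mul (inv_contDiff hS hpos) (dv_contDiff hS v), hinv]
    field_simp
    ring
  unfold lap
  rw [h, h]
  ring

/-- The Levi form of `c log Σ|F_i|²`. -/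
lemma lap_log_nsq {ι : Type*} [Fintype ι] {F : ι → Aff n → ℂ} (hF : ∀ i, Holo (F i))
    (hpos : ∀ z, 0 < nsq F z) (c : ℝ) (z v : Aff n) :
    lap (fun w => c * Real.log (nsq F w)) z v =
      4 * c * (nsq F z * ∑ i, ‖dv v (F i) z‖ ^ 2 - ‖∑ i, conj (F i z) * dv v (F i) z‖ ^ 2)
        / nsq F z ^ 2 := by
  have hS := nsq_contDiff fun i => (hF i).smooth
  rw [lap_const_mul (log_contDiff hS hpos), lap_log hS hpos, dv_nsq_sq hF, lap_nsq hF]
  ring

lemma cauchy_schwarz {ι : Type*} [Fintype ι] (a b : ι → ℂ) :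
    ‖∑ i, conj (a i) * b i‖ ^ 2 ≤ (∑ i, ‖a i‖ ^ 2) * ∑ i, ‖b i‖ ^ 2 := by
  have h1 : ‖∑ i, conj (a i) * b i‖ ≤ ∑ i, ‖a i‖ * ‖b i‖ := by
    calc ‖∑ i, conj (a i) * b i‖ ≤ ∑ i, ‖conj (a i) * b i‖ := norm_sum_le _ _
    _ = ∑ i, ‖a i‖ * ‖b i‖ := by
        refine Finset.sum_congr rfl fun i _ => ?_
        rw [norm_mul, RCLike.norm_conj]
  calc ‖∑ i, conj (a i) * b i‖ ^ 2 ≤ (∑ i, ‖a i‖ * ‖b i‖) ^ 2 := by gcongr
  _ ≤ (∑ i, ‖a i‖ ^ 2) * ∑ i, ‖b i‖ ^ 2 := Finset.sum_mul_sq_le_sq_mul_sq _ _ _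

theorem spsh_log_nsq {ι : Type*} [Fintype ι] {F : ι → Aff n → ℂ} (hF : ∀ i, Holo (F i))
    (hpos : ∀ z, 0 < nsq F z) {c : ℝ} (hc : 0 ≤ c) :
    SPsh (fun w => c * Real.log (nsq F w)) := by
  refine ⟨contDiff_const.mul (log_contDiff (nsq_contDiff fun i => (hF i).smooth) hpos), ?_⟩
  intro z v
  rw [lap_log_nsq hF hpos]
  have h := cauchy_schwarz (fun i => F i z) (fun i => dv v (F i) z)
  have h2 : 0 ≤ nsq F z * ∑ i, ‖dv v (F i) z‖ ^ 2 - ‖∑ i, conj (F i z) * dv v (F i) z‖ ^ 2 := by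
    unfold nsq; linarith
  positivity

end Pool.Agent.H36
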