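import Pool.Agent.H36.DetFS

/-! The total mass of the Fubini-Study potential. -/

open MeasureTheory Filter Topology Complex Set
open scoped ContDiff ComplexOrder ComplexConjugate

namespace Pool.Agent.H36

variable {n : ℕ}

lemma nsq_coord (z : Aff n) : nsq (fun i : Fin n => fun w : Aff n => w i) z = ‖z‖ ^ 2 := by
  unfold nsq
  rw [EuclideanSpace.norm_sq_eq]

lemma fsPot_eq : (fsPot : Aff n → ℝ) =
    fun z => (1 / 2) * Real.log (1 + nsq (fun i : Fin n => fun w : Aff n => w i) z) := by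
  funext z
  rw [nsq_coord]; rfl

lemma jac_coord (z : Aff n) :
    (Matrix.of fun i j => dv (bas j) ((fun i : Fin n => fun w : Aff n => w i) i) z :
      Matrix (Fin n) (Fin n) ℂ) = 1 := by
  ext i j
  simp only [Matrix.of_apply]
  rw [cdv_coord]
  simp [bas, Matrix.one_apply]

lemma det_levi_fsPot (z : Aff n) :
    (levi (fsPot : Aff n → ℝ) z).det.re = (1 / 2) ^ n / (1 + ‖z‖ ^ 2) ^ (n + 1) := by
  rw [fsPot_eq, det_levi_clog (fun i => Holo.coord i) one_pos, jac_coord, nsq_coord]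
  simp
  ring

lemma finrank_aff : Module.finrank ℝ (Aff n) = 2 * n := by
  have h1 : Module.finrank ℂ (Aff n) = n := by simp
  have h2 := Module.finrank_mul_finrank ℝ ℂ (Aff n)
  rw [Complex.finrank_real_complex, h1] at h2
  exact h2.symm

lemma radial_hasDerivAt (hn : 1 ≤ n) (y : ℝ) :
    HasDerivAt (fun y : ℝ => (1 / (2 * n : ℝ)) * (y ^ 2 / (1 + y ^ 2)) ^ n)
      (y ^ (2 * n - 1) / (1 + y ^ 2) ^ (n + 1)) y := by
  have h0 : (1 + y ^ 2) ≠ 0 := by positivity
  have h1 : HasDerivAt (fun y : ℝ => y ^ 2 / (1 + y ^ 2))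
      ((2 * y * (1 + y ^ 2) - y ^ 2 * (2 * y)) / (1 + y ^ 2) ^ 2) y := by
    have ha : HasDerivAt (fun y : ℝ => y ^ 2) (2 * y) y := by
      simpa using hasDerivAt_pow 2 y
    exact ha.div (ha.const_add 1) h0
  have h2 := (h1.pow n).const_mul (1 / (2 * n : ℝ))
  have hn0 : (n : ℝ) ≠ 0 := by positivity
  convert! h2 using 1
  obtain ⟨m, rfl⟩ : ∃ m, n = m + 1 := ⟨n - 1, by omega⟩
  have e1 : 2 * (m + 1) - 1 = 2 * m + 1 := by omega
  rw [e1, Nat.add_sub_cancel]
  rw [div_pow]
  field_simp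
  ring

lemma radial_integral (hn : 1 ≤ n) :
    IntegrableOn (fun y : ℝ => y ^ (2 * n - 1) / (1 + y ^ 2) ^ (n + 1)) (Ioi 0) ∧
    ∫ y in Ioi (0:ℝ), y ^ (2 * n - 1) / (1 + y ^ 2) ^ (n + 1) = 1 / (2 * n : ℝ) := by
  have hlim : Tendsto (fun y : ℝ => (1 / (2 * n : ℝ)) * (y ^ 2 / (1 + y ^ 2)) ^ n) atTop
      (𝓝 ((1 / (2 * n : ℝ)) * 1 ^ n)) := by
    apply Tendsto.const_mul
    apply Tendsto.pow
    have h1 : Tendsto (fun y : ℝ => 1 - (1 + y ^ 2)⁻¹) atTop (𝓝 (1 - 0)) := by
      apply Tendsto.const_sub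
      apply tendsto_inv_atTop_zero.comp
      exact tendsto_atTop_add_const_left _ _ (tendsto_pow_atTop two_ne_zero)
    rw [sub_zero] at h1
    refine h1.congr fun y => ?_
    have h0 : (1 + y ^ 2) ≠ 0 := by positivity
    field_simp
    ring
  have hpos : ∀ y ∈ Ioi (0:ℝ), 0 ≤ y ^ (2 * n - 1) / (1 + y ^ 2) ^ (n + 1) := by
    intro y hy
    have : (0:ℝ) < y := hy
    positivity
  refine ⟨integrableOn_Ioi_deriv_of_nonneg' (fun y _ => radial_hasDerivAt hn y) hpos hlim, ?_⟩
  rw [integral_Ioi_of_hasDerivAt_of_nonneg' (fun y _ => radial_hasDerivAt hn y) hpos hlim]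
  have hn' : n ≠ 0 := by omega
  simp [hn']

lemma integral_fs (hn : 1 ≤ n) :
    Integrable (fun z : Aff n => ((1 + ‖z‖ ^ 2) ^ (n + 1))⁻¹) ∧
    ∫ z : Aff n, ((1 + ‖z‖ ^ 2) ^ (n + 1))⁻¹ = Real.pi ^ n / n.factorial := by
  have : NeZero n := ⟨by omega⟩
  have : Nonempty (Fin n) := ⟨0⟩
  have : Nontrivial (Aff n) := inferInstance
  set f : ℝ → ℝ := fun y => ((1 + y ^ 2) ^ (n + 1))⁻¹ with hf
  have e : ∀ y : ℝ, y ^ (2 * n - 1) • f y = y ^ (2 * n - 1) / (1 + y ^ 2) ^ (n + 1) := by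
    intro y; simp only [hf, smul_eq_mul]; rw [div_eq_mul_inv]
  obtain ⟨h1, h2⟩ := radial_integral hn
  constructor
  · have := (integrable_fun_norm_addHaar (volume : Measure (Aff n)) (f := f)).2 (by
      rw [finrank_aff]
      simp_rw [e]
      exact h1)
    exact this
  · have := integral_fun_norm_addHaar (volume : Measure (Aff n)) f
    rw [finrank_aff] at this
    simp_rw [e] at this
    rw [h2] at this
    simp only [hf] at this
    rw [this, Measure.real, InnerProductSpace.volume_ball, finrank_aff]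
    simp only [ENNReal.ofReal_one, one_pow, one_mul]
    have hG : Real.Gamma (((2 * n : ℕ) : ℝ) / 2 + 1) = n.factorial := by
      have : ((2 * n : ℕ) : ℝ) / 2 + 1 = (n : ℝ) + 1 := by push_cast; ring
      rw [this, Real.Gamma_nat_eq_factorial]
    rw [hG, ENNReal.toReal_ofReal (by positivity)]
    have hpi : √Real.pi ^ (2 * n) = Real.pi ^ n := by
      rw [pow_mul, Real.sq_sqrt Real.pi_pos.le]
    rw [hpi]
    have hn0 : (n : ℝ) ≠ 0 := by positivity
    simp only [nsmul_eq_mul, smul_eq_mul]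
    push_cast
    field_simp

theorem maLoc_fsPot (hn : 1 ≤ n) :
    maLoc (fsPot : Aff n → ℝ) univ = ENNReal.ofReal ((Real.pi / 2) ^ n / n.factorial) := by
  obtain ⟨h1, h2⟩ := integral_fs (n := n) hn
  rw [maLoc_apply _ MeasurableSet.univ, setLIntegral_univ]
  have e : ∀ z : Aff n, (levi (fsPot : Aff n → ℝ) z).det.re =
      (1/2) ^ n * ((1 + ‖z‖ ^ 2) ^ (n + 1))⁻¹ := by
    intro z; rw [det_levi_fsPot, div_eq_mul_inv]
  simp_rw [e]
  rw [← ofReal_integral_eq_lintegral_ofReal (h1.const_mul _) (ae_of_all _ fun z => by positivity),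
    integral_const_mul, h2]
  congr 1
  rw [div_pow, div_pow]
  field_simp
  simp

lemma spsh_fsPot : SPsh (fsPot : Aff n → ℝ) := by
  -- family `1, z_1, ..., z_n`
  have h := spsh_log_nsq (n := n) (F := fun o : Option (Fin n) => fun w : Aff n =>
    match o with
    | none => (1:ℂ)
    | some i => w i) (by
      intro o
      cases o with
      | none => exact Holo.const 1
      | some i => exact Holo.coord i) (by
      intro z
      unfold nsq
      rw [Fintype.sum_option]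
      simp only [norm_one, one_pow]
      positivity) (c := 1/2) (by norm_num)
  convert! h using 1
  funext z
  unfold fsPot nsq
  rw [Fintype.sum_option, EuclideanSpace.norm_sq_eq]
  simp

end Pool.Agent.H36
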