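import Pool.Agent.H36.FSMass

/-! Gluing two potentials along a spherical shell, and the resulting mass estimate. -/

open MeasureTheory Filter Topology Complex Set
open scoped ContDiff ComplexOrder ComplexConjugate

namespace Pool.Agent.H36

variable {n : ℕ}

/-- the function `‖z‖²` -/
noncomputable def nrm2 (z : Aff n) : ℝ := nsq (fun i : Fin n => fun w : Aff n => w i) z

lemma nrm2_eq (z : Aff n) : nrm2 z = ‖z‖ ^ 2 := nsq_coord z

lemma nrm2_contDiff : ContDiff ℝ ∞ (nrm2 : Aff n → ℝ) :=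
  nsq_contDiff fun i => (Holo.coord i).smooth

lemma lap_nrm2 (z v : Aff n) : lap nrm2 z v = 4 * ‖v‖ ^ 2 := by
  have h := lap_nsq (n := n) (F := fun i : Fin n => fun w : Aff n => w i) (fun i => Holo.coord i) v z
  have e : lap nrm2 z v = lap (nsq fun i : Fin n => fun w : Aff n => w i) z v := rfl
  rw [e, h, EuclideanSpace.norm_sq_eq]
  congr 1
  refine Finset.sum_congr rfl fun i _ => ?_
  rw [cdv_coord]

lemma dv_nrm2_sq (z v : Aff n) :
    dv v nrm2 z ^ 2 + dv (I • v) nrm2 z ^ 2 ≤ 4 * (‖z‖ ^ 2 * ‖v‖ ^ 2) := by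
  have h := dv_nsq_sq (n := n) (F := fun i : Fin n => fun w : Aff n => w i) (fun i => Holo.coord i) v z
  have e : dv v nrm2 z ^ 2 + dv (I • v) nrm2 z ^ 2 =
    dv v (nsq fun i : Fin n => fun w : Aff n => w i) z ^ 2 +
      dv (I • v) (nsq fun i : Fin n => fun w : Aff n => w i) z ^ 2 := rfl
  rw [e, h]
  have h2 := cauchy_schwarz (fun i : Fin n => z i) (fun i => v i)
  rw [← EuclideanSpace.norm_sq_eq, ← EuclideanSpace.norm_sq_eq] at h2
  simp only [cdv_coord]
  linarith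

lemma lap_fsPot_ge (z v : Aff n) : 2 * ‖v‖ ^ 2 / (1 + ‖z‖ ^ 2) ^ 2 ≤ lap fsPot z v := by
  set F : Option (Fin n) → Aff n → ℂ := fun o : Option (Fin n) => fun w : Aff n =>
    match o with
    | none => (1:ℂ)
    | some i => w i with hF
  have hH : ∀ o, Holo (F o) := by
    intro o
    cases o with
    | none => exact Holo.const 1
    | some i => exact Holo.coord i
  have hval : ∀ w, nsq F w = 1 + ‖w‖ ^ 2 := by
    intro w
    unfold nsq
    rw [Fintype.sum_option, EuclideanSpace.norm_sq_eq]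
    simp [hF]
  have hpos : ∀ w, 0 < nsq F w := fun w => by rw [hval]; positivity
  have e : (fsPot : Aff n → ℝ) = fun w => (1/2) * Real.log (nsq F w) := by
    funext w; rw [hval]; rfl
  rw [e, lap_log_nsq hH hpos, hval]
  have h1 : ∑ o, ‖dv v (F o) z‖ ^ 2 = ‖v‖ ^ 2 := by
    rw [Fintype.sum_option, EuclideanSpace.norm_sq_eq]
    have e0 : dv v (F none) z = 0 := by
      change dv v (fun _ => (1:ℂ)) z = 0
      rw [cdv_const]
    have e1 : ∀ i, dv v (F (some i)) z = v i := by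
      intro i
      change dv v (fun w : Aff n => w i) z = v i
      rw [cdv_coord]
    rw [e0]
    simp [e1]
  have h2 : ∑ o, conj (F o z) * dv v (F o) z = ∑ i : Fin n, conj (z i) * v i := by
    rw [Fintype.sum_option]
    have e0 : dv v (F none) z = 0 := by
      change dv v (fun _ => (1:ℂ)) z = 0
      rw [cdv_const]
    have e1 : ∀ i, dv v (F (some i)) z = v i := by
      intro i
      change dv v (fun w : Aff n => w i) z = v i
      rw [cdv_coord]
    rw [e0]
    simp only [e1, mul_zero, zero_add]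
    rfl
  rw [h1, h2]
  have h3 := cauchy_schwarz (fun i : Fin n => z i) (fun i => v i)
  rw [← EuclideanSpace.norm_sq_eq, ← EuclideanSpace.norm_sq_eq] at h3
  apply div_le_div_of_nonneg_right _ (by positivity)
  nlinarith

/-- a smooth cutoff, `1` for `‖z‖ ≤ 0.6 r`, `-1` for `‖z‖ ≥ 0.9 r` -/
noncomputable def cutoff (r : ℝ) (z : Aff n) : ℝ :=
  1 - 2 * Real.smoothTransition ((nrm2 z - (0.6 * r) ^ 2) / ((0.9 * r) ^ 2 - (0.6 * r) ^ 2))

lemma cutoff_inner {r : ℝ} (hr : 0 < r) {z : Aff n} (hz : ‖z‖ ≤ 0.6 * r) : cutoff r z = 1 := by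
  unfold cutoff
  rw [Real.smoothTransition.zero_of_nonpos]
  · ring
  · apply div_nonpos_of_nonpos_of_nonneg
    · rw [nrm2_eq]
      have : ‖z‖ ^ 2 ≤ (0.6 * r) ^ 2 := by gcongr
      linarith
    · nlinarith

lemma cutoff_outer {r : ℝ} (hr : 0 < r) {z : Aff n} (hz : 0.9 * r ≤ ‖z‖) : cutoff r z = -1 := by
  unfold cutoff
  rw [Real.smoothTransition.one_of_one_le]
  · ring
  · rw [one_le_div (by nlinarith), nrm2_eq]
    have : (0.9 * r) ^ 2 ≤ ‖z‖ ^ 2 := by gcongr
    linarith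

lemma abs_cutoff_le (r : ℝ) (z : Aff n) : |cutoff r z| ≤ 1 := by
  unfold cutoff
  rw [abs_le]
  constructor
  · linarith [Real.smoothTransition.le_one ((nrm2 z - (0.6 * r) ^ 2) / ((0.9 * r) ^ 2 - (0.6 * r) ^ 2))]
  · linarith [Real.smoothTransition.nonneg ((nrm2 z - (0.6 * r) ^ 2) / ((0.9 * r) ^ 2 - (0.6 * r) ^ 2))]

lemma exists_cutoff_psh {r : ℝ} (hr : 0 < r) :
    ∃ σ : ℝ, 0 < σ ∧ SPsh (fun z : Aff n => fsPot z + σ * cutoff r z) := by
  set A : ℝ := (0.9 * r) ^ 2 - (0.6 * r) ^ 2 with hA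
  set φ : ℝ → ℝ := fun t => 1 - 2 * Real.smoothTransition ((t - (0.6 * r) ^ 2) / A) with hφ
  have hst : ContDiff ℝ ∞ Real.smoothTransition := Real.smoothTransition.contDiff
  have hφs : ContDiff ℝ ∞ φ := by
    apply contDiff_const.sub
    apply contDiff_const.mul
    apply hst.comp
    exact (contDiff_id.sub contDiff_const).div_const A
  have hφ1 : ContDiff ℝ ∞ (deriv φ) := (contDiff_infty_iff_deriv.1 hφs).2
  have hφ2 : ContDiff ℝ ∞ (deriv (deriv φ)) := (contDiff_infty_iff_deriv.1 hφ1).2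
  have hcut : (cutoff r : Aff n → ℝ) = fun z => φ (nrm2 z) := rfl
  have hcuts : ContDiff ℝ ∞ (cutoff r : Aff n → ℝ) := by
    rw [hcut]; exact hφs.comp nrm2_contDiff
  obtain ⟨C1, hC1⟩ := (isCompact_Icc (a := (0:ℝ)) (b := r ^ 2)).exists_bound_of_continuousOn
    hφ1.continuous.continuousOn
  obtain ⟨C2, hC2⟩ := (isCompact_Icc (a := (0:ℝ)) (b := r ^ 2)).exists_bound_of_continuousOn
    hφ2.continuous.continuousOn
  have h0mem : (0:ℝ) ∈ Icc (0:ℝ) (r ^ 2) := ⟨le_rfl, by positivity⟩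
  have hC1n : 0 ≤ C1 := (norm_nonneg _).trans (hC1 0 h0mem)
  have hC2n : 0 ≤ C2 := (norm_nonneg _).trans (hC2 0 h0mem)
  set C : ℝ := 4 * C1 + 4 * C2 * r ^ 2 + 1 with hC
  have hCpos : 0 < C := by positivity
  set σ : ℝ := 2 / ((1 + r ^ 2) ^ 2 * C) with hσ
  have hσpos : 0 < σ := by positivity
  refine ⟨σ, hσpos, ?_⟩
  have hρ := (spsh_fsPot (n := n))
  refine ⟨hρ.smooth.add (contDiff_const.mul hcuts), fun z v => ?_⟩
  rw [lap_add hρ.smooth (contDiff_const.mul hcuts), lap_const_mul hcuts]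
  have hlb := lap_fsPot_ge z v
  rcases lt_or_ge ‖z‖ r with hz | hz
  · -- inside
    have hz2 : ‖z‖ ^ 2 ≤ r ^ 2 := by gcongr
    have hmem : nrm2 z ∈ Icc (0:ℝ) (r ^ 2) := by rw [nrm2_eq]; exact ⟨by positivity, hz2⟩
    have h1 := hC1 _ hmem
    have h2 := hC2 _ hmem
    rw [Real.norm_eq_abs] at h1 h2
    have hl : |lap (cutoff r) z v| ≤ C * ‖v‖ ^ 2 := by
      rw [hcut, lap_comp hφs nrm2_contDiff, lap_nrm2]
      have h3 := dv_nrm2_sq z v
      have h4 : 0 ≤ dv v nrm2 z ^ 2 + dv (I • v) nrm2 z ^ 2 := by positivity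
      have h5 : ‖z‖ ^ 2 * ‖v‖ ^ 2 ≤ r ^ 2 * ‖v‖ ^ 2 := by gcongr
      calc |deriv φ (nrm2 z) * (4 * ‖v‖ ^ 2) +
            deriv (deriv φ) (nrm2 z) * (dv v nrm2 z ^ 2 + dv (I • v) nrm2 z ^ 2)|
          ≤ |deriv φ (nrm2 z) * (4 * ‖v‖ ^ 2)| +
            |deriv (deriv φ) (nrm2 z) * (dv v nrm2 z ^ 2 + dv (I • v) nrm2 z ^ 2)| := abs_add_le _ _
      _ = |deriv φ (nrm2 z)| * (4 * ‖v‖ ^ 2) +
            |deriv (deriv φ) (nrm2 z)| * (dv v nrm2 z ^ 2 + dv (I • v) nrm2 z ^ 2) := by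
          rw [abs_mul (deriv φ (nrm2 z)), abs_mul (deriv (deriv φ) (nrm2 z)), abs_of_nonneg h4,
            abs_of_nonneg (by positivity : 0 ≤ 4 * ‖v‖ ^ 2)]
      _ ≤ C1 * (4 * ‖v‖ ^ 2) + C2 * (4 * (r ^ 2 * ‖v‖ ^ 2)) := by
          gcongr
          linarith
      _ ≤ C * ‖v‖ ^ 2 := by
          rw [hC]; nlinarith [sq_nonneg ‖v‖]
    have h6 : σ * lap (cutoff r) z v ≥ - (2 * ‖v‖ ^ 2 / (1 + r ^ 2) ^ 2) := by
      have h7 := (abs_le.1 hl).1
      have h8 : σ * (-(C * ‖v‖ ^ 2)) ≤ σ * lap (cutoff r) z v := by gcongr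
      have h9 : σ * (-(C * ‖v‖ ^ 2)) = - (2 * ‖v‖ ^ 2 / (1 + r ^ 2) ^ 2) := by
        rw [hσ]; field_simp
      linarith
    have h10 : 2 * ‖v‖ ^ 2 / (1 + r ^ 2) ^ 2 ≤ 2 * ‖v‖ ^ 2 / (1 + ‖z‖ ^ 2) ^ 2 := by
      gcongr
    linarith
  · -- outside: the cutoff is constant near z
    have hloc : (cutoff r : Aff n → ℝ) =ᶠ[𝓝 z] fun _ => (-1:ℝ) := by
      have ho : IsOpen {w : Aff n | 0.9 * r < ‖w‖} := isOpen_lt continuous_const continuous_norm
      have hzm : z ∈ {w : Aff n | 0.9 * r < ‖w‖} := by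
        simp only [mem_ofPred_eq]; nlinarith
      filter_upwards [ho.mem_nhds hzm] with w hw
      exact cutoff_outer hr (le_of_lt hw)
    rw [lap_congr hloc, lap_const, mul_zero, add_zero]
    exact hρ.lap_nonneg z v

/-- monotonicity of the Monge-Ampère density under adding a psh function -/
lemma det_levi_combo {a b : Aff n → ℝ} (ha : SPsh a) (hb : SPsh b) {s : ℝ} (hs0 : 0 ≤ s)
    (hs1 : s ≤ 1) (z : Aff n) :
    (1 - s) ^ n * (levi a z).det.re ≤ (levi (fun w => (1 - s) * a w + s * b w) z).det.re := by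
  have h1 : SPsh (fun w => (1 - s) * a w) := ha.const_mul (by linarith)
  have h2 : SPsh (fun w => s * b w) := hb.const_mul hs0
  rw [levi_add h1.smooth h2.smooth]
  have h3 := det_le_det_add (h1.posSemidef z) (h2.posSemidef z)
  refine le_trans (le_of_eq ?_) h3
  have := det_levi_scale ha.smooth (1 - s) 0 z
  simp only [add_zero] at this
  rw [this]

lemma maLoc_combo {a b : Aff n → ℝ} (ha : SPsh a) (hb : SPsh b) {s : ℝ} (hs0 : 0 ≤ s)
    (hs1 : s ≤ 1) {S : Set (Aff n)} (hS : MeasurableSet S) :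
    ENNReal.ofReal ((1 - s) ^ n) * maLoc a S ≤ maLoc (fun w => (1 - s) * a w + s * b w) S := by
  rw [maLoc_apply _ hS, maLoc_apply _ hS, ← lintegral_const_mul' _ _ ENNReal.ofReal_ne_top]
  apply lintegral_mono
  intro z
  simp only
  rw [← ENNReal.ofReal_mul (pow_nonneg (by linarith) n)]
  exact ENNReal.ofReal_le_ofReal (det_levi_combo ha hb hs0 hs1 z)

/-- The mass estimate obtained by gluing. -/
theorem glue_mass {r σ : ℝ} (hr : 0 < r) (hσ : 0 < σ)
    (hθ : SPsh (fun z : Aff n => fsPot z + σ * cutoff r z))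
    {u v : Aff n → ℝ} (hu : SPsh u) (hv : SPsh v) {K : ℝ}
    (huK : ∀ z, |u z - fsPot z| ≤ K) (hvK : ∀ z, |v z - fsPot z| ≤ K)
    {s : ℝ} (hs0 : 0 < s) (hs1 : s ≤ 1)
    (hclose : ∀ z, 0.5 * r ≤ ‖z‖ → |v z - u z| ≤ s * σ / 4) :
    ENNReal.ofReal ((1 - s) ^ n) * (maLoc u {z | r ≤ ‖z‖} + maLoc v {z | ‖z‖ < 0.5 * r})
      ≤ maLoc (fsPot : Aff n → ℝ) univ := by
  have hρ := (spsh_fsPot (n := n))
  set u' : Aff n → ℝ := fun z => (1 - s) * u z + s * fsPot z with hu'
  set v' : Aff n → ℝ := fun z => (1 - s) * v z + s * (fsPot z + σ * cutoff r z) with hv'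
  have hu's : SPsh u' := (hu.const_mul (by linarith)).add (hρ.const_mul hs0.le)
  have hv's : SPsh v' := (hv.const_mul (by linarith)).add (hθ.const_mul hs0.le)
  set τ : ℝ := s * σ / 4 with hτ
  have hτpos : 0 < τ := by positivity
  have hdiff : ∀ z, v' z - u' z = (1 - s) * (v z - u z) + s * σ * cutoff r z := by
    intro z; simp only [hu', hv']; ring
  have hR := SPsh.rmax hτpos hu's hv's
  have hin : ∀ z, 0.5 * r ≤ ‖z‖ → ‖z‖ ≤ 0.6 * r → rmax τ u' v' z = v' z := by
    intro z h1 h2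
    apply rmax_eq_right hτpos
    rw [hdiff, cutoff_inner hr h2]
    have h3 := abs_le.1 (hclose z h1)
    have h4 : -(τ) ≤ (1 - s) * (v z - u z) := by
      have : (1 - s) * (v z - u z) ≥ (1 - s) * (-τ) := by
        apply mul_le_mul_of_nonneg_left _ (by linarith)
        linarith [h3.1]
      nlinarith
    nlinarith
  have hout : ∀ z, 0.9 * r ≤ ‖z‖ → rmax τ u' v' z = u' z + τ * hreg 0 := by
    intro z h1
    apply rmax_eq_left hτpos
    rw [hdiff, cutoff_outer hr h1]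
    have h3 := abs_le.1 (hclose z (by linarith))
    have h4 : (1 - s) * (v z - u z) ≤ τ := by
      have : (1 - s) * (v z - u z) ≤ (1 - s) * τ := by
        apply mul_le_mul_of_nonneg_left _ (by linarith)
        linarith [h3.2]
      nlinarith
    nlinarith
  -- the glued function
  set W : Aff n → ℝ := fun z => if ‖z‖ < 0.55 * r then v' z else rmax τ u' v' z with hW
  have hWin : ∀ z, ‖z‖ < 0.6 * r → W =ᶠ[𝓝 z] v' := by
    intro z hz
    have ho : IsOpen {w : Aff n | ‖w‖ < 0.6 * r} := isOpen_lt continuous_norm continuous_const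
    filter_upwards [ho.mem_nhds hz] with w hw
    simp only [hW]
    split_ifs with h
    · rfl
    · push Not at h
      exact hin w (by linarith) (le_of_lt hw)
  have hWout : ∀ z, 0.5 * r < ‖z‖ → W =ᶠ[𝓝 z] rmax τ u' v' := by
    intro z hz
    have ho : IsOpen {w : Aff n | 0.5 * r < ‖w‖} := isOpen_lt continuous_const continuous_norm
    filter_upwards [ho.mem_nhds hz] with w hw
    simp only [hW]
    split_ifs with h
    · exact (hin w (le_of_lt hw) (by linarith)).symm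
    · rfl
  have hWs : SPsh W := by
    refine ⟨?_, fun z v => ?_⟩
    · rw [contDiff_iff_contDiffAt]
      intro z
      rcases lt_or_ge ‖z‖ (0.6 * r) with h | h
      · exact (hv's.smooth.contDiffAt).congr_of_eventuallyEq (hWin z h)
      · exact (hR.smooth.contDiffAt).congr_of_eventuallyEq (hWout z (by linarith))
    · rcases lt_or_ge ‖z‖ (0.6 * r) with h | h
      · rw [lap_congr (hWin z h)]; exact hv's.lap_nonneg z v
      · rw [lap_congr (hWout z (by linarith))]; exact hR.lap_nonneg z v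
  have hu'K : ∀ z, |u' z - fsPot z| ≤ K := by
    intro z
    have e : u' z - fsPot z = (1 - s) * (u z - fsPot z) := by simp only [hu']; ring
    rw [e, abs_mul, abs_of_nonneg (by linarith : (0:ℝ) ≤ 1 - s)]
    have := huK z
    have h0 : 0 ≤ |u z - fsPot z| := abs_nonneg _
    nlinarith
  have hv'K : ∀ z, |v' z - fsPot z| ≤ K + s * σ := by
    intro z
    have e : v' z - fsPot z = (1 - s) * (v z - fsPot z) + s * σ * cutoff r z := by
      simp only [hv']; ring
    rw [e]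
    refine (abs_add_le _ _).trans ?_
    rw [abs_mul, abs_mul, abs_of_nonneg (by linarith : (0:ℝ) ≤ 1 - s),
      abs_of_nonneg (by positivity : (0:ℝ) ≤ s * σ)]
    have h1 := hvK z
    have h2 := abs_cutoff_le r z
    have h0 : 0 ≤ |v z - fsPot z| := abs_nonneg _
    have h3 : s * σ * |cutoff r z| ≤ s * σ * 1 := by gcongr
    nlinarith
  have hK0 : 0 ≤ K := (abs_nonneg _).trans (huK 0)
  have hWK : ∀ z, |W z - fsPot z| ≤ 3 * K + 2 * (s * σ) := by
    intro z
    have h1 := abs_le.1 (hu'K z)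
    have h2 := abs_le.1 (hv'K z)
    have hsσ : 0 < s * σ := by positivity
    simp only [hW]
    split_ifs with h
    · rw [abs_le]; constructor <;> linarith [h2.1, h2.2]
    · unfold rmax
      have h3 := hreg_nonneg (τ⁻¹ * (v' z - u' z))
      have h4 := hreg_le_max (τ⁻¹ * (v' z - u' z))
      have h5 : τ * hreg (τ⁻¹ * (v' z - u' z)) ≤ max (v' z - u' z) τ := by
        calc τ * hreg (τ⁻¹ * (v' z - u' z)) ≤ τ * max (τ⁻¹ * (v' z - u' z)) 1 := by gcongr
        _ = max (v' z - u' z) τ := by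
            rw [mul_max_of_nonneg _ _ hτpos.le, mul_one, ← mul_assoc, mul_inv_cancel₀ hτpos.ne',
              one_mul]
      have h6 : 0 ≤ τ * hreg (τ⁻¹ * (v' z - u' z)) := by positivity
      have h7 : max (v' z - u' z) τ ≤ 2 * K + s * σ := by
        apply max_le
        · linarith [h1.1, h1.2, h2.1, h2.2]
        · rw [hτ]; linarith
      rw [abs_le]; constructor <;> linarith [h1.1, h1.2]
  have hρK : ∀ z : Aff n, |fsPot z - fsPot z| ≤ 3 * K + 2 * (s * σ) := by
    intro z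
    rw [sub_self, abs_zero]; positivity
  have htot := maLoc_univ_eq hWs hρ (3 * K + 2 * (s * σ)) hWK hρK
  -- estimates on the two pieces
  have hm1 : MeasurableSet {z : Aff n | r ≤ ‖z‖} := (isClosed_le continuous_const continuous_norm).measurableSet
  have hm2 : MeasurableSet {z : Aff n | ‖z‖ < 0.5 * r} := (isOpen_lt continuous_norm continuous_const).measurableSet
  have p1 : ENNReal.ofReal ((1 - s) ^ n) * maLoc u {z | r ≤ ‖z‖} ≤ maLoc W {z | r ≤ ‖z‖} := by
    have e : maLoc W {z | r ≤ ‖z‖} = maLoc u' {z | r ≤ ‖z‖} := by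
      refine maLoc_congr hm1 fun z hz => ?_
      have hz' : r ≤ ‖z‖ := hz
      have hloc : W =ᶠ[𝓝 z] fun w => 1 * u' w + τ * hreg 0 := by
        have ho : IsOpen {w : Aff n | 0.9 * r < ‖w‖} := isOpen_lt continuous_const continuous_norm
        have hzm : z ∈ {w : Aff n | 0.9 * r < ‖w‖} := by
          simp only [mem_ofPred_eq]; nlinarith
        filter_upwards [ho.mem_nhds hzm, hWout z (by linarith)] with w hw hw2
        rw [hw2, hout w (le_of_lt hw), one_mul]
      rw [levi_congr hloc, levi_scale hu's.smooth]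
      simp
    rw [e]
    exact maLoc_combo hu hρ hs0.le hs1 hm1
  have p2 : ENNReal.ofReal ((1 - s) ^ n) * maLoc v {z | ‖z‖ < 0.5 * r} ≤
      maLoc W {z | ‖z‖ < 0.5 * r} := by
    have e : maLoc W {z | ‖z‖ < 0.5 * r} = maLoc v' {z | ‖z‖ < 0.5 * r} := by
      refine maLoc_congr hm2 fun z hz => ?_
      have hz' : ‖z‖ < 0.5 * r := hz
      exact levi_congr (hWin z (by linarith))
    rw [e]
    exact maLoc_combo hv hθ hs0.le hs1 hm2
  have hdisj : Disjoint {z : Aff n | r ≤ ‖z‖} {z : Aff n | ‖z‖ < 0.5 * r} := by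
    rw [Set.disjoint_left]
    intro z h1 h2
    simp only [mem_ofPred_eq] at h1 h2
    linarith
  calc ENNReal.ofReal ((1 - s) ^ n) * (maLoc u {z | r ≤ ‖z‖} + maLoc v {z | ‖z‖ < 0.5 * r})
      = ENNReal.ofReal ((1 - s) ^ n) * maLoc u {z | r ≤ ‖z‖} +
        ENNReal.ofReal ((1 - s) ^ n) * maLoc v {z | ‖z‖ < 0.5 * r} := by rw [mul_add]
  _ ≤ maLoc W {z | r ≤ ‖z‖} + maLoc W {z | ‖z‖ < 0.5 * r} := add_le_add p1 p2
  _ = maLoc W ({z | r ≤ ‖z‖} ∪ {z | ‖z‖ < 0.5 * r}) := (measure_union hdisj hm2).symm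
  _ ≤ maLoc W univ := measure_mono (subset_univ _)
  _ = maLoc (fsPot : Aff n → ℝ) univ := htot

end Pool.Agent.H36
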