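import Mathlib

/-!
# Definitions: quasi-plurisubharmonic Green functions on complex projective space

Everything here is standard; it is spelled out because Mathlib has no plurisubharmonic functions,
no smooth structure on projective space and no Monge-Ampère operators.

Normalisations (as in the problem file): `dd^c log|z| = δ₀` on `ℂ`, i.e. `dd^c = (i/π) ∂∂̄`, and
`ω` is the Fubini-Study form in the hyperplane class, `ω = dd^c (½ log (1+|z|²))` in every
standard affine chart, `∫ ωⁿ = 1`.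
-/

open MeasureTheory Filter Topology Complex
open scoped LinearAlgebra.Projectivization ContDiff

namespace Pool.Agent.H36

/-! ### Complex analysis on `ℂⁿ` -/

/-- `ℂⁿ` with its Euclidean norm. -/
abbrev Aff (n : ℕ) : Type := EuclideanSpace ℂ (Fin n)

/-- The `j`-th standard basis vector of `ℂⁿ`. -/
noncomputable def bas {n : ℕ} (j : Fin n) : Aff n := EuclideanSpace.single j (1 : ℂ)

/-- `∂f/∂z_j = (∂f/∂x_j - i ∂f/∂y_j)/2`. -/
noncomputable def dz {n : ℕ} (j : Fin n) (f : Aff n → ℂ) (z : Aff n) : ℂ :=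
  (fderiv ℝ f z (bas j) - I * fderiv ℝ f z (I • bas j)) / 2

/-- `∂f/∂z̄_j = (∂f/∂x_j + i ∂f/∂y_j)/2`. -/
noncomputable def dzb {n : ℕ} (j : Fin n) (f : Aff n → ℂ) (z : Aff n) : ℂ :=
  (fderiv ℝ f z (bas j) + I * fderiv ℝ f z (I • bas j)) / 2

/-- The complex Hessian `(∂²u/∂z_j∂z̄_k)` of a real function. -/
noncomputable def levi {n : ℕ} (u : Aff n → ℝ) (z : Aff n) : Matrix (Fin n) (Fin n) ℂ :=
  Matrix.of fun j k => dz j (dzb k fun w => (u w : ℂ)) z

/-- Plurisubharmonic functions `ℂⁿ → [-∞, ∞)`: upper semicontinuous, and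
`u(z) ≤ (1/2π) ∫₀^{2π} u(z + e^{iθ} w) dθ` for all `z, w ∈ ℂⁿ`. The integral of the function
`u < ∞`, which may take the value `-∞`, is expressed through the truncations `max(u, M)`, `M ∈ ℝ`
(`∫ u = inf_M ∫ max(u, M)` by monotone convergence). -/
structure PSH {n : ℕ} (u : Aff n → EReal) : Prop where
  usc : UpperSemicontinuous u
  lt_top : ∀ z, u z < ⊤
  submean : ∀ (z w : Aff n) (M : ℝ), u z ≤
    ((Real.circleAverage (fun ζ : ℂ => (max (u (z + ζ • w)) (M : EReal)).toReal) 0 1 : ℝ) : EReal)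

/-! ### Projective space -/

/-- Complex projective space `ℂℙⁿ`. -/
def CP (n : ℕ) : Type := ℙ ℂ (Aff (n + 1))

/-- The point `[Z]` with homogeneous coordinates `Z ≠ 0`. -/
noncomputable def CP.mk {n : ℕ} (Z : {Z : Aff (n + 1) // Z ≠ 0}) : CP n := Projectivization.mk' ℂ Z

/-- The quotient topology of `ℂⁿ⁺¹ ∖ {0}`. -/
noncomputable instance (n : ℕ) : TopologicalSpace (CP n) :=
  TopologicalSpace.coinduced (CP.mk (n := n)) instTopologicalSpaceSubtype

noncomputable instance (n : ℕ) : MeasurableSpace (CP n) := borel (CP n)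

instance (n : ℕ) : BorelSpace (CP n) := ⟨rfl⟩

/-- `(z_1, …, z_n) ↦ (z_1, …, 1, …, z_n) ∈ ℂⁿ⁺¹` with `1` at place `i`. -/
noncomputable def homog {n : ℕ} (i : Fin (n + 1)) (z : Aff n) : Aff (n + 1) :=
  WithLp.toLp 2 (i.insertNth (1 : ℂ) z.ofLp)

lemma homog_self {n : ℕ} (i : Fin (n + 1)) (z : Aff n) : homog i z i = 1 := by
  simp [homog]

lemma homog_ne_zero {n : ℕ} (i : Fin (n + 1)) (z : Aff n) : homog i z ≠ 0 := by
  intro h
  have h1 := homog_self i z
  rw [h] at h1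
  simp at h1

/-- The `i`-th affine chart `ℂⁿ → ℂℙⁿ`, onto the set of points `[Z]` with `Z_i ≠ 0`. -/
noncomputable def chart {n : ℕ} (i : Fin (n + 1)) (z : Aff n) : CP n :=
  CP.mk ⟨homog i z, homog_ne_zero i z⟩

/-- The potential `½ log (1+|z|²)` of the Fubini-Study form `ω` in every affine chart. -/
noncomputable def fsPot {n : ℕ} (z : Aff n) : ℝ := (1 / 2) * Real.log (1 + ‖z‖ ^ 2)

/-- Smooth (`C^∞`) real functions on `ℂℙⁿ`: smooth in every affine chart. -/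
def SmoothCP {n : ℕ} (φ : CP n → ℝ) : Prop := ∀ i, ContDiff ℝ ∞ fun z : Aff n => φ (chart i z)

/-- `PSH(ℂℙⁿ, ω)`: upper semicontinuous functions `φ : ℂℙⁿ → [-∞, ∞)`, not identically `-∞`, with
`ω + dd^c φ ≥ 0`, that is, `½ log (1+|z|²) + φ` is plurisubharmonic in every affine chart. -/
structure OmegaPSH {n : ℕ} (φ : CP n → EReal) : Prop where
  usc : UpperSemicontinuous φ
  ne_bot : ∃ x, φ x ≠ ⊥
  psh : ∀ i, PSH fun z : Aff n => φ (chart i z) + (fsPot z : EReal)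

/-- Smooth `ω`-psh functions. -/
def SmoothOmegaPSH {n : ℕ} (φ : CP n → ℝ) : Prop :=
  SmoothCP φ ∧ OmegaPSH fun x => (φ x : EReal)

/-- The Monge-Ampère measure `(ω + dd^c φ)ⁿ` of a smooth `ω`-psh function: in an affine chart it is
`(dd^c u)ⁿ = n! (2/π)ⁿ det(∂²u/∂z_j∂z̄_k) dλ` with `u = φ + ½ log (1+|z|²)`; the chart `Z_0 ≠ 0`
is used, its complement (a hyperplane) being a null set for the smooth form `(ω + dd^c φ)ⁿ`. -/
noncomputable def maSmooth {n : ℕ} (φ : CP n → ℝ) : Measure (CP n) :=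
  (volume.withDensity fun z : Aff n => ENNReal.ofReal
    (n.factorial * (2 / Real.pi) ^ n *
      (levi (fun w => φ (chart 0 w) + fsPot w) z).det.re)).map (chart 0)

/-- `HasMA φ μ`: `φ ∈ DMA(ℂℙⁿ, ω)` and `MA(φ) = μ`. That is, `φ` is `ω`-psh, `μ` is a finite Borel
measure, and `(ω + dd^c ψ_j)ⁿ → μ` weakly for every sequence of smooth `ω`-psh functions `ψ_j`
decreasing to `φ`. -/
structure HasMA {n : ℕ} (φ : CP n → EReal) (μ : Measure (CP n)) : Prop where
  psh : OmegaPSH φ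
  finite : IsFiniteMeasure μ
  conv : ∀ ψ : ℕ → CP n → ℝ, (∀ j, SmoothOmegaPSH (ψ j)) → (∀ x, Antitone fun j => ψ j x) →
    (∀ x, Tendsto (fun j => (ψ j x : EReal)) atTop (𝓝 (φ x))) →
    ∀ χ : C(CP n, ℝ), Tendsto (fun j => ∫ x, χ x ∂(maSmooth (ψ j))) atTop (𝓝 (∫ x, χ x ∂μ))

/-- `ω`-psh Green functions with pole at `a`: `G ∈ DMA(ℂℙⁿ, ω)` with `MA(G) = δ_a`. -/
def IsGreen {n : ℕ} (G : CP n → EReal) (a : CP n) : Prop := HasMA G (Measure.dirac a)

/-- `HasLelong φ a ν`: the Lelong number of `φ` at `a` is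
`ν = sup {γ ≥ 0 : φ(z) ≤ γ log|z-a| + O(1) near a}` (computed in the affine charts). -/
def HasLelong {n : ℕ} (φ : CP n → EReal) (a : CP n) (ν : ℝ) : Prop :=
  IsLUB {γ : ℝ | 0 ≤ γ ∧ ∀ (i : Fin (n + 1)) (b : Aff n), chart i b = a →
    ∃ C : ℝ, ∀ᶠ z in 𝓝[≠] b, φ (chart i z) ≤ ((γ * Real.log ‖z - b‖ + C : ℝ) : EReal)} ν

end Pool.Agent.H36
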