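import Pool.Agent.H36.Wirt

/-! Compactly supported perturbations do not change the Monge-Ampère mass; the Levi matrix of real
functions. -/

open MeasureTheory Filter Topology Complex
open scoped ContDiff

namespace Pool.Agent.H36

variable {n : ℕ}

lemma coe_contDiff {u : Aff n → ℝ} (hu : ContDiff ℝ ∞ u) : ContDiff ℝ ∞ (fun w => (u w : ℂ)) :=
  Complex.ofRealCLM.contDiff.comp hu

lemma levi_eq (u : Aff n → ℝ) (z : Aff n) :
    levi u z = Matrix.of fun j k => wd (-I) j (wd I k fun w => (u w : ℂ)) z := by
  unfold levi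
  simp_rw [dz_eq_wd, dzb_eq_wd]

lemma levi_eq' {u : Aff n → ℝ} (hu : ContDiff ℝ ∞ u) (z : Aff n) :
    levi u z = Matrix.of fun j k => wd I k (wd (-I) j fun w => (u w : ℂ)) z := by
  rw [levi_eq]
  ext j k
  simp only [Matrix.of_apply]
  rw [wd_comm (coe_contDiff hu)]

lemma wd_add {f g : Aff n → ℂ} (hf : ContDiff ℝ ∞ f) (hg : ContDiff ℝ ∞ g) (c : ℂ) (j : Fin n) :
    wd c j (fun w => f w + g w) = fun z => wd c j f z + wd c j g z := by
  funext z
  have h : ∀ v : Aff n, dv v (fun w => f w + g w) z = dv v f z + dv v g z := by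
    intro v
    unfold dv
    have := ((diffAt hf z).hasFDerivAt.add (diffAt hg z).hasFDerivAt).fderiv
    have e : (fun w => f w + g w) = f + g := rfl
    rw [e, this]
    simp
  unfold wd
  rw [h, h]
  ring

lemma wd_const_mul {f : Aff n → ℂ} (hf : ContDiff ℝ ∞ f) (a c : ℂ) (j : Fin n) :
    wd c j (fun w => a * f w) = fun z => a * wd c j f z := by
  funext z
  have h : ∀ v : Aff n, dv v (fun w => a * f w) z = a * dv v f z := by
    intro v
    unfold dv
    rw [((diffAt hf z).hasFDerivAt.const_mul a).fderiv]
    simp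
  unfold wd
  rw [h, h]
  ring

lemma wd_const (a c : ℂ) (j : Fin n) : wd c j (fun _ => a) = fun _ => 0 := by
  funext z
  simp [wd, dv]

lemma levi_add {u g : Aff n → ℝ} (hu : ContDiff ℝ ∞ u) (hg : ContDiff ℝ ∞ g) (z : Aff n) :
    levi (fun w => u w + g w) z = levi u z + levi g z := by
  rw [levi_eq, levi_eq, levi_eq]
  ext j k
  simp only [Matrix.of_apply, Matrix.add_apply]
  push_cast
  rw [wd_add (coe_contDiff hu) (coe_contDiff hg),
    wd_add (wd_contDiff (coe_contDiff hu) _ _) (wd_contDiff (coe_contDiff hg) _ _)]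

lemma levi_const_mul {u : Aff n → ℝ} (hu : ContDiff ℝ ∞ u) (a : ℝ) (z : Aff n) :
    levi (fun w => a * u w) z = (a : ℂ) • levi u z := by
  rw [levi_eq, levi_eq]
  ext j k
  simp only [Matrix.of_apply, Matrix.smul_apply, smul_eq_mul]
  push_cast
  rw [wd_const_mul (coe_contDiff hu), wd_const_mul (wd_contDiff (coe_contDiff hu) _ _)]

lemma levi_const (a : ℝ) (z : Aff n) : levi (fun _ => a) z = 0 := by
  rw [levi_eq]
  ext j k
  simp only [Matrix.of_apply, Matrix.zero_apply]
  rw [wd_const, wd_const]

/-- the Levi matrix only depends on the germ -/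
lemma levi_congr {u v : Aff n → ℝ} {z : Aff n} (h : u =ᶠ[𝓝 z] v) : levi u z = levi v z := by
  have h1 : ∀ (c : ℂ) (k : Fin n) (f g : Aff n → ℂ) (w : Aff n), f =ᶠ[𝓝 w] g → wd c k f w = wd c k g w := by
    intro c k f g w hfg
    unfold wd dv
    rw [hfg.fderiv_eq]
  rw [levi_eq, levi_eq]
  ext j k
  simp only [Matrix.of_apply]
  apply h1
  have h2 : ∀ᶠ w in 𝓝 z, (fun w => (u w : ℂ)) =ᶠ[𝓝 w] (fun w => (v w : ℂ)) := by
    have := h.eventuallyEq_nhds
    filter_upwards [this] with w hw
    exact hw.fun_comp (fun x : ℝ => (x : ℂ))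
  filter_upwards [h2] with w hw
  exact h1 _ _ _ _ _ hw

lemma levi_continuous {u : Aff n → ℝ} (hu : ContDiff ℝ ∞ u) : Continuous (levi u) := by
  have : levi u = fun z => Matrix.of fun j k => wd (-I) j (wd I k fun w => (u w : ℂ)) z := by
    funext z; exact levi_eq u z
  rw [this]
  refine continuous_matrix fun j k => ?_
  exact (wd_contDiff (wd_contDiff (coe_contDiff hu) _ _) _ _).continuous

lemma det_levi_continuous {u : Aff n → ℝ} (hu : ContDiff ℝ ∞ u) :
    Continuous fun z => (levi u z).det := (levi_continuous hu).matrix_det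

/-- Adding a compactly supported function does not change the total mass. -/
theorem integral_det_levi_add {u g : Aff n → ℝ} (hu : ContDiff ℝ ∞ u) (hg : ContDiff ℝ ∞ g)
    (hc : HasCompactSupport g) :
    ∫ z, ((levi (fun w => u w + g w) z).det - (levi u z).det) = 0 := by
  classical
  set U : Aff n → ℂ := fun w => (u w : ℂ) with hU
  set G : Aff n → ℂ := fun w => (g w : ℂ) with hG
  have hUs : ContDiff ℝ ∞ U := coe_contDiff hu
  have hGs : ContDiff ℝ ∞ G := coe_contDiff hg
  have hGc : HasCompactSupport G := by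
    apply hc.mono
    intro z hz
    simp only [hG, Function.mem_support, ne_eq, ofReal_eq_zero] at hz ⊢
    exact hz
  let F : Finset (Fin n) → Fin n → Aff n → ℂ := fun s l =>
    if l ∈ s then wd (-I) l G else wd (-I) l U
  have hF : ∀ s l, ContDiff ℝ ∞ (F s l) := by
    intro s l
    simp only [F]
    split_ifs
    · exact wd_contDiff hGs _ _
    · exact wd_contDiff hUs _ _
  have hexp : ∀ z, (levi (fun w => u w + g w) z).det =
      ∑ s : Finset (Fin n), (Matrix.of fun l k => wd I k (F s l) z).det := by
    intro z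
    rw [levi_add hu hg, add_comm]
    have h1 := (Matrix.detRowAlternating (R := ℂ) (n := Fin n)).toMultilinearMap.map_add_univ
      (levi g z) (levi u z)
    have h2 : (levi g z + levi u z).det =
        (Matrix.detRowAlternating (R := ℂ) (n := Fin n)).toMultilinearMap (levi g z + levi u z) := rfl
    rw [h2]
    rw [show (Matrix.detRowAlternating (R := ℂ) (n := Fin n)).toMultilinearMap (levi g z + levi u z)
      = _ from h1]
    refine Finset.sum_congr rfl fun s _ => ?_
    change Matrix.det (s.piecewise (levi g z) (levi u z)) = _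
    congr 1
    ext l k
    simp only [Matrix.of_apply, F, Finset.piecewise]
    split_ifs with hl
    · rw [levi_eq' hg]; rfl
    · rw [levi_eq' hu]; rfl
  have hempty : ∀ z, (Matrix.of fun l k => wd I k (F ∅ l) z).det = (levi u z).det := by
    intro z
    congr 1
    rw [levi_eq' hu]
    ext l k
    simp [F, hU]
  have hdiff : ∀ z, (levi (fun w => u w + g w) z).det - (levi u z).det =
      ∑ s ∈ (Finset.univ : Finset (Finset (Fin n))).erase ∅,
        (Matrix.of fun l k => wd I k (F s l) z).det := by
    intro z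
    rw [hexp z, ← hempty z, ← Finset.add_sum_erase Finset.univ
      (fun s => (Matrix.of fun l k => wd I k (F s l) z).det) (Finset.mem_univ ∅)]
    ring
  simp_rw [hdiff]
  rw [integral_finsetSum]
  · refine Finset.sum_eq_zero fun s hs => ?_
    have hne : s.Nonempty := Finset.nonempty_of_ne_empty (Finset.ne_of_mem_erase hs)
    obtain ⟨i, hi⟩ := hne
    apply integral_det_wd_eq_zero I (F s) (hF s) i
    simp only [F, hi, if_true]
    exact wd_hasCompactSupport hGc _ _
  · intro s hs
    have hne : s.Nonempty := Finset.nonempty_of_ne_empty (Finset.ne_of_mem_erase hs)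
    obtain ⟨i, hi⟩ := hne
    have hcont : Continuous fun z => (Matrix.of fun l k => wd I k (F s l) z).det := by
      apply Continuous.matrix_det
      exact continuous_matrix fun l k => (wd_contDiff (hF s l) _ _).continuous
    apply hcont.integrable_of_hasCompactSupport
    have hci : HasCompactSupport (fderiv ℝ (F s i)) := by
      have : HasCompactSupport (F s i) := by
        simp only [F, hi, if_true]
        exact wd_hasCompactSupport hGc _ _
      exact this.fderiv ℝ
    apply hci.mono
    intro z hz
    simp only [Function.mem_support, ne_eq] at hz ⊢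
    intro h0
    apply hz
    apply Matrix.det_eq_zero_of_row_eq_zero i
    intro k
    simp [wd, dv, h0]

end Pool.Agent.H36
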