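import Pool.Agent.H36.Limit

/-! The Lelong number of the limit function at its pole. -/

open MeasureTheory Filter Topology Complex Set
open scoped LinearAlgebra.Projectivization ContDiff

namespace Pool.Agent.H36

variable {m : ℕ}

lemma chart_eq_pole {n : ℕ} {i : Fin (n + 1)} {z : Aff n} (h : chart i z = chart 0 0) :
    i = 0 ∧ z = 0 := by
  obtain ⟨c, hc⟩ := CP.exists_smul_of_mk_eq (homog_ne_zero i z) (homog_ne_zero 0 0) h
  have h1 : c * (homog 0 0 : Aff (n + 1)) i = 1 := by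
    have := congrArg (fun W : Aff (n + 1) => W i) hc
    simpa [homog_self] using this
  have hi : i = 0 := by
    by_contra hne
    obtain ⟨l, rfl⟩ := Fin.exists_succ_eq_of_ne_zero hne
    rw [homog_zero_succ] at h1
    simp at h1
  subst hi
  refine ⟨rfl, ?_⟩
  rw [homog_self, mul_one] at h1
  rw [h1, one_smul] at hc
  have := congrArg (affCoord 0) hc
  rw [affCoord_homog, affCoord_homog] at this
  exact this.symm

lemma fsPot_nonneg {n : ℕ} (z : Aff n) : 0 ≤ fsPot z := by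
  unfold fsPot
  have : 0 ≤ Real.log (1 + ‖z‖ ^ 2) := Real.log_nonneg (by nlinarith [sq_nonneg ‖z‖])
  positivity

section seq

variable {b : ℕ → ℕ} {P : ℕ → Aff (m + 3) → ℂ} {δ ε : ℕ → ℝ}
  (hP0 : P 0 = fun Z => Z 1)
  (hI : ∀ k, Inv k (P k) (δ k)) (hR : ∀ k, Rel b k (P k) (δ k) (P (k + 1)) (δ (k + 1)) (ε k))
  (hb0 : b 0 = 1) (hb : ∀ k, b (k + 1) ≤ 2 * b k)

include hP0 hR hb0 hb

/-- vanishing order of `P_k` at the pole -/
lemma P_upper (k : ℕ) {z : Aff (m + 2)} (hz : ‖z‖ ≤ 1) :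
    ‖P k (homog 0 z)‖ ≤ (2 ^ (2 ^ k) - 1) * ‖z‖ ^ (b k) := by
  induction k with
  | zero =>
    rw [hP0, hb0]
    have h1 : (homog 0 z : Aff (m + 3)) 1 = z 0 := homog_zero_succ z 0
    simp only
    rw [h1]
    have := norm_coord_le z 0
    norm_num
    exact this
  | succ k ih =>
    rw [(hR k).eq]
    unfold nextP mon
    have h2 : (homog 0 z : Aff (m + 3)) 2 = z 1 := homog_zero_succ z 1
    rw [homog_self, one_pow, one_mul, h2]
    have h3 : ‖z 1‖ ≤ ‖z‖ := norm_coord_le z 1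
    have hz0 : 0 ≤ ‖z‖ := norm_nonneg z
    have h4 := (hR k).eps_pos
    have h5 := (hR k).eps_le
    have hA : (1:ℝ) ≤ 2 ^ (2 ^ k) := one_le_pow₀ (by norm_num)
    have hA2 : (2:ℝ) ≤ 2 ^ (2 ^ k) := by
      calc (2:ℝ) = 2 ^ 1 := by norm_num
      _ ≤ 2 ^ (2 ^ k) := pow_le_pow_right₀ (by norm_num) Nat.one_le_two_pow
    refine (norm_add_le _ _).trans ?_
    rw [norm_pow, norm_mul, Complex.norm_real, Real.norm_eq_abs, abs_of_pos h4, norm_pow]
    have h6 : ‖P k (homog 0 z)‖ ^ 2 ≤ ((2 ^ (2 ^ k) - 1) * ‖z‖ ^ (b k)) ^ 2 := by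
      gcongr
    have h7 : (‖z‖ ^ (b k)) ^ 2 ≤ ‖z‖ ^ (b (k + 1)) := by
      rw [← pow_mul, mul_comm]
      exact pow_le_pow_of_le_one hz0 hz (hb k)
    have h8 : ε k * ‖z 1‖ ^ b (k + 1) ≤ 1 * ‖z‖ ^ b (k + 1) := by gcongr
    have h9 : (0:ℝ) ≤ (2 ^ (2 ^ k) - 1) ^ 2 := by positivity
    have h10 : (2:ℝ) ^ (2 ^ (k + 1)) = (2 ^ (2 ^ k)) ^ 2 := by
      rw [← pow_mul, pow_succ]
    have h11 : 0 ≤ ‖z‖ ^ b (k + 1) := by positivity
    calc ‖P k (homog 0 z)‖ ^ 2 + ε k * ‖z 1‖ ^ b (k + 1)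
        ≤ (2 ^ (2 ^ k) - 1) ^ 2 * ‖z‖ ^ b (k + 1) + 1 * ‖z‖ ^ b (k + 1) := by
          rw [mul_pow] at h6
          nlinarith
    _ = ((2 ^ (2 ^ k) - 1) ^ 2 + 1) * ‖z‖ ^ b (k + 1) := by ring
    _ ≤ (2 ^ (2 ^ (k + 1)) - 1) * ‖z‖ ^ b (k + 1) := by
          apply mul_le_mul_of_nonneg_right _ h11
          rw [h10]
          nlinarith

include hI

/-- upper bound near the pole -/
lemma Glim_upper {ν : ℝ} (hν : ∀ k, ν ≤ b k / 2 ^ k) (hb2 : ∀ k, b k ≤ 2 ^ k)
    {z : Aff (m + 2)} (hz0 : 0 < ‖z‖) (hz1 : ‖z‖ < 1) :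
    Glim P δ (chart 0 z) ≤
      ((ν * Real.log ‖z‖ + (Real.log ((m : ℝ) + 2) + 2 * Real.log 2 + 1) : ℝ) : EReal) := by
  obtain ⟨k, hk⟩ := exists_nat_ge (-(ν * Real.log ‖z‖))
  refine (Glim_le k (chart 0 z)).trans ?_
  apply EReal.coe_le_coe_iff.2
  have hm : (0:ℝ) ≤ m := Nat.cast_nonneg m
  have h1 : psiF k (P k) (δ k) (chart 0 z) ≤ pot (psiF k (P k) (δ k)) 0 z := by
    unfold pot
    linarith [fsPot_nonneg z]
  refine h1.trans ?_
  rw [pot_psiF_zero (hI k).pol (hI k).pos]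
  simp only
  have hck := ck_pos k
  have hck1 : ck k ≤ 1 := by
    unfold ck
    exact pow_le_one₀ (by norm_num) (by norm_num)
  have hlogz : Real.log ‖z‖ ≤ 0 := Real.log_nonpos hz0.le hz1.le
  set X : ℝ := ((m : ℝ) + 2) * (2 ^ (2 ^ k)) ^ 2 * ‖z‖ ^ (2 * b k) with hX
  have hXpos : 0 < X := by positivity
  have hN : nsq (mapf k (P k)) z ≤ X := by
    rw [nsq_mapf]
    unfold Sf
    have h2 := P_upper hP0 hR hb0 hb k hz1.le
    have h3 : ‖P k (homog 0 z)‖ ^ 2 ≤ (2 ^ (2 ^ k)) ^ 2 * ‖z‖ ^ (2 * b k) := by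
      calc ‖P k (homog 0 z)‖ ^ 2 ≤ ((2 ^ (2 ^ k) - 1) * ‖z‖ ^ (b k)) ^ 2 := by gcongr
      _ ≤ (2 ^ (2 ^ k) * ‖z‖ ^ (b k)) ^ 2 := by
          have : (1:ℝ) ≤ 2 ^ (2 ^ k) := one_le_pow₀ (by norm_num)
          have h0 : 0 ≤ ‖z‖ ^ (b k) := by positivity
          apply pow_le_pow_left₀ (by nlinarith)
          nlinarith
      _ = (2 ^ (2 ^ k)) ^ 2 * ‖z‖ ^ (2 * b k) := by rw [mul_pow, ← pow_mul ‖z‖, mul_comm (b k)]
    have h4 : ∀ l : Fin (m + 1), ‖(homog 0 z : Aff (m + 3)) l.succ.succ‖ ^ (2 * 2 ^ k) ≤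
        (2 ^ (2 ^ k)) ^ 2 * ‖z‖ ^ (2 * b k) := by
      intro l
      rw [homog_zero_succ]
      calc ‖z l.succ‖ ^ (2 * 2 ^ k) ≤ ‖z‖ ^ (2 * 2 ^ k) := by
            gcongr
            exact norm_coord_le z l.succ
      _ ≤ ‖z‖ ^ (2 * b k) := pow_le_pow_of_le_one hz0.le hz1.le (by have := hb2 k; omega)
      _ = 1 * ‖z‖ ^ (2 * b k) := (one_mul _).symm
      _ ≤ (2 ^ (2 ^ k)) ^ 2 * ‖z‖ ^ (2 * b k) := by
            gcongr
            exact one_le_pow₀ (one_le_pow₀ (by norm_num))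
    have h5 : ∑ l : Fin (m + 1), ‖(homog 0 z : Aff (m + 3)) l.succ.succ‖ ^ (2 * 2 ^ k) ≤
        ((m : ℝ) + 1) * ((2 ^ (2 ^ k)) ^ 2 * ‖z‖ ^ (2 * b k)) := by
      calc _ ≤ ∑ _l : Fin (m + 1), (2 ^ (2 ^ k)) ^ 2 * ‖z‖ ^ (2 * b k) :=
            Finset.sum_le_sum fun l _ => h4 l
      _ = _ := by simp
    rw [hX]
    nlinarith
  have hδ := (hI k).pos
  have hN0 : 0 ≤ nsq (mapf k (P k)) z := by unfold nsq; positivity
  -- logarithm of a sum
  have hlog : Real.log (δ k + nsq (mapf k (P k)) z) ≤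
      Real.log 2 + max (Real.log (δ k)) (Real.log X) := by
    have h2 : δ k + nsq (mapf k (P k)) z ≤ 2 * max (δ k) X := by
      have := le_max_left (δ k) X
      have := le_max_right (δ k) X
      linarith
    have h3 := Real.log_le_log (by positivity) h2
    rw [Real.log_mul (by norm_num) (lt_max_of_lt_left hδ).ne'] at h3
    refine h3.trans ?_
    gcongr
    rcases le_total (δ k) X with h | h
    · rw [max_eq_right h]; exact le_max_right _ _
    · rw [max_eq_left h]; exact le_max_left _ _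
  have hlogX : ck k * Real.log X ≤ Real.log ((m : ℝ) + 2) + Real.log 2 + ν * Real.log ‖z‖ := by
    have e1 : Real.log X = Real.log ((m : ℝ) + 2) + ((2 * 2 ^ k : ℕ) : ℝ) * Real.log 2 +
        ((2 * b k : ℕ) : ℝ) * Real.log ‖z‖ := by
      rw [hX, Real.log_mul (by positivity) (by positivity), Real.log_mul (by positivity)
        (by positivity), Real.log_pow, Real.log_pow, Real.log_pow]
      push_cast
      ring
    have e2 := ck_mul k
    have e3 : ck k * ((2 * b k : ℕ) : ℝ) = b k / 2 ^ k := by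
      unfold ck
      push_cast
      rw [pow_succ, one_div, inv_pow]
      field_simp
    have e4 := hν k
    have e5 : 0 ≤ Real.log ((m : ℝ) + 2) := Real.log_nonneg (by linarith)
    calc ck k * Real.log X = ck k * Real.log ((m : ℝ) + 2) +
          (ck k * ((2 * 2 ^ k : ℕ) : ℝ)) * Real.log 2 +
          (ck k * ((2 * b k : ℕ) : ℝ)) * Real.log ‖z‖ := by rw [e1]; ring
    _ = ck k * Real.log ((m : ℝ) + 2) + Real.log 2 + (b k / 2 ^ k) * Real.log ‖z‖ := by
          rw [e2, e3, one_mul]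
    _ ≤ 1 * Real.log ((m : ℝ) + 2) + Real.log 2 + ν * Real.log ‖z‖ := by
          have := mul_le_mul_of_nonpos_right e4 hlogz
          have h6 : ck k * Real.log ((m : ℝ) + 2) ≤ 1 * Real.log ((m : ℝ) + 2) := by gcongr
          linarith
    _ = _ := by ring
  have hlogδ := (hI k).exp
  have hl2 : 0 ≤ Real.log 2 := Real.log_nonneg (by norm_num)
  have e5 : 0 ≤ Real.log ((m : ℝ) + 2) := Real.log_nonneg (by linarith)
  have hmax : ck k * max (Real.log (δ k)) (Real.log X) ≤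
      Real.log ((m : ℝ) + 2) + Real.log 2 + ν * Real.log ‖z‖ := by
    rw [mul_max_of_nonneg _ _ hck.le]
    apply max_le
    · linarith
    · exact hlogX
  have h12 : ((1:ℝ)/2) ^ k ≤ 1 := pow_le_one₀ (by norm_num) (by norm_num)
  calc ck k * Real.log (δ k + nsq (mapf k (P k)) z) + (1 / 2) ^ k
      ≤ ck k * (Real.log 2 + max (Real.log (δ k)) (Real.log X)) + 1 := by gcongr
  _ = ck k * Real.log 2 + ck k * max (Real.log (δ k)) (Real.log X) + 1 := by ring
  _ ≤ 1 * Real.log 2 + (Real.log ((m : ℝ) + 2) + Real.log 2 + ν * Real.log ‖z‖) + 1 := by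
      gcongr
  _ = _ := by ring

omit hI hb0 hb in
/-- the values of `P_k` on the positive `Z_2` axis -/
lemma P_real (t : ℝ) : ∃ p : ℕ → ℝ, p 0 = 0 ∧ (∀ k, p (k + 1) = p k ^ 2 + ε k * t ^ b (k + 1)) ∧
    ∀ k, P k (homog 0 ((t : ℂ) • bas 1)) = (p k : ℂ) := by
  set p : ℕ → ℝ := fun k => Nat.rec 0 (fun k q => q ^ 2 + ε k * t ^ b (k + 1)) k with hp
  refine ⟨p, rfl, fun k => rfl, fun k => ?_⟩
  induction k with
  | zero =>
    rw [hP0]
    have h1 : (homog 0 ((t : ℂ) • bas 1 : Aff (m + 2)) : Aff (m + 3)) 1 =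
        ((t : ℂ) • bas 1 : Aff (m + 2)) 0 := homog_zero_succ _ 0
    simp only
    rw [h1]
    simp [bas, hp]
  | succ k ih =>
    rw [(hR k).eq]
    unfold nextP mon
    have h2 : (homog 0 ((t : ℂ) • bas 1 : Aff (m + 2)) : Aff (m + 3)) 2 =
        ((t : ℂ) • bas 1 : Aff (m + 2)) 1 := homog_zero_succ _ 1
    rw [homog_self, one_pow, one_mul, h2, ih]
    have h3 : ((t : ℂ) • bas 1 : Aff (m + 2)) 1 = t := by simp [bas]
    rw [h3]
    have h4 : p (k + 1) = p k ^ 2 + ε k * t ^ b (k + 1) := rfl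
    rw [h4]
    push_cast
    ring

omit hb0 hb in
/-- lower bound on the positive `Z_2` axis -/
lemma Glim_lower (j : ℕ) {t : ℝ} (ht : 0 < t) :
    ((ck j * (Real.log (ε j) + b (j + 1) * Real.log t) - fsPot ((t : ℂ) • bas 1 : Aff (m + 2)) : ℝ)
      : EReal) ≤ Glim P δ (chart 0 ((t : ℂ) • bas 1)) := by
  obtain ⟨p, hp0, hps, hpP⟩ := P_real hP0 hR t
  set z : Aff (m + 2) := (t : ℂ) • bas 1 with hz
  have hpos : ∀ k, 0 < p (k + 1) := by
    intro k
    rw [hps]
    have := (hR k).eps_pos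
    positivity
  -- q_k = 2 ck log p_k is nondecreasing for k ≥ 1
  have hq : ∀ k, 2 * ck (k + 1) * Real.log (p (k + 1)) ≤
      2 * ck (k + 1 + 1) * Real.log (p (k + 1 + 1)) := by
    intro k
    have h1 : p (k + 1) ^ 2 ≤ p (k + 1 + 1) := by
      rw [hps (k + 1)]
      have := (hR (k + 1)).eps_pos
      have : 0 ≤ ε (k + 1) * t ^ b (k + 1 + 1) := by positivity
      linarith
    have h2 := hpos k
    have h3 := Real.log_le_log (by positivity) h1
    rw [Real.log_pow] at h3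
    push_cast at h3
    have h4 := ck_succ (k + 1)
    have h5 := ck_pos (k + 1 + 1)
    rw [← h4]
    nlinarith
  have hqmono : ∀ k l, k ≤ l → 2 * ck (k + 1) * Real.log (p (k + 1)) ≤
      2 * ck (l + 1) * Real.log (p (l + 1)) := by
    intro k l hkl
    induction l, hkl using Nat.le_induction with
    | base => exact le_rfl
    | succ l _ ih => exact ih.trans (hq l)
  have hbase : ck j * (Real.log (ε j) + b (j + 1) * Real.log t) ≤
      2 * ck (j + 1) * Real.log (p (j + 1)) := by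
    have h1 : ε j * t ^ b (j + 1) ≤ p (j + 1) := by
      rw [hps]; nlinarith [sq_nonneg (p j)]
    have h2 := (hR j).eps_pos
    have h3 := Real.log_le_log (by positivity) h1
    rw [Real.log_mul h2.ne' (by positivity), Real.log_pow] at h3
    have h4 := ck_succ j
    have h5 := ck_pos (j + 1)
    rw [← h4]
    nlinarith
  -- potentials dominate q
  have hpot : ∀ l, j ≤ l → ck j * (Real.log (ε j) + b (j + 1) * Real.log t) - fsPot z ≤
      psiF (l + 1) (P (l + 1)) (δ (l + 1)) (chart 0 z) := by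
    intro l hl
    have h1 : 2 * ck (l + 1) * Real.log (p (l + 1)) ≤
        pot (psiF (l + 1) (P (l + 1)) (δ (l + 1))) 0 z := by
      rw [pot_psiF_zero (hI (l + 1)).pol (hI (l + 1)).pos]
      simp only
      have h2 : p (l + 1) ^ 2 ≤ δ (l + 1) + nsq (mapf (l + 1) (P (l + 1))) z := by
        rw [nsq_mapf]
        unfold Sf
        rw [hpP, Complex.norm_real, Real.norm_eq_abs, sq_abs]
        have h3 := (hI (l + 1)).pos
        have h4 : 0 ≤ ∑ l_1 : Fin (m + 1), ‖(homog 0 z : Aff (m + 3)) l_1.succ.succ‖ ^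
          (2 * 2 ^ (l + 1)) := by positivity
        linarith
      have h3 := hpos l
      have h4 := Real.log_le_log (by positivity) h2
      rw [Real.log_pow] at h4
      push_cast at h4
      have h5 := ck_pos (l + 1)
      have h6 : (0:ℝ) ≤ (1 / 2) ^ (l + 1) := by positivity
      nlinarith
    have h2 : pot (psiF (l + 1) (P (l + 1)) (δ (l + 1))) 0 z =
        psiF (l + 1) (P (l + 1)) (δ (l + 1)) (chart 0 z) + fsPot z := rfl
    have h3 := hqmono j l hl
    linarith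
  refine ge_of_tendsto (Glim_tendsto hI hR (chart 0 z)) ?_
  filter_upwards [eventually_ge_atTop (j + 1)] with l hl
  obtain ⟨l', rfl⟩ : ∃ l', l = l' + 1 := ⟨l - 1, by omega⟩
  exact EReal.coe_le_coe_iff.2 (hpot l' (by omega))

/-- The Lelong number at the pole is `lim b_k / 2^k`. -/
theorem hasLelong_Glim {ν : ℝ} (hν0 : 0 ≤ ν) (hν : ∀ k, ν ≤ b k / 2 ^ k)
    (hlim : Tendsto (fun k => (b k : ℝ) / 2 ^ k) atTop (𝓝 ν)) (hb2 : ∀ k, b k ≤ 2 ^ k) :
    HasLelong (Glim P δ) (chart 0 0) ν := by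
  constructor
  · -- upper bound
    rintro γ ⟨hγ0, hγ⟩
    obtain ⟨C, hC⟩ := hγ 0 0 rfl
    have key : ∀ j, γ ≤ b (j + 1) / 2 ^ (j + 1) := by
      intro j
      by_contra hcon
      push Not at hcon
      set β : ℝ := b (j + 1) / 2 ^ (j + 1) with hβ
      -- the path t ↦ t e_1
      have hpath : Tendsto (fun t : ℝ => ((t : ℂ) • bas 1 : Aff (m + 2))) (𝓝[>] 0) (𝓝[≠] 0) := by
        apply tendsto_nhdsWithin_iff.2
        constructor
        · have : Continuous fun t : ℝ => ((t : ℂ) • bas 1 : Aff (m + 2)) := by fun_prop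
          have h := this.tendsto 0
          simp only [Complex.ofReal_zero, zero_smul] at h
          exact h.mono_left nhdsWithin_le_nhds
        · filter_upwards [self_mem_nhdsWithin] with t ht
          have ht' : (0:ℝ) < t := ht
          simp only [mem_compl_iff, mem_singleton_iff, smul_eq_zero, not_or]
          refine ⟨by exact_mod_cast ht'.ne', ?_⟩
          simp [bas]
      have h1 := hpath.eventually hC
      have h2 : Tendsto (fun t : ℝ => (β - γ) * Real.log t) (𝓝[>] 0) atTop :=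
        Real.tendsto_log_nhdsGT_zero.const_mul_atBot_of_neg (by linarith)
      have h3 := h2.eventually (eventually_gt_atTop (C + 1 - ck j * Real.log (ε j)))
      have h4 : ∀ᶠ t : ℝ in 𝓝[>] 0, t < 1 := by
        filter_upwards [Ioo_mem_nhdsGT (zero_lt_one (α := ℝ))] with s hs
        exact hs.2
      obtain ⟨t, h5, h6, h7, h8⟩ := (h1.and (h3.and (h4.and self_mem_nhdsWithin))).exists
      have ht : 0 < t := h8
      have h9 := (Glim_lower hP0 hI hR j ht).trans h5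
      have h10 := EReal.coe_le_coe_iff.1 h9
      have hn : ‖((t : ℂ) • bas 1 : Aff (m + 2))‖ = t := by
        rw [norm_smul, Complex.norm_real, Real.norm_eq_abs, abs_of_pos ht]
        simp [bas]
      rw [sub_zero, hn] at h10
      have h11 : fsPot ((t : ℂ) • bas 1 : Aff (m + 2)) ≤ 1 := by
        unfold fsPot
        rw [hn]
        have h12 := Real.log_le_sub_one_of_pos (show 0 < 1 + t ^ 2 by positivity)
        nlinarith
      have h12 : ck j * (b (j + 1) : ℝ) = β := by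
        rw [hβ]
        unfold ck
        rw [one_div, inv_pow]
        field_simp
      have h13 : ck j * (Real.log (ε j) + b (j + 1) * Real.log t) =
          ck j * Real.log (ε j) + β * Real.log t := by rw [← h12]; ring
      rw [h13] at h10
      linarith
    have hlim' : Tendsto (fun j => (b (j + 1) : ℝ) / 2 ^ (j + 1)) atTop (𝓝 ν) :=
      hlim.comp (tendsto_add_atTop_nat 1)
    exact ge_of_tendsto' hlim' key
  · -- attained
    intro U hU
    apply hU
    refine ⟨hν0, ?_⟩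
    intro i z0 hz0
    obtain ⟨rfl, rfl⟩ := chart_eq_pole hz0
    refine ⟨Real.log ((m : ℝ) + 2) + 2 * Real.log 2 + 1, ?_⟩
    have h1 : ∀ᶠ z : Aff (m + 2) in 𝓝[≠] 0, ‖z‖ < 1 := by
      have : Metric.ball (0 : Aff (m + 2)) 1 ∈ 𝓝 (0 : Aff (m + 2)) := Metric.ball_mem_nhds _ one_pos
      filter_upwards [nhdsWithin_le_nhds this] with z hz
      simpa using hz
    filter_upwards [h1, self_mem_nhdsWithin] with z hz1 hz2
    rw [sub_zero]
    exact Glim_upper hP0 hI hR hb0 hb hν hb2 (norm_pos_iff.2 hz2) hz1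

end seq

/-- For every `ν ∈ [0,1]` there is a Green function on `ℂℙⁿ`, `n = m + 2`, with Lelong number `ν`
at its pole, and it is the decreasing limit of smooth `ω`-psh functions. -/
theorem exists_green (m : ℕ) {ν : ℝ} (hν0 : 0 ≤ ν) (hν1 : ν ≤ 1) :
    ∃ G : CP (m + 2) → EReal, IsGreen G (chart 0 0) ∧ HasLelong G (chart 0 0) ν ∧
      ∃ ψ : ℕ → CP (m + 2) → ℝ, (∀ j, SmoothOmegaPSH (ψ j)) ∧ (∀ x, Antitone fun j => ψ j x) ∧
        ∀ x, Tendsto (fun j => (ψ j x : EReal)) atTop (𝓝 (G x)) := by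
  set b : ℕ → ℕ := fun k => max 1 ⌈ν * 2 ^ k⌉₊ with hbdef
  have hb1 : ∀ k, 1 ≤ b k := fun k => le_max_left _ _
  have hb2 : ∀ k, b k ≤ 2 ^ k := by
    intro k
    apply max_le Nat.one_le_two_pow
    rw [Nat.ceil_le]
    push_cast
    have : (0:ℝ) ≤ 2 ^ k := by positivity
    nlinarith
  have hb0 : b 0 = 1 := le_antisymm (by simpa using hb2 0) (hb1 0)
  have hceil : ∀ k, (⌈ν * 2 ^ k⌉₊ : ℝ) ≤ (b k : ℝ) := fun k =>
    Nat.cast_le.2 (le_max_right 1 ⌈ν * 2 ^ k⌉₊)
  have hb : ∀ k, b (k + 1) ≤ 2 * b k := by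
    intro k
    apply max_le
    · have := hb1 k; omega
    · rw [Nat.ceil_le]
      have h1 : ν * 2 ^ k ≤ b k := (Nat.le_ceil _).trans (hceil k)
      push_cast
      rw [pow_succ]
      linarith
  have hν : ∀ k, ν ≤ b k / 2 ^ k := by
    intro k
    rw [le_div_iff₀ (by positivity)]
    exact (Nat.le_ceil _).trans (hceil k)
  have hlim : Tendsto (fun k => (b k : ℝ) / 2 ^ k) atTop (𝓝 ν) := by
    have hup : ∀ k, (b k : ℝ) / 2 ^ k ≤ ν + (1 / 2) ^ k := by
      intro k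
      rw [div_le_iff₀ (by positivity), add_mul, one_div, inv_pow, inv_mul_cancel₀ (by positivity)]
      have h1 : (⌈ν * 2 ^ k⌉₊ : ℝ) ≤ ν * 2 ^ k + 1 := (Nat.ceil_lt_add_one (by positivity)).le
      have h2 : (b k : ℝ) = max 1 (⌈ν * 2 ^ k⌉₊ : ℝ) := by simp [hbdef]
      rw [h2]
      apply max_le
      · have : 0 ≤ ν * 2 ^ k := by positivity
        linarith
      · exact h1
    have h2 : Tendsto (fun k : ℕ => ν + ((1:ℝ) / 2) ^ k) atTop (𝓝 (ν + 0)) :=
      tendsto_const_nhds.add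
        (tendsto_pow_atTop_nhds_zero_of_lt_one (by norm_num) (by norm_num))
    rw [add_zero] at h2
    exact tendsto_of_tendsto_of_tendsto_of_le_of_le tendsto_const_nhds h2 hν hup
  obtain ⟨P, δ, ε, hP0, hI, hR⟩ := exists_sequence (m := m) b hb1 hb2
  refine ⟨Glim P δ, isGreen_Glim hI hR, hasLelong_Glim hP0 hI hR hb0 hb hν0 hν hlim hb2,
    fun k => psiF k (P k) (δ k), fun k => smoothOmegaPSH_psiF (hI k).pol (hI k).pos,
    psiF_antitone hI hR, Glim_tendsto hI hR⟩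

end Pool.Agent.H36
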