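import Pool.Agent.H36.Key

/-! Positivity of the Levi matrix. -/

open MeasureTheory Filter Topology Complex
open scoped ContDiff ComplexOrder MatrixOrder

namespace Pool.Agent.H36

variable {n : ℕ}

/-- `lap u z v` is the Laplacian at `0` of `ζ ↦ u (z + ζ v)`, i.e. four times the Levi form. -/
noncomputable def lap (u : Aff n → ℝ) (z v : Aff n) : ℝ :=
  dv v (dv v u) z + dv (I • v) (dv (I • v) u) z

lemma dv_ofReal {u : Aff n → ℝ} (hu : ContDiff ℝ ∞ u) (v z : Aff n) :
    dv v (fun w => (u w : ℂ)) z = ((dv v u z : ℝ) : ℂ) := by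
  unfold dv
  have h : HasFDerivAt (fun w => (u w : ℂ)) (Complex.ofRealCLM.comp (fderiv ℝ u z)) z :=
    Complex.ofRealCLM.hasFDerivAt.comp z (diffAt hu z).hasFDerivAt
  rw [h.fderiv]
  simp

lemma dv_ofReal' {u : Aff n → ℝ} (hu : ContDiff ℝ ∞ u) (v : Aff n) :
    dv v (fun w => (u w : ℂ)) = fun z => ((dv v u z : ℝ) : ℂ) := by
  funext z; exact dv_ofReal hu v z

lemma levi_apply {u : Aff n → ℝ} (hu : ContDiff ℝ ∞ u) (z : Aff n) (j k : Fin n) :
    levi u z j k = ((fderiv ℝ (fderiv ℝ u) z (bas j) (bas k) : ℝ)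
      + (fderiv ℝ (fderiv ℝ u) z (I • bas j) (I • bas k) : ℝ)
      + I * ((fderiv ℝ (fderiv ℝ u) z (bas j) (I • bas k) : ℝ)
        - (fderiv ℝ (fderiv ℝ u) z (I • bas j) (bas k) : ℝ))) / 4 := by
  rw [levi_eq]
  simp only [Matrix.of_apply]
  have hU := coe_contDiff hu
  have e : ∀ v : Aff n, dv v (wd I k (fun w => (u w : ℂ))) =
      fun z => (dv v (dv (bas k) (fun w => (u w : ℂ))) z
        + I * dv v (dv (I • bas k) (fun w => (u w : ℂ))) z) / 2 := fun v =>
    dv_comb (dv_contDiff hU _) (dv_contDiff hU _) I v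
  have e2 : wd (-I) j (wd I k (fun w => (u w : ℂ))) z =
    (dv (bas j) (wd I k (fun w => (u w : ℂ))) z
      + (-I) * dv (I • bas j) (wd I k (fun w => (u w : ℂ))) z) / 2 := rfl
  rw [e2, e, e]
  simp only [dv_ofReal' hu]
  simp only [dv_ofReal (dv_contDiff hu _), dv_dv_eq hu]
  have hI : I * I = -1 := Complex.I_mul_I
  linear_combination
    (-(1/4) * ((fderiv ℝ (fderiv ℝ u) z (I • bas j) (I • bas k) : ℝ) : ℂ)) * hI

lemma lap_eq {u : Aff n → ℝ} (hu : ContDiff ℝ ∞ u) (z v : Aff n) :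
    lap u z v = fderiv ℝ (fderiv ℝ u) z v v + fderiv ℝ (fderiv ℝ u) z (I • v) (I • v) := by
  unfold lap
  rw [dv_dv_eq hu, dv_dv_eq hu]

lemma snd_symm {u : Aff n → ℝ} (hu : ContDiff ℝ ∞ u) (z v w : Aff n) :
    fderiv ℝ (fderiv ℝ u) z v w = fderiv ℝ (fderiv ℝ u) z w v := by
  rw [← dv_dv_eq hu, ← dv_dv_eq hu, dv_comm hu]

/-- the sesquilinear form attached to a real bilinear form -/
noncomputable def ses (B : Aff n →L[ℝ] Aff n →L[ℝ] ℝ) (v w : Aff n) : ℂ :=
  ((B v w : ℝ) + (B (I • v) (I • w) : ℝ) + I * ((B v (I • w) : ℝ) - (B (I • v) w : ℝ))) / 4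

lemma ses_add_left (B : Aff n →L[ℝ] Aff n →L[ℝ] ℝ) (v v' w : Aff n) :
    ses B (v + v') w = ses B v w + ses B v' w := by
  simp only [ses, smul_add, map_add, add_apply]
  push_cast
  ring

lemma ses_add_right (B : Aff n →L[ℝ] Aff n →L[ℝ] ℝ) (v w w' : Aff n) :
    ses B v (w + w') = ses B v w + ses B v w' := by
  simp only [ses, smul_add, map_add]
  push_cast
  ring

lemma I_smul_I_smul (v : Aff n) : (I : ℂ) • (I : ℂ) • v = -v := by
  rw [smul_smul, Complex.I_mul_I, neg_one_smul]

lemma csmul_eq (a : ℂ) (v : Aff n) : a • v = a.re • v + a.im • ((I : ℂ) • v) := by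
  conv_lhs => rw [← Complex.re_add_im a]
  rw [add_smul, mul_smul]
  simp

lemma ses_smul_left (B : Aff n →L[ℝ] Aff n →L[ℝ] ℝ) (a : ℂ) (v w : Aff n) :
    ses B (a • v) w = a * ses B v w := by
  have h1 : ∀ (r : ℝ) (v : Aff n), ses B (r • v) w = r * ses B v w := by
    intro r v
    simp only [ses, smul_comm (I : ℂ) r v, map_smul, smul_apply, smul_eq_mul]
    push_cast
    ring
  have h2 : ∀ v : Aff n, ses B ((I : ℂ) • v) w = I * ses B v w := by
    intro v
    simp only [ses, I_smul_I_smul, map_neg, neg_apply]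
    have hI : I * I = -1 := Complex.I_mul_I
    push_cast
    linear_combination (-(1/4) * (((B v (I • w) : ℝ) : ℂ) - ((B (I • v) w : ℝ) : ℂ))) * hI
  rw [csmul_eq, ses_add_left, h1, h1, h2]
  conv_rhs => rw [← Complex.re_add_im a]
  ring

lemma ses_smul_right (B : Aff n →L[ℝ] Aff n →L[ℝ] ℝ) (a : ℂ) (v w : Aff n) :
    ses B v (a • w) = (starRingEnd ℂ) a * ses B v w := by
  have h1 : ∀ (r : ℝ) (w : Aff n), ses B v (r • w) = r * ses B v w := by
    intro r w
    simp only [ses, smul_comm (I : ℂ) r w, map_smul, smul_eq_mul]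
    push_cast
    ring
  have h2 : ∀ w : Aff n, ses B v ((I : ℂ) • w) = -I * ses B v w := by
    intro w
    simp only [ses, I_smul_I_smul, map_neg]
    have hI : I * I = -1 := Complex.I_mul_I
    push_cast
    linear_combination ((1/4) * (((B v (I • w) : ℝ) : ℂ) - ((B (I • v) w : ℝ) : ℂ))) * hI
  rw [csmul_eq, ses_add_right, h1, h1, h2]
  have : (starRingEnd ℂ) a = a.re - a.im * I := by
    apply Complex.ext <;> simp
  rw [this]
  ring

lemma ses_sum_left (B : Aff n →L[ℝ] Aff n →L[ℝ] ℝ) (x : Fin n → ℂ) (w : Aff n) :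
    ses B (∑ j, x j • bas j) w = ∑ j, x j * ses B (bas j) w := by
  have h0 : ses B 0 w = 0 := by simp [ses]
  have : ∀ s : Finset (Fin n), ses B (∑ j ∈ s, x j • bas j) w = ∑ j ∈ s, x j * ses B (bas j) w := by
    intro s
    induction s using Finset.induction_on with
    | empty => simpa using h0
    | insert a s ha ih => rw [Finset.sum_insert ha, Finset.sum_insert ha, ses_add_left, ih,
        ses_smul_left]
  exact this _

lemma ses_sum_right (B : Aff n →L[ℝ] Aff n →L[ℝ] ℝ) (x : Fin n → ℂ) (v : Aff n) :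
    ses B v (∑ j, x j • bas j) = ∑ j, (starRingEnd ℂ) (x j) * ses B v (bas j) := by
  have h0 : ses B v 0 = 0 := by simp [ses]
  have : ∀ s : Finset (Fin n), ses B v (∑ j ∈ s, x j • bas j) =
      ∑ j ∈ s, (starRingEnd ℂ) (x j) * ses B v (bas j) := by
    intro s
    induction s using Finset.induction_on with
    | empty => simpa using h0
    | insert a s ha ih => rw [Finset.sum_insert ha, Finset.sum_insert ha, ses_add_right, ih,
        ses_smul_right]
  exact this _

/-- If the Levi form is nonnegative, the Levi matrix is positive semidefinite. -/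
theorem levi_posSemidef {u : Aff n → ℝ} (hu : ContDiff ℝ ∞ u) {z : Aff n}
    (h : ∀ v, 0 ≤ lap u z v) : (levi u z).PosSemidef := by
  set B := fderiv ℝ (fderiv ℝ u) z with hB
  have hsym : ∀ v w, B v w = B w v := fun v w => snd_symm hu z v w
  have hle : ∀ j k, levi u z j k = ses B (bas j) (bas k) := fun j k => by
    rw [levi_apply hu]; rfl
  refine Matrix.PosSemidef.of_dotProduct_mulVec_nonneg ?_ ?_
  · ext j k
    rw [Matrix.conjTranspose_apply, hle, hle]
    simp only [ses]
    rw [hsym (bas k) (bas j), hsym (I • bas k) (I • bas j), hsym (bas k) (I • bas j),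
      hsym (I • bas k) (bas j)]
    apply Complex.ext <;> simp
  · intro x
    have h1 : star x ⬝ᵥ (levi u z).mulVec x =
        ses B (∑ j, star (x j) • bas j) (∑ j, star (x j) • bas j) := by
      rw [ses_sum_left]
      simp only [dotProduct, Matrix.mulVec, Pi.star_apply]
      refine Finset.sum_congr rfl fun j _ => ?_
      rw [ses_sum_right]
      congr 1
      refine Finset.sum_congr rfl fun k _ => ?_
      rw [hle]
      simp
      ring
    rw [h1]
    set v := ∑ j, star (x j) • bas j with hv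
    have h2 : ses B v v = ((lap u z v / 4 : ℝ) : ℂ) := by
      rw [lap_eq hu]
      simp only [ses]
      rw [hsym (I • v) v]
      push_cast
      ring
    rw [h2]
    have := h v
    exact_mod_cast (by positivity : (0:ℝ) ≤ lap u z v / 4)

lemma one_le_det_one_add {C : Matrix (Fin n) (Fin n) ℂ} (hC : C.PosSemidef) :
    1 ≤ (1 + C).det.re := by
  have hH : (1 + C).IsHermitian := Matrix.isHermitian_one.add hC.1
  rw [hH.det_eq_prod_eigenvalues]
  have h1 : ∀ i, 1 ≤ hH.eigenvalues i := by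
    intro i
    rw [hH.eigenvalues_eq]
    rw [Matrix.add_mulVec, dotProduct_add, Matrix.one_mulVec, map_add]
    have h2 : RCLike.re (star ⇑(hH.eigenvectorBasis i) ⬝ᵥ ⇑(hH.eigenvectorBasis i)) = (1:ℝ) := by
      have h3 := hH.eigenvectorBasis.orthonormal.1 i
      have h4 : (inner ℂ (hH.eigenvectorBasis i) (hH.eigenvectorBasis i) : ℂ) = 1 := by
        rw [inner_self_eq_norm_sq_to_K, h3]; simp
      rw [EuclideanSpace.inner_eq_star_dotProduct] at h4
      rw [dotProduct_comm] at h4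
      rw [h4]; simp
    rw [h2]
    have h5 := hC.re_dotProduct_nonneg (hH.eigenvectorBasis i).ofLp
    have : 0 ≤ RCLike.re (star ⇑(hH.eigenvectorBasis i) ⬝ᵥ (C.mulVec ⇑(hH.eigenvectorBasis i))) := h5
    linarith
  have h6 : (∏ i, ((hH.eigenvalues i : ℝ) : ℂ)) = ((∏ i, hH.eigenvalues i : ℝ) : ℂ) := by
    push_cast; rfl
  have h7 : (1:ℝ) ≤ ∏ i, hH.eigenvalues i := by
    calc (1:ℝ) = ∏ _i : Fin n, (1:ℝ) := by simp
    _ ≤ ∏ i, hH.eigenvalues i := Finset.prod_le_prod (fun i _ => zero_le_one) (fun i _ => h1 i)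
  change (1:ℝ) ≤ (∏ i, ((hH.eigenvalues i : ℝ) : ℂ)).re
  rw [h6, Complex.ofReal_re]
  exact h7

lemma det_re_nonneg {A : Matrix (Fin n) (Fin n) ℂ} (hA : A.PosSemidef) : 0 ≤ A.det.re := by
  have := hA.det_nonneg
  rw [Complex.le_def] at this
  exact this.1

lemma det_im_eq_zero {A : Matrix (Fin n) (Fin n) ℂ} (hA : A.PosSemidef) : A.det.im = 0 := by
  have := hA.det_nonneg
  rw [Complex.le_def] at this
  exact this.2.symm

/-- The determinant is monotone on positive semidefinite matrices. -/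
lemma det_le_det_add {A B : Matrix (Fin n) (Fin n) ℂ} (hA : A.PosSemidef) (hB : B.PosSemidef) :
    A.det.re ≤ (A + B).det.re := by
  by_cases h0 : A.det = 0
  · rw [h0]
    simpa using det_re_nonneg (hA.add hB)
  · set S : Matrix (Fin n) (Fin n) ℂ := CFC.sqrt A with hS
    have hSS : S * S = A := CFC.sqrt_mul_sqrt_self A (Matrix.nonneg_iff_posSemidef.2 hA)
    have hSpos : S.PosSemidef := Matrix.nonneg_iff_posSemidef.1 (CFC.sqrt_nonneg A)
    have hdet : S.det * S.det = A.det := by rw [← Matrix.det_mul, hSS]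
    have hu : IsUnit S.det := by
      rw [isUnit_iff_ne_zero]
      intro h
      apply h0
      rw [← hdet, h, zero_mul]
    have hinv1 : S * S⁻¹ = 1 := Matrix.mul_nonsing_inv S hu
    have hinv2 : S⁻¹ * S = 1 := Matrix.nonsing_inv_mul S hu
    have hSinvH : (S⁻¹).conjTranspose = S⁻¹ := by
      rw [Matrix.conjTranspose_nonsing_inv, hSpos.1]
    set C := S⁻¹ * B * S⁻¹ with hC
    have hCpos : C.PosSemidef := by
      have := hB.conjTranspose_mul_mul_same S⁻¹
      rwa [hSinvH] at this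
    have hfac : A + B = S * (1 + C) * S := by
      rw [mul_add, add_mul, mul_one, hSS, hC]
      congr 1
      calc B = (S * S⁻¹) * B * (S⁻¹ * S) := by rw [hinv1, hinv2]; simp
      _ = S * (S⁻¹ * B * S⁻¹) * S := by simp only [mul_assoc]
    have hd : (A + B).det = A.det * (1 + C).det := by
      rw [hfac, Matrix.det_mul, Matrix.det_mul, ← hdet]; ring
    rw [hd, Complex.mul_re, det_im_eq_zero hA, zero_mul, sub_zero]
    have h1 := one_le_det_one_add hCpos
    have h2 := det_re_nonneg hA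
    nlinarith

end Pool.Agent.H36
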