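import Pool.Agent.H36.Construct

/-! The limit function `G = inf ψ_k`, which is a Green function with pole at `[1:0:…:0]`. -/

open MeasureTheory Filter Topology Complex Set
open scoped LinearAlgebra.Projectivization ContDiff

namespace Pool.Agent.H36

variable {m : ℕ}

lemma pow_double (k : ℕ) (x : ℝ) : x ^ (2 * 2 ^ (k + 1)) = (x ^ (2 * 2 ^ k)) ^ 2 := by
  rw [← pow_mul]; congr 1; ring

lemma Rel.T_le {b : ℕ → ℕ} {k : ℕ} {P P' : Aff (m + 3) → ℂ} {δ δ' ε : ℝ}
    (h : Rel b k P δ P' δ' ε) (hδ : 0 < δ) {Z : Aff (m + 3)} (hZ : ‖Z‖ = 1) :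
    Tf (k + 1) P' δ' Z ≤ 2 * Tf k P δ Z ^ 2 := by
  have hM := norm_mon_le k (b (k + 1)) hZ
  have h1 : ‖P' Z‖ ≤ ‖P Z‖ ^ 2 + ε := by
    rw [h.eq]
    unfold nextP
    refine (norm_add_le _ _).trans ?_
    rw [norm_pow, norm_mul, Complex.norm_real, Real.norm_eq_abs, abs_of_pos h.eps_pos]
    have := h.eps_pos
    nlinarith
  have h2 : ‖P' Z‖ ^ 2 ≤ ‖P Z‖ ^ 4 + (2 * ε * ‖P Z‖ ^ 2 + ε ^ 2) := by
    calc ‖P' Z‖ ^ 2 ≤ (‖P Z‖ ^ 2 + ε) ^ 2 := by gcongr
    _ = _ := by ring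
  have h3 := h.up Z hZ
  have h4 : δ' * ‖Z 0‖ ^ (2 * 2 ^ (k + 1)) ≤ (δ * ‖Z 0‖ ^ (2 * 2 ^ k)) ^ 2 := by
    rw [pow_double, mul_pow]
    exact mul_le_mul_of_nonneg_right h.delta (by positivity)
  have h5 : ∑ l : Fin (m + 1), ‖Z l.succ.succ‖ ^ (2 * 2 ^ (k + 1)) ≤
      (∑ l : Fin (m + 1), ‖Z l.succ.succ‖ ^ (2 * 2 ^ k)) ^ 2 := by
    simp_rw [pow_double]
    exact Finset.sum_sq_le_sq_sum_of_nonneg' _ (fun l => by positivity)
  set a := δ * ‖Z 0‖ ^ (2 * 2 ^ k) with ha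
  set c := ∑ l : Fin (m + 1), ‖Z l.succ.succ‖ ^ (2 * 2 ^ k) with hc
  have ha0 : 0 ≤ a := by positivity
  have hc0 : 0 ≤ c := by positivity
  have hp0 : 0 ≤ ‖P Z‖ ^ 2 := by positivity
  have hT : Tf k P δ Z = a + (‖P Z‖ ^ 2 + c) := rfl
  have hT' : Tf (k + 1) P' δ' Z = δ' * ‖Z 0‖ ^ (2 * 2 ^ (k + 1)) + (‖P' Z‖ ^ 2 +
    ∑ l : Fin (m + 1), ‖Z l.succ.succ‖ ^ (2 * 2 ^ (k + 1))) := rfl
  rw [hT']
  have h6 : a ^ 2 + (‖P Z‖ ^ 4 + c ^ 2) ≤ Tf k P δ Z ^ 2 := by
    rw [hT]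
    nlinarith [mul_nonneg ha0 hp0, mul_nonneg ha0 hc0, mul_nonneg hp0 hc0]
  linarith
where
  Finset.sum_sq_le_sq_sum_of_nonneg' {ι : Type} [Fintype ι] (f : ι → ℝ) (hf : ∀ i, 0 ≤ f i) :
      ∑ i, f i ^ 2 ≤ (∑ i, f i) ^ 2 := by
    rw [sq (∑ i, f i), Finset.sum_mul]
    refine Finset.sum_le_sum fun i _ => ?_
    rw [sq]
    exact mul_le_mul_of_nonneg_left (Finset.single_le_sum (fun j _ => hf j) (Finset.mem_univ i))
      (hf i)

lemma Rel.S_ge {b : ℕ → ℕ} {k : ℕ} {P P' : Aff (m + 3) → ℂ} {δ δ' ε : ℝ}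
    (h : Rel b k P δ P' δ' ε) {Z : Aff (m + 3)} (hZ : Z ∈ Sr m (rk k)) :
    Sf k P Z ^ 2 / (4 * ((m : ℝ) + 2)) ≤ Sf (k + 1) P' Z := by
  have hM := norm_mon_le k (b (k + 1)) hZ.1
  have hm : (0:ℝ) ≤ m := Nat.cast_nonneg m
  -- `|P'|² ≥ |P|⁴/2 - ε²`
  have h1 : ‖P Z‖ ^ 4 / 2 - ε ^ 2 ≤ ‖P' Z‖ ^ 2 := by
    have h2 : ‖P Z‖ ^ 2 - ε ≤ ‖P' Z‖ := by
      rw [h.eq]
      unfold nextP
      have h3 : ‖P Z ^ 2‖ ≤ ‖P Z ^ 2 + (ε : ℂ) * mon k (b (k + 1)) Z‖ +
          ‖(ε : ℂ) * mon k (b (k + 1)) Z‖ := by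
        have := norm_sub_le (P Z ^ 2 + (ε : ℂ) * mon k (b (k + 1)) Z)
          ((ε : ℂ) * mon k (b (k + 1)) Z)
        rwa [add_sub_cancel_right] at this
      rw [norm_pow, norm_mul, Complex.norm_real, Real.norm_eq_abs, abs_of_pos h.eps_pos] at h3
      have := h.eps_pos
      nlinarith
    have h4 : 0 ≤ ‖P' Z‖ := norm_nonneg _
    have h5 := h.eps_pos
    rcases le_total (‖P Z‖ ^ 2) ε with h6 | h6
    · have h7 : ‖P Z‖ ^ 4 ≤ ε ^ 2 := by
        calc ‖P Z‖ ^ 4 = (‖P Z‖ ^ 2) ^ 2 := by ring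
        _ ≤ ε ^ 2 := by gcongr
      nlinarith [sq_nonneg ‖P' Z‖]
    · have h7 : (‖P Z‖ ^ 2 - ε) ^ 2 ≤ ‖P' Z‖ ^ 2 := by
        apply pow_le_pow_left₀ (by linarith) h2
      nlinarith [sq_nonneg (‖P Z‖ ^ 2 - 2 * ε)]
  have h2 := h.low Z hZ
  set x : Fin (m + 1) → ℝ := fun l => ‖Z l.succ.succ‖ ^ (2 * 2 ^ k) with hx
  have hS : Sf k P Z = ‖P Z‖ ^ 2 + ∑ l, x l := rfl
  have hS' : Sf (k + 1) P' Z = ‖P' Z‖ ^ 2 + ∑ l, x l ^ 2 := by
    unfold Sf
    simp_rw [pow_double]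
    rfl
  have h3 : (∑ l, x l) ^ 2 ≤ ((m : ℝ) + 1) * ∑ l, x l ^ 2 := by
    have := sq_sum_le_card_mul_sum_sq (s := (Finset.univ : Finset (Fin (m + 1)))) (f := x)
    simpa using this
  have h4 : Sf k P Z ^ 2 ≤ ((m : ℝ) + 2) * (‖P Z‖ ^ 4 + ∑ l, x l ^ 2) := by
    rw [hS]
    set p := ‖P Z‖ ^ 2 with hp
    have hp4 : ‖P Z‖ ^ 4 = p ^ 2 := by rw [hp]; ring
    rw [hp4]
    set y := ∑ l, x l with hy
    set q := ∑ l, x l ^ 2 with hq
    -- (p + y)² ≤ (m+2)(p² + y²/(m+1))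
    have hm1 : (0:ℝ) < (m : ℝ) + 1 := by linarith
    have h5 : y ^ 2 / ((m : ℝ) + 1) ≤ q := by
      rw [div_le_iff₀ hm1]; linarith
    have h6 : (p + y) ^ 2 ≤ ((m : ℝ) + 2) * (p ^ 2 + y ^ 2 / ((m : ℝ) + 1)) := by
      have h7 : ((m : ℝ) + 2) * (p ^ 2 + y ^ 2 / ((m : ℝ) + 1)) - (p + y) ^ 2 =
          (((m : ℝ) + 1) * p - y) ^ 2 / ((m : ℝ) + 1) := by
        field_simp
        ring
      have h8 : 0 ≤ (((m : ℝ) + 1) * p - y) ^ 2 / ((m : ℝ) + 1) := by positivity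
      linarith
    refine h6.trans ?_
    gcongr
  have hq0 : 0 ≤ ∑ l, x l ^ 2 := by positivity
  have h5 : Sf k P Z ^ 2 / (2 * ((m : ℝ) + 2)) ≤ (‖P Z‖ ^ 4 + ∑ l, x l ^ 2) / 2 := by
    rw [div_le_div_iff₀ (by positivity) (by positivity)]
    nlinarith
  have h6 : Sf k P Z ^ 2 / (2 * ((m : ℝ) + 2)) = 2 * (Sf k P Z ^ 2 / (4 * ((m : ℝ) + 2))) := by
    field_simp
    ring
  rw [hS']
  nlinarith

section seq

variable {b : ℕ → ℕ} {P : ℕ → Aff (m + 3) → ℂ} {δ ε : ℕ → ℝ}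
  (hI : ∀ k, Inv k (P k) (δ k)) (hR : ∀ k, Rel b k (P k) (δ k) (P (k + 1)) (δ (k + 1)) (ε k))

include hI

lemma psiF_sph (k : ℕ) (Z : Metric.sphere (0 : Aff (m + 3)) 1) :
    psiF k (P k) (δ k) (sph Z) = ck k * Real.log (Tf k (P k) (δ k) Z.1) + (1 / 2) ^ k := by
  unfold sph
  rw [psiF_mk (hI k).pol (hI k).pos]
  have : ‖Z.1‖ = 1 := mem_sphere_zero_iff_norm.1 Z.2
  rw [this, Real.log_one, sub_zero]

lemma Tf_pos_sph (k : ℕ) {Z : Aff (m + 3)} (hZ : ‖Z‖ = 1) : 0 < Tf k (P k) (δ k) Z := by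
  apply (hI k).pol.Tf_pos (hI k).pos
  rintro rfl
  simp at hZ

include hR

lemma psiF_antitone (x : CP (m + 2)) : Antitone fun k => psiF k (P k) (δ k) x := by
  apply antitone_nat_of_succ_le
  intro k
  obtain ⟨Z, rfl⟩ := sph_surjective x
  rw [psiF_sph hI, psiF_sph hI]
  have hZ : ‖Z.1‖ = 1 := mem_sphere_zero_iff_norm.1 Z.2
  have h1 := (hR k).T_le (hI k).pos hZ
  have h2 := Tf_pos_sph hI (k + 1) hZ
  have h3 := Tf_pos_sph hI k hZ
  have h4 : Real.log (Tf (k + 1) (P (k + 1)) (δ (k + 1)) Z.1) ≤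
      Real.log 2 + 2 * Real.log (Tf k (P k) (δ k) Z.1) := by
    have := Real.log_le_log h2 h1
    rw [Real.log_mul (by norm_num) (by positivity), Real.log_pow] at this
    exact_mod_cast this
  have h5 := ck_pos (k + 1)
  have h6 := ck_succ k
  have h7 : Real.log 2 ≤ 1 := by
    have := Real.log_two_lt_d9
    linarith
  have h8 : ck (k + 1) ≤ (1/2) ^ (k + 1) := by
    unfold ck
    rw [pow_succ (1/2 : ℝ) (k + 1)]
    have : (0:ℝ) < (1/2) ^ (k + 1) := by positivity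
    linarith
  have h9 : ((1:ℝ)/2) ^ k = (1/2) ^ (k + 1) + (1/2) ^ (k + 1) := by
    rw [pow_succ]; ring
  calc ck (k + 1) * Real.log (Tf (k + 1) (P (k + 1)) (δ (k + 1)) Z.1) + (1 / 2) ^ (k + 1)
      ≤ ck (k + 1) * (Real.log 2 + 2 * Real.log (Tf k (P k) (δ k) Z.1)) + (1 / 2) ^ (k + 1) := by
        gcongr
  _ = ck (k + 1) * Real.log 2 + ck k * Real.log (Tf k (P k) (δ k) Z.1) + (1/2) ^ (k + 1) := by
        rw [← h6]; ring
  _ ≤ ck (k + 1) * 1 + ck k * Real.log (Tf k (P k) (δ k) Z.1) + (1/2) ^ (k + 1) := by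
        gcongr
  _ ≤ ck k * Real.log (Tf k (P k) (δ k) Z.1) + (1 / 2) ^ k := by
        rw [h9]; linarith

/-- lower bound for the later members of the sequence -/
lemma log_S_lower {k l : ℕ} (hkl : k ≤ l) {Z : Aff (m + 3)} (hZ : Z ∈ Sr m (rk k)) :
    ck k * Real.log (Sf k (P k) Z) - (ck k - ck l) * Real.log (4 * ((m : ℝ) + 2)) ≤
      ck l * Real.log (Sf l (P l) Z) := by
  induction l, hkl using Nat.le_induction with
  | base => simp
  | succ l hkl ih =>
    have hmem : Z ∈ Sr m (rk l) := by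
      refine ⟨hZ.1, ?_⟩
      have h1 := rk_anti hkl
      have h2 := rk_pos l
      have h3 := hZ.2
      have h4 : rk l ^ 2 ≤ rk k ^ 2 := by gcongr
      have h5 : 0 ≤ ‖Z 0‖ ^ 2 := by positivity
      nlinarith
    have h1 := (hR l).S_ge hmem
    have hpos := (hI l).pol.Sf_pos (Sr_exists (rk_pos l) hmem)
    have hm : (0:ℝ) ≤ m := Nat.cast_nonneg m
    have h2 := Real.log_le_log (by positivity) h1
    rw [Real.log_div (by positivity) (by positivity), Real.log_pow] at h2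
    push_cast at h2
    have h3 := ck_succ l
    have h4 := ck_pos (l + 1)
    have h5 : ck (l + 1) * (2 * Real.log (Sf l (P l) Z) - Real.log (4 * ((m : ℝ) + 2))) ≤
        ck (l + 1) * Real.log (Sf (l + 1) (P (l + 1)) Z) := by gcongr
    have h6 : ck (l + 1) * (2 * Real.log (Sf l (P l) Z) - Real.log (4 * ((m : ℝ) + 2))) =
        ck l * Real.log (Sf l (P l) Z) - ck (l + 1) * Real.log (4 * ((m : ℝ) + 2)) := by
      rw [← h3]; ring
    rw [h6] at h5
    have h8 : (ck k - ck (l + 1)) * Real.log (4 * ((m : ℝ) + 2)) =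
        (ck k - ck l) * Real.log (4 * ((m : ℝ) + 2)) +
          ck (l + 1) * Real.log (4 * ((m : ℝ) + 2)) := by
      rw [← h3]; ring
    rw [h8]
    linarith

/-- error terms -/
noncomputable def err (m k : ℕ) : ℝ := ck k * (Real.log (4 * ((m : ℝ) + 2)) + 1) + (1 / 2) ^ k

omit hI hR in
lemma err_tendsto : Tendsto (err m) atTop (𝓝 0) := by
  unfold err ck
  have h1 : Tendsto (fun k : ℕ => ((1:ℝ)/2) ^ k) atTop (𝓝 0) :=
    tendsto_pow_atTop_nhds_zero_of_lt_one (by norm_num) (by norm_num)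
  have h2 : Tendsto (fun k : ℕ => ((1:ℝ)/2) ^ (k + 1)) atTop (𝓝 0) :=
    h1.comp (tendsto_add_atTop_nat 1)
  have h3 := (h2.mul_const (Real.log (4 * ((m : ℝ) + 2)) + 1)).add h1
  simpa using h3

lemma psiF_lower {k l : ℕ} (hkl : k ≤ l) {x : CP (m + 2)} (hx : x ∈ outer (m + 2) (rk k)) :
    psiF k (P k) (δ k) x - err m k ≤ psiF l (P l) (δ l) x := by
  obtain ⟨Z, hZ, rfl⟩ := hx
  rw [psiF_sph hI, psiF_sph hI]
  have hZ1 : ‖Z.1‖ = 1 := mem_sphere_zero_iff_norm.1 Z.2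
  have hmem : Z.1 ∈ Sr m (rk k) := ⟨hZ1, hZ⟩
  have h1 := log_S_lower hI hR hkl hmem
  have hmem' : Z.1 ∈ Sr m (rk l) := by
    refine ⟨hZ1, ?_⟩
    have h1 := rk_anti hkl
    have h2 := rk_pos l
    have h3 := hmem.2
    have h4 : rk l ^ 2 ≤ rk k ^ 2 := by gcongr
    have h5 : 0 ≤ ‖Z.1 0‖ ^ 2 := by positivity
    nlinarith
  have hSk := (hI k).pol.Sf_pos (Sr_exists (rk_pos k) hmem)
  have hSl := (hI l).pol.Sf_pos (Sr_exists (rk_pos l) hmem')
  -- T_k ≤ 2 S_k, T_l ≥ S_l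
  have h2 : Tf k (P k) (δ k) Z.1 ≤ 2 * Sf k (P k) Z.1 := by
    unfold Tf
    have h3 := (hI k).sm Z.1 hmem
    have h4 : ‖Z.1 0‖ ≤ 1 := by
      have := norm_coord_le Z.1 0
      rwa [hZ1] at this
    have h5 : ‖Z.1 0‖ ^ (2 * 2 ^ k) ≤ 1 := pow_le_one₀ (norm_nonneg _) h4
    have h6 : 0 ≤ ‖Z.1 0‖ ^ (2 * 2 ^ k) := by positivity
    have h7 := (hI k).pos
    nlinarith
  have h3 : Sf l (P l) Z.1 ≤ Tf l (P l) (δ l) Z.1 := by
    unfold Tf
    have h7 := (hI l).pos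
    have : 0 ≤ δ l * ‖Z.1 0‖ ^ (2 * 2 ^ l) := by positivity
    linarith
  have h4 := Real.log_le_log (Tf_pos_sph hI k hZ1) h2
  rw [Real.log_mul (by norm_num) hSk.ne'] at h4
  have h5 := Real.log_le_log hSl h3
  have h6 : Real.log 2 ≤ 1 := by
    have := Real.log_two_lt_d9
    linarith
  have hck := ck_pos k
  have hcl := ck_pos l
  have h7 : ck k * Real.log (Tf k (P k) (δ k) Z.1) ≤ ck k * (1 + Real.log (Sf k (P k) Z.1)) := by
    gcongr
    linarith
  have h8 : ck l * Real.log (Sf l (P l) Z.1) ≤ ck l * Real.log (Tf l (P l) (δ l) Z.1) := by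
    gcongr
  have h9 : 0 ≤ Real.log (4 * ((m : ℝ) + 2)) := by
    apply Real.log_nonneg
    have hm : (0:ℝ) ≤ m := Nat.cast_nonneg m
    linarith
  have h10 : 0 ≤ ck l * Real.log (4 * ((m : ℝ) + 2)) := by positivity
  have h11 : (0:ℝ) ≤ (1/2) ^ l := by positivity
  have h12 : (0:ℝ) ≤ (1/2) ^ k := by positivity
  unfold err
  nlinarith

end seq

/-- The limit. -/
noncomputable def Glim (P : ℕ → Aff (m + 3) → ℂ) (δ : ℕ → ℝ) (x : CP (m + 2)) : EReal :=
  ⨅ k, ((psiF k (P k) (δ k) x : ℝ) : EReal)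

section seq

variable {b : ℕ → ℕ} {P : ℕ → Aff (m + 3) → ℂ} {δ ε : ℕ → ℝ}
  (hI : ∀ k, Inv k (P k) (δ k)) (hR : ∀ k, Rel b k (P k) (δ k) (P (k + 1)) (δ (k + 1)) (ε k))

include hI hR

lemma Glim_tendsto (x : CP (m + 2)) :
    Tendsto (fun k => ((psiF k (P k) (δ k) x : ℝ) : EReal)) atTop (𝓝 (Glim P δ x)) := by
  apply tendsto_atTop_iInf
  intro a c hac
  exact EReal.coe_le_coe_iff.2 (psiF_antitone hI hR x hac)

omit hI hR in
lemma Glim_le (k : ℕ) (x : CP (m + 2)) : Glim P δ x ≤ ((psiF k (P k) (δ k) x : ℝ) : EReal) :=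
  iInf_le _ k

lemma Glim_ge {k : ℕ} {x : CP (m + 2)} (hx : x ∈ outer (m + 2) (rk k)) :
    ((psiF k (P k) (δ k) x - err m k : ℝ) : EReal) ≤ Glim P δ x := by
  refine ge_of_tendsto (Glim_tendsto hI hR x) ?_
  filter_upwards [eventually_ge_atTop k] with l hl
  exact EReal.coe_le_coe_iff.2 (psiF_lower hI hR hl hx)

lemma Glim_A (r : ℝ) (hr : 0 < r) (κ : ℝ) (hκ : 0 < κ) : ∀ᶠ k in atTop,
    ∀ x ∈ outer (m + 2) r, ((psiF k (P k) (δ k) x - κ : ℝ) : EReal) ≤ Glim P δ x ∧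
      Glim P δ x ≤ ((psiF k (P k) (δ k) x + κ : ℝ) : EReal) := by
  have h1 : ∀ᶠ k in atTop, err m k < κ := (err_tendsto (m := m)).eventually (gt_mem_nhds hκ)
  have h2 : ∀ᶠ k in atTop, rk k < r := by
    have : Tendsto rk atTop (𝓝 0) := tendsto_one_div_add_atTop_nhds_zero_nat
    exact this.eventually (gt_mem_nhds hr)
  filter_upwards [h1, h2] with k h3 h4 x hx
  constructor
  · have hx' : x ∈ outer (m + 2) (rk k) := by
      obtain ⟨Z, hZ, rfl⟩ := hx
      refine ⟨Z, ?_, rfl⟩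
      have hZ' : (1 + r ^ 2) * ‖Z.1 0‖ ^ 2 ≤ 1 := hZ
      have h5 : rk k ^ 2 ≤ r ^ 2 := by
        have := rk_pos k
        gcongr
      have h6 : 0 ≤ ‖Z.1 0‖ ^ 2 := by positivity
      change (1 + rk k ^ 2) * ‖Z.1 0‖ ^ 2 ≤ 1
      nlinarith
    refine le_trans ?_ (Glim_ge hI hR hx')
    apply EReal.coe_le_coe_iff.2
    linarith
  · refine (Glim_le k x).trans ?_
    apply EReal.coe_le_coe_iff.2
    linarith

omit hR in
lemma Glim_B (r : ℝ) (hr : 0 < r) :
    Tendsto (fun k => maLoc (pot (psiF k (P k) (δ k)) 0) {z | r ≤ ‖z‖}) atTop (𝓝 0) := by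
  have h0 : Tendsto rk atTop (𝓝 0) := tendsto_one_div_add_atTop_nhds_zero_nat
  have h1 : Tendsto (fun k => ENNReal.ofReal (rk k)) atTop (𝓝 0) := by
    have := ENNReal.tendsto_ofReal h0
    simpa using this
  apply tendsto_of_tendsto_of_tendsto_of_le_of_le' tendsto_const_nhds h1
  · exact Eventually.of_forall fun k => zero_le
  · filter_upwards [h0.eventually (gt_mem_nhds hr)] with k hk
    refine (measure_mono ?_).trans (hI k).mass
    intro z hz
    exact hk.le.trans hz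

/-- The limit is `ω`-psh. -/
theorem omegaPSH_Glim : OmegaPSH (Glim P δ) := by
  have hS : ∀ k, SmoothOmegaPSH (psiF k (P k) (δ k)) := fun k =>
    smoothOmegaPSH_psiF (hI k).pol (hI k).pos
  have hpotanti : ∀ (i : Fin (m + 3)) (z : Aff (m + 2)),
      Antitone fun k => pot (psiF k (P k) (δ k)) i z := by
    intro i z a c hac
    unfold pot
    have := psiF_antitone hI hR (chart i z) hac
    simp only at this ⊢
    linarith
  have hlim : ∀ (i : Fin (m + 3)) (z : Aff (m + 2)),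
      Tendsto (fun k => ((pot (psiF k (P k) (δ k)) i z : ℝ) : EReal)) atTop
        (𝓝 (Glim P δ (chart i z) + (fsPot z : EReal))) := by
    intro i z
    have h1 := Glim_tendsto hI hR (chart i z)
    have h2 : Tendsto (fun k => ((psiF k (P k) (δ k) (chart i z) : ℝ) : EReal) + (fsPot z : EReal))
        atTop (𝓝 (Glim P δ (chart i z) + (fsPot z : EReal))) := by
      have h3 := EReal.continuousAt_add (p := (Glim P δ (chart i z), (fsPot z : EReal)))
        (Or.inr (EReal.coe_ne_bot _)) (Or.inr (EReal.coe_ne_top _))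
      exact h3.tendsto.comp (h1.prodMk_nhds tendsto_const_nhds)
    simpa only [pot_coe] using h2
  refine ⟨?_, ?_, fun i => ⟨?_, ?_, ?_⟩⟩
  · unfold Glim
    apply upperSemicontinuous_iInf
    intro k
    exact (continuous_coe_real_ereal.comp (hS k).1.continuous).upperSemicontinuous
  · -- a point of the outer region
    have hx : (chart 0 (bas 0) : CP (m + 2)) ∈ outer (m + 2) (rk 0) := by
      apply chart_mem_outer (rk_pos 0).le
      have : ‖(bas 0 : Aff (m + 2))‖ = 1 := by simp [bas]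
      rw [this]
      unfold rk
      simp
    refine ⟨chart 0 (bas 0), ?_⟩
    intro h
    have := Glim_ge hI hR hx
    rw [h] at this
    exact absurd (le_bot_iff.1 this) (EReal.coe_ne_bot _)
  · -- usc of the potential
    have he : (fun z : Aff (m + 2) => Glim P δ (chart i z) + (fsPot z : EReal)) =
        fun z => ⨅ k, ((pot (psiF k (P k) (δ k)) i z : ℝ) : EReal) := by
      funext z
      refine tendsto_nhds_unique (hlim i z) ?_
      apply tendsto_atTop_iInf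
      intro a c hac
      exact EReal.coe_le_coe_iff.2 (hpotanti i z hac)
    rw [he]
    apply upperSemicontinuous_iInf
    intro k
    exact (continuous_coe_real_ereal.comp (pot_contDiff (hS k).1 i).continuous).upperSemicontinuous
  · intro z
    refine lt_of_le_of_lt ?_ (EReal.coe_lt_top (pot (psiF 0 (P 0) (δ 0)) i z))
    have h : Antitone fun k => ((pot (psiF k (P k) (δ k)) i z : ℝ) : EReal) := fun a c hac =>
      EReal.coe_le_coe_iff.2 (hpotanti i z hac)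
    exact h.le_of_tendsto (hlim i z) 0
  · intro z w M
    set v : ℂ → EReal := fun ζ => Glim P δ (chart i (z + ζ • w)) + (fsPot (z + ζ • w) : EReal)
      with hv
    have hmaxlim : ∀ ζ : ℂ, Tendsto (fun k => max (pot (psiF k (P k) (δ k)) i (z + ζ • w)) M) atTop
        (𝓝 (max (v ζ) (M : EReal)).toReal) := by
      intro ζ
      have h1 : Tendsto (fun k => max ((pot (psiF k (P k) (δ k)) i (z + ζ • w) : ℝ) : EReal)
          (M : EReal)) atTop (𝓝 (max (v ζ) (M : EReal))) :=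
        (hlim i (z + ζ • w)).max tendsto_const_nhds
      have hvt : v ζ < ⊤ := by
        refine lt_of_le_of_lt ?_ (EReal.coe_lt_top (pot (psiF 0 (P 0) (δ 0)) i (z + ζ • w)))
        have h : Antitone fun k => ((pot (psiF k (P k) (δ k)) i (z + ζ • w) : ℝ) : EReal) :=
          fun a c hac => EReal.coe_le_coe_iff.2 (hpotanti i _ hac)
        exact h.le_of_tendsto (hlim i _) 0
      have h2 := (EReal.tendsto_toReal (a := max (v ζ) (M : EReal))
        (max_lt hvt (EReal.coe_lt_top M)).ne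
        (lt_of_lt_of_le (EReal.bot_lt_coe M) (le_max_right _ _)).ne').comp h1
      refine h2.congr fun k => ?_
      simp only [Function.comp]
      exact toReal_max_coe _ _
    have hcont : ∀ k, Continuous fun ζ : ℂ => max (pot (psiF k (P k) (δ k)) i (z + ζ • w)) M := by
      intro k
      exact ((pot_contDiff (hS k).1 i).continuous.comp (by fun_prop)).max continuous_const
    have hcirc : Continuous fun θ : ℝ => circleMap 0 1 θ := by fun_prop
    -- convergence of averages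
    have havg : Tendsto (fun k => Real.circleAverage
        (fun ζ : ℂ => max (pot (psiF k (P k) (δ k)) i (z + ζ • w)) M) 0 1) atTop
        (𝓝 (Real.circleAverage (fun ζ : ℂ => (max (v ζ) (M : EReal)).toReal) 0 1)) := by
      unfold Real.circleAverage
      apply Tendsto.const_smul
      apply intervalIntegral.tendsto_integral_filter_of_dominated_convergence
        (fun θ => |M| + |pot (psiF 0 (P 0) (δ 0)) i (z + circleMap 0 1 θ • w)|)
      · exact Eventually.of_forall fun k =>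
          ((hcont k).comp hcirc).aestronglyMeasurable
      · refine Eventually.of_forall fun k => Eventually.of_forall fun θ _ => ?_
        rw [Real.norm_eq_abs, abs_le]
        have h1 := hpotanti i (z + circleMap 0 1 θ • w) (Nat.zero_le k)
        simp only at h1
        have h2 := neg_abs_le M
        have h3 := le_abs_self M
        have h4 := le_abs_self (pot (psiF 0 (P 0) (δ 0)) i (z + circleMap 0 1 θ • w))
        have h5 := abs_nonneg (pot (psiF 0 (P 0) (δ 0)) i (z + circleMap 0 1 θ • w))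
        have h6 := abs_nonneg M
        constructor
        · have := le_max_right (pot (psiF k (P k) (δ k)) i (z + circleMap 0 1 θ • w)) M
          linarith
        · apply max_le <;> linarith
      · apply Continuous.intervalIntegrable
        have : Continuous fun θ : ℝ => pot (psiF 0 (P 0) (δ 0)) i (z + circleMap 0 1 θ • w) :=
          (pot_contDiff (hS 0).1 i).continuous.comp (by fun_prop)
        exact continuous_const.add this.abs
      · exact Eventually.of_forall fun θ _ => hmaxlim _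
    have hle : ∀ k, v 0 ≤ ((Real.circleAverage
        (fun ζ : ℂ => max (pot (psiF k (P k) (δ k)) i (z + ζ • w)) M) 0 1 : ℝ) : EReal) := by
      intro k
      have h1 := ((hS k).2.psh i).submean z w M
      simp only [pot_coe] at h1
      simp only [toReal_max_coe] at h1
      refine le_trans ?_ h1
      have h : Antitone fun k => ((pot (psiF k (P k) (δ k)) i z : ℝ) : EReal) :=
        fun a c hac => EReal.coe_le_coe_iff.2 (hpotanti i _ hac)
      have h2 := h.le_of_tendsto (hlim i z) k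
      simpa [hv] using h2
    have h0 : v 0 = Glim P δ (chart i z) + (fsPot z : EReal) := by simp [hv]
    rw [← h0]
    refine ge_of_tendsto ((continuous_coe_real_ereal.tendsto _).comp havg) ?_
    exact Eventually.of_forall fun k => hle k

/-- The limit is a Green function with pole at `[1:0:…:0]`. -/
theorem isGreen_Glim : IsGreen (Glim P δ) (chart 0 0) := by
  refine ⟨omegaPSH_Glim hI hR, inferInstance, ?_⟩
  intro φ hφ hanti hlim χ
  have h := ma_tendsto_dirac (n := m + 2) (by omega) hφ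
    (fun k => smoothOmegaPSH_psiF (hI k).pol (hI k).pos) hanti hlim
    (Glim_A hI hR) (Glim_B hI) χ
  have h2 : ∫ x, χ x ∂(Measure.dirac (chart 0 0 : CP (m + 2))) = χ (chart 0 0) :=
    integral_dirac' _ _ χ.continuous.stronglyMeasurable
  rw [h2]
  exact h

end seq

end Pool.Agent.H36
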