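import Pool.Agent.H24.LSphereModel
import Pool.Agent.H24.LineZeros

set_option autoImplicit false

/-!
# Zeros on coordinate lines for Liouville equations without positivity

The equation `u_xx + u_yy + lam (ρ(x) + σ(y)) u = 0` for doubly periodic `u`, with smooth periodic
`ρ` and `σ` and no sign condition on `ρ + σ`.
-/

namespace Pool.Agent.H24.LSphere

open Set Polynomial Pool.Agent.H24.Torus

section
variable {L1 L2 lam : ℝ} {ρ σ : ℝ → ℝ}

/-- The space of the smooth doubly periodic solutions of `u_xx + u_yy + lam (ρ + σ) u = 0`. -/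
def espace (ρ σ : ℝ → ℝ) (L1 L2 lam : ℝ) : Submodule ℝ (ℝ → ℝ → ℝ) where
  carrier := {u | Smooth2 u ∧ Periodic2 L1 L2 u ∧
    ∀ x y, dx (dx u) x y + dy (dy u) x y + lam * (ρ x + σ y) * u x y = 0}
  add_mem' := by
    rintro u v ⟨hu1, hu2, hu3⟩ ⟨hv1, hv2, hv3⟩
    refine ⟨hu1.add hv1, ?_, ?_⟩
    · intro x y
      simp only [Pi.add_apply]
      rw [(hu2 x y).1, (hu2 x y).2, (hv2 x y).1, (hv2 x y).2]
      exact ⟨rfl, rfl⟩
    · intro x y
      have h1 := hu3 x y
      have h2 := hv3 x y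
      rw [dx_add hu1 hv1, dy_add hu1 hv1, dx_add hu1.dx hv1.dx, dy_add hu1.dy hv1.dy]
      simp only [Pi.add_apply]
      linear_combination h1 + h2
  zero_mem' := by
    have h0 : ∀ x y, dx (0 : ℝ → ℝ → ℝ) x y = 0 := by intro x y; simp [dx]
    have h0' : dx (0 : ℝ → ℝ → ℝ) = 0 := by funext x y; exact h0 x y
    have h1 : ∀ x y, dy (0 : ℝ → ℝ → ℝ) x y = 0 := by intro x y; simp [dy]
    have h1' : dy (0 : ℝ → ℝ → ℝ) = 0 := by funext x y; exact h1 x y
    refine ⟨contDiff_const, fun x y => ⟨rfl, rfl⟩, ?_⟩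
    intro x y
    simp [h0', h1']
  smul_mem' := by
    rintro a u ⟨hu1, hu2, hu3⟩
    refine ⟨hu1.smul a, ?_, ?_⟩
    · intro x y
      simp only [Pi.smul_apply]
      rw [(hu2 x y).1, (hu2 x y).2]
      exact ⟨rfl, rfl⟩
    · intro x y
      have h1 := hu3 x y
      rw [dx_smul hu1, dy_smul hu1, dx_smul hu1.dx, dy_smul hu1.dy]
      simp only [Pi.smul_apply, smul_eq_mul]
      linear_combination a * h1

lemma pde_of_mem' {u : ℝ → ℝ → ℝ}
    (hu : u ∈ espace ρ σ L1 L2 lam) (x y : ℝ) :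
    dx (dx u) x y + dy (dy u) x y + lam * (ρ x + σ y) * u x y = 0 := hu.2.2 x y

lemma Tfun_mem (hL : Periodic L1 L2 ρ σ) {u : ℝ → ℝ → ℝ}
    (hu : u ∈ espace ρ σ L1 L2 lam) :
    Tfun lam ρ u ∈ espace ρ σ L1 L2 lam := by
  have hs := hu.1
  have hp := hu.2.1
  have hρ : ContDiff ℝ (⊤ : ℕ∞) (fun x => lam * ρ x) := contDiff_const.mul hL.smooth_rho
  have hσ : ContDiff ℝ (⊤ : ℕ∞) (fun y => lam * σ y) := contDiff_const.mul hL.smooth_sigma
  have e1 : Tfun lam ρ u = dx (dx u) + fun x y => lam * ρ x * u x y := rfl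
  have e2 : Tfun lam ρ u = (-1 : ℝ) • (dy (dy u) + fun x y => lam * σ y * u x y) := by
    funext x y
    have := pde_of_mem' hu x y
    simp only [Tfun, Pi.smul_apply, Pi.add_apply, smul_eq_mul]
    linarith
  have hR : Smooth2 (fun x y => lam * ρ x * u x y) := Smooth2.mul_x hρ hs
  have hS : Smooth2 (fun x y => lam * σ y * u x y) := Smooth2.mul_y hσ hs
  have hTs : Smooth2 (Tfun lam ρ u) := by rw [e1]; exact hs.dx.dx.add hR
  refine ⟨hTs, ?_, ?_⟩
  · intro x y
    simp only [Tfun]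
    rw [(hp.dx.dx x y).1, (hp.dx.dx x y).2, (hp x y).1, (hp x y).2, hL.periodic_rho x]
    exact ⟨rfl, rfl⟩
  · intro x y
    have d1 : dx (dx (Tfun lam ρ u)) = (-1 : ℝ) • (dx (dx (dy (dy u))) +
        fun x y => lam * σ y * dx (dx u) x y) := by
      have hdx : dx (fun x y => lam * σ y * u x y) = fun x y => lam * σ y * dx u x y :=
        dx_mul_y (fun y => lam * σ y) hs
      have hdxx : dx (fun x y => lam * σ y * dx u x y) = fun x y => lam * σ y * dx (dx u) x y :=
        dx_mul_y (fun y => lam * σ y) hs.dx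
      rw [e2, dx_smul (hs.dy.dy.add hS), dx_add hs.dy.dy hS, hdx,
        dx_smul (hs.dy.dy.dx.add (Smooth2.mul_y hσ hs.dx)),
        dx_add hs.dy.dy.dx (Smooth2.mul_y hσ hs.dx), hdxx]
    have d2 : dy (dy (Tfun lam ρ u)) = dy (dy (dx (dx u))) +
        fun x y => lam * ρ x * dy (dy u) x y := by
      have hdy : dy (fun x y => lam * ρ x * u x y) = fun x y => lam * ρ x * dy u x y :=
        dy_mul_x (fun x => lam * ρ x) hs
      have hdyy : dy (fun x y => lam * ρ x * dy u x y) = fun x y => lam * ρ x * dy (dy u) x y :=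
        dy_mul_x (fun x => lam * ρ x) hs.dy
      rw [e1, dy_add hs.dx.dx hR, hdy, dy_add hs.dx.dx.dy (Smooth2.mul_x hρ hs.dy), hdyy]
    have hcomm : dx (dx (dy (dy u))) = dy (dy (dx (dx u))) := by
      rw [hs.dy.dx_dy_comm, hs.dx_dy_comm, hs.dx.dy.dx_dy_comm, hs.dx.dx_dy_comm]
    have hpde := pde_of_mem' hu x y
    rw [d1, d2, hcomm]
    simp only [Pi.smul_apply, Pi.add_apply, smul_eq_mul, Tfun]
    linear_combination lam * ρ x * hpde
/-- The operator `∂_x² + lam ρ` as an endomorphism of the eigenspace. -/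
noncomputable def Tend (lam : ℝ) (hL : Periodic L1 L2 ρ σ) :
    Module.End ℝ (espace ρ σ L1 L2 lam) where
  toFun u := ⟨Tfun lam ρ u.1, Tfun_mem hL u.2⟩
  map_add' u v := by
    apply Subtype.ext
    funext x y
    have hu := u.2.1
    have hv := v.2.1
    show Tfun lam ρ (u.1 + v.1) x y = Tfun lam ρ u.1 x y + Tfun lam ρ v.1 x y
    simp only [Tfun]
    rw [dx_add hu hv, dx_add hu.dx hv.dx]
    simp only [Pi.add_apply]
    ring
  map_smul' a u := by
    apply Subtype.ext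
    funext x y
    have hu := u.2.1
    show Tfun lam ρ (a • u.1) x y = a * Tfun lam ρ u.1 x y
    simp only [Tfun]
    rw [dx_smul hu, dx_smul hu.dx]
    simp only [Pi.smul_apply, smul_eq_mul]
    ring

lemma Tend_apply (hL : Periodic L1 L2 ρ σ)
    (u : espace ρ σ L1 L2 lam) (x y : ℝ) :
    (Tend lam hL u).1 x y = dx (dx u.1) x y + lam * ρ x * u.1 x y := rfl

/-- No non-real eigenvalue. -/
lemma no_complex (hL : Periodic L1 L2 ρ σ) {a b : ℝ} (hb : b ≠ 0)
    (w v : espace ρ σ L1 L2 lam)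
    (h1 : Tend lam hL w = a • w - b • v) (h2 : Tend lam hL v = a • v + b • w) : w = 0 := by
  have e1 : ∀ x y, dx (dx w.1) x y + lam * ρ x * w.1 x y = a * w.1 x y - b * v.1 x y := by
    intro x y
    rw [← Tend_apply hL w x y, h1]; rfl
  have e2 : ∀ x y, dx (dx v.1) x y + lam * ρ x * v.1 x y = a * v.1 x y + b * w.1 x y := by
    intro x y
    rw [← Tend_apply hL v x y, h2]; rfl
  apply Subtype.ext
  funext x y
  have hw := w.2.1
  have hv := v.2.1
  have hwp := w.2.2.1
  have hvp := v.2.2.1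
  have key := deriv_zero_of_periodic (F := fun x => -b * (dx w.1 x y * v.1 x y -
      w.1 x y * dx v.1 x y)) (F' := fun x => b ^ 2 * (w.1 x y ^ 2 + v.1 x y ^ 2)) hL.L1_pos
    (fun x => by
      have d1 := hw.hasDerivAt_x' x y
      have d2 := hv.hasDerivAt_x' x y
      have d3 := hw.dx.hasDerivAt_x' x y
      have d4 := hv.dx.hasDerivAt_x' x y
      refine (((d3.mul d2).sub (d1.mul d4)).const_mul (-b)).congr_deriv ?_
      have h3 : dx (dx w.1) x y = a * w.1 x y - b * v.1 x y - lam * ρ x * w.1 x y := by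
        linarith [e1 x y]
      have h4 : dx (dx v.1) x y = a * v.1 x y + b * w.1 x y - lam * ρ x * v.1 x y := by
        linarith [e2 x y]
      rw [h3, h4]; ring)
    (fun x => by positivity)
    (fun x => by
      simp only
      rw [(hwp x y).1, (hvp x y).1, (hwp.dx x y).1, (hvp.dx x y).1]) x
  have hb2 : 0 < b ^ 2 := by positivity
  have h5 : w.1 x y ^ 2 + v.1 x y ^ 2 = 0 := by
    rcases mul_eq_zero.mp key with h | h
    · exact absurd h hb2.ne'
    · exact h
  show w.1 x y = 0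
  nlinarith [sq_nonneg (w.1 x y), sq_nonneg (v.1 x y)]

/-- Bounds for the real eigenvalues. -/
lemma eigenvalue_bound (hL : Periodic L1 L2 ρ σ) (hlam : 0 ≤ lam) {P Q : ℝ}
    (hP : ∀ x, ρ x ≤ P) (hQ : ∀ y, σ y ≤ Q) {μ : ℝ}
    (w : espace ρ σ L1 L2 lam) (hw0 : w ≠ 0)
    (h : Tend lam hL w = μ • w) : -(lam * Q) ≤ μ ∧ μ ≤ lam * P := by
  have e1 : ∀ x y, dx (dx w.1) x y + lam * ρ x * w.1 x y = μ * w.1 x y := by
    intro x y
    rw [← Tend_apply hL w x y, h]; rfl
  have e2 : ∀ x y, dy (dy w.1) x y = -(μ + lam * σ y) * w.1 x y := by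
    intro x y
    have := pde_of_mem' w.2 x y
    linear_combination this - e1 x y
  have hw := w.2.1
  have hwp := w.2.2.1
  constructor
  · by_contra hcon
    push Not at hcon
    apply hw0
    apply Subtype.ext
    funext x y
    have key := deriv_zero_of_periodic (F := fun y => w.1 x y * dy w.1 x y)
      (F' := fun y => dy w.1 x y ^ 2 + -(μ + lam * σ y) * w.1 x y ^ 2) hL.L2_pos
      (fun y => by
        have d1 := hw.hasDerivAt_y' x y
        have d2 := hw.dy.hasDerivAt_y' x y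
        refine (d1.mul d2).congr_deriv ?_
        rw [e2]; ring)
      (fun y => by
        have h1 : 0 ≤ -(μ + lam * σ y) := by
          have := mul_le_mul_of_nonneg_left (hQ y) hlam
          linarith
        positivity)
      (fun y => by
        simp only
        rw [(hwp x y).2, (hwp.dy x y).2]) y
    have h1 : 0 < -(μ + lam * σ y) := by
      have := mul_le_mul_of_nonneg_left (hQ y) hlam
      linarith
    have h2 : -(μ + lam * σ y) * w.1 x y ^ 2 = 0 := by
      have h3 : 0 ≤ -(μ + lam * σ y) * w.1 x y ^ 2 := by positivity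
      nlinarith [sq_nonneg (dy w.1 x y)]
    have h4 : w.1 x y ^ 2 = 0 := by
      rcases mul_eq_zero.mp h2 with h | h
      · exact absurd h h1.ne'
      · exact h
    exact pow_eq_zero_iff (two_ne_zero) |>.mp h4
  · by_contra hcon
    push Not at hcon
    apply hw0
    apply Subtype.ext
    funext x y
    have e3 : ∀ x y, dx (dx w.1) x y = (μ - lam * ρ x) * w.1 x y := by
      intro x y; linarith [e1 x y]
    have key := deriv_zero_of_periodic (F := fun x => w.1 x y * dx w.1 x y)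
      (F' := fun x => dx w.1 x y ^ 2 + (μ - lam * ρ x) * w.1 x y ^ 2) hL.L1_pos
      (fun x => by
        have d1 := hw.hasDerivAt_x' x y
        have d2 := hw.dx.hasDerivAt_x' x y
        refine (d1.mul d2).congr_deriv ?_
        rw [e3]; ring)
      (fun x => by
        have h1 : 0 ≤ μ - lam * ρ x := by
          have := mul_le_mul_of_nonneg_left (hP x) hlam
          linarith
        positivity)
      (fun x => by
        simp only
        rw [(hwp x y).1, (hwp.dx x y).1]) x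
    have h1 : 0 < μ - lam * ρ x := by
      have := mul_le_mul_of_nonneg_left (hP x) hlam
      linarith
    have h2 : (μ - lam * ρ x) * w.1 x y ^ 2 = 0 := by
      have h3 : 0 ≤ (μ - lam * ρ x) * w.1 x y ^ 2 := by positivity
      nlinarith [sq_nonneg (dx w.1 x y)]
    have h4 : w.1 x y ^ 2 = 0 := by
      rcases mul_eq_zero.mp h2 with h | h
      · exact absurd h h1.ne'
      · exact h
    exact pow_eq_zero_iff (two_ne_zero) |>.mp h4

/-- The quadratic factor acts injectively. -/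
lemma quadratic_injective (hL : Periodic L1 L2 ρ σ) {z : ℂ} (hz : z.im ≠ 0)
    (w : espace ρ σ L1 L2 lam)
    (h : aeval (Tend lam hL) (X ^ 2 - C (2 * z.re) * X + C (‖z‖ ^ 2)) w = 0) : w = 0 := by
  set T := Tend lam hL with hT
  have h1 : T (T w) - (2 * z.re) • T w + (‖z‖ ^ 2) • w = 0 := by
    have e : aeval T (X ^ 2 - C (2 * z.re) * X + C (‖z‖ ^ 2)) w =
        T (T w) - (2 * z.re) • T w + (‖z‖ ^ 2) • w := by
      simp [pow_two, Module.algebraMap_end_apply]
      module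
    rw [← e]; exact h
  have hnorm : ‖z‖ ^ 2 = z.re ^ 2 + z.im ^ 2 := by
    rw [← Complex.normSq_eq_norm_sq, Complex.normSq_apply]; ring
  apply no_complex hL (a := z.re) (b := z.im) hz w ((-(z.im)⁻¹) • (T w - z.re • w))
  · rw [smul_smul]
    have : z.im * -(z.im)⁻¹ = -1 := by field_simp
    rw [this]
    module
  · rw [← hT, map_smul, map_sub, map_smul]
    have h2 : T (T w) = (2 * z.re) • T w - (‖z‖ ^ 2) • w := by
      rw [← sub_eq_zero, ← h1]; abel
    rw [h2, hnorm]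
    have h3 : z.im • w = (-(z.im)⁻¹) • (-(z.im ^ 2) • w) := by
      rw [smul_smul]; congr 1; field_simp
    rw [h3]
    module

/-- The minimal polynomial splits. -/
lemma minpoly_splits (hL : Periodic L1 L2 ρ σ)
    [Module.Finite ℝ (espace ρ σ L1 L2 lam)] :
    (minpoly ℝ (Tend lam hL)).Splits := by
  set T := Tend lam hL with hT
  have hint : IsIntegral ℝ T := Algebra.IsIntegral.isIntegral T
  have hne : minpoly ℝ T ≠ 0 := minpoly.ne_zero hint
  have hirr : ∀ g : ℝ[X], Irreducible g → g ∣ minpoly ℝ T → degree g = 1 := by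
    intro g hg hdvd
    obtain ⟨z, hz⟩ : ∃ z : ℂ, aeval z g = 0 :=
      IsAlgClosed.exists_aeval_eq_zero _ g (degree_pos_of_irreducible hg).ne'
    by_cases him : z.im = 0
    · have hzr : z = ((z.re : ℝ) : ℂ) := by apply Complex.ext <;> simp [him]
      apply degree_eq_one_of_irreducible_of_root hg (x := z.re)
      rw [hzr] at hz
      have h2 : ((eval z.re g : ℝ) : ℂ) = 0 := by
        rw [← hz]
        have := Polynomial.aeval_algebraMap_apply ℂ z.re g
        simpa using this.symm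
      exact_mod_cast h2
    · exfalso
      obtain ⟨r, hr⟩ := (g.quadratic_dvd_of_aeval_eq_zero_im_ne_zero hz him).trans hdvd
      have h0 : aeval T r = 0 := by
        apply LinearMap.ext
        intro w
        apply quadratic_injective hL him
        rw [← hT, ← Module.End.mul_apply, ← map_mul, ← hr]
        exact congrArg (fun A : Module.End ℝ _ => A w) (minpoly.aeval ℝ T)
      have h1 : minpoly ℝ T ∣ r := minpoly.dvd ℝ T h0
      have hr0 : r ≠ 0 := by
        rintro rfl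
        exact hne (by rw [hr, mul_zero])
      have hq : (X ^ 2 - C (2 * z.re) * X + C (‖z‖ ^ 2) : ℝ[X]).natDegree = 2 := by
        compute_degree!
      have hq0 : (X ^ 2 - C (2 * z.re) * X + C (‖z‖ ^ 2) : ℝ[X]) ≠ 0 := by
        intro h; rw [h] at hq; simp at hq
      have h2 := natDegree_le_of_dvd h1 hr0
      rw [hr, natDegree_mul hq0 hr0, hq] at h2
      omega
  have h := (UniqueFactorizationMonoid.factors_prod hne)
  obtain ⟨u, hu⟩ := h
  rw [← hu]
  refine (Splits.multisetProd fun g hg ↦ ?_).mul u.isUnit.splits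
  exact Splits.of_degree_eq_one (hirr g (UniqueFactorizationMonoid.irreducible_of_factor g hg)
    (UniqueFactorizationMonoid.dvd_of_mem_factors hg))

/-- Global gradient bound for eigenfunctions. -/
lemma gradient_bound {W : ℝ} (hW : ∀ x y, |ρ x + σ y| ≤ W)
    {u : ℝ → ℝ → ℝ} (hu : u ∈ espace ρ σ L1 L2 lam) {B : ℝ}
    (hB : ∀ x y, |u x y| ≤ B) (x y : ℝ) :
    |dx u x y| ≤ (2 + |lam| * W / 2) * B ∧ |dy u x y| ≤ (2 + |lam| * W / 2) * B := by
  have hB0 : 0 ≤ B := (abs_nonneg _).trans (hB 0 0)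
  have hW0 : 0 ≤ W := (abs_nonneg _).trans (hW 0 0)
  have := gradient_estimate hu.1 (d := 1) (M := B) (N := |lam| * W * B) one_pos (by positivity)
    (x, y) (fun x y _ _ => hB x y) (fun x y _ _ => by
      have h := pde_of_mem' hu x y
      have e : dx (dx u) x y + dy (dy u) x y = -(lam * (ρ x + σ y) * u x y) := by linarith
      rw [e, abs_neg, abs_mul, abs_mul]
      exact mul_le_mul (mul_le_mul_of_nonneg_left (hW x y) (abs_nonneg _)) (hB x y)
        (abs_nonneg _) (by positivity))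
  have e : 2 * B / 1 + |lam| * W * B * 1 / 2 = (2 + |lam| * W / 2) * B := by ring
  rw [e] at this
  exact this

/-- Evaluation at a grid. -/
noncomputable def gridEval (ρ σ : ℝ → ℝ) (L1 L2 lam : ℝ) (J : ℕ) :
    espace ρ σ L1 L2 lam →ₗ[ℝ] (Fin J × Fin J → ℝ) where
  toFun u := fun ij => u.1 (ij.1 * (L1 / J)) (ij.2 * (L2 / J))
  map_add' u v := by funext ij; rfl
  map_smul' a u := by funext ij; rfl

/-- The eigenspaces are finite dimensional. -/
lemma finite_eigenspace (hL : Periodic L1 L2 ρ σ) {Λ : ℝ}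
    (hρ : ∀ x, |ρ x| ≤ Λ) (hσ : ∀ y, |σ y| ≤ Λ) :
    Module.Finite ℝ (espace ρ σ L1 L2 lam) := by
  have hWabs : ∀ x y, |ρ x + σ y| ≤ Λ + Λ := fun x y =>
    (abs_add_le _ _).trans (add_le_add (hρ x) (hσ y))
  set W := Λ + Λ with hWdef
  have hW0 : 0 ≤ W := (abs_nonneg _).trans (hWabs 0 0)
  set G : ℝ := 2 + |lam| * W / 2 with hG
  have hGpos : 0 < G := by positivity
  obtain ⟨J, hJ⟩ := exists_nat_gt ((L1 + L2) * G)
  have hL12 : 0 < (L1 + L2) * G := mul_pos (add_pos hL.L1_pos hL.L2_pos) hGpos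
  have hJ0' : (0 : ℝ) < J := hL12.trans hJ
  have hJ0 : 0 < J := by exact_mod_cast hJ0'
  apply Module.Finite.of_injective (gridEval ρ σ L1 L2 lam J)
  rw [← LinearMap.ker_eq_bot, LinearMap.ker_eq_bot']
  intro u hu
  have hgrid : ∀ i j : Fin J, u.1 (i * (L1 / J)) (j * (L2 / J)) = 0 := fun i j =>
    congrFun hu (i, j)
  obtain ⟨x0, y0, hmax⟩ := exists_max_abs hL.L1_pos hL.L2_pos u.2.2.1 u.2.1.continuous
  set B := |u.1 x0 y0| with hB
  have hgrad := gradient_bound hWabs u.2 hmax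
  have p1 : ∀ y, Function.Periodic (fun x => u.1 x y) L1 := fun y x => (u.2.2.1 x y).1
  have p2 : ∀ x, Function.Periodic (fun y => u.1 x y) L2 := fun x y => (u.2.2.1 x y).2
  obtain ⟨x', hx', ex⟩ := (p1 y0).exists_mem_Ico₀ hL.L1_pos x0
  obtain ⟨y', hy', ey⟩ := (p2 x').exists_mem_Ico₀ hL.L2_pos y0
  obtain ⟨i, hi⟩ := exists_grid_near hL.L1_pos hJ0 hx'
  obtain ⟨j, hj⟩ := exists_grid_near hL.L2_pos hJ0 hy'
  have e0 : u.1 x0 y0 = u.1 x' y' := (show u.1 x0 y0 = u.1 x' y0 from ex).trans ey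
  have s1 : |u.1 x' y' - u.1 (i * (L1 / J)) y'| ≤ G * B * (L1 / J) := by
    have := (convex_univ (𝕜 := ℝ) (E := ℝ)).norm_image_sub_le_of_norm_deriv_le
      (f := fun s => u.1 s y') (C := G * B)
      (fun s _ => u.2.1.diff_x y' s) (fun s _ => (hgrad s y').1) (mem_univ (i * (L1 / J)))
      (mem_univ x')
    simp only [Real.norm_eq_abs] at this
    exact this.trans (mul_le_mul_of_nonneg_left hi (by positivity))
  have s2 : |u.1 (i * (L1 / J)) y' - u.1 (i * (L1 / J)) (j * (L2 / J))| ≤ G * B * (L2 / J) := by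
    have := (convex_univ (𝕜 := ℝ) (E := ℝ)).norm_image_sub_le_of_norm_deriv_le
      (f := fun t => u.1 (i * (L1 / J)) t) (C := G * B)
      (fun s _ => u.2.1.diff_y (i * (L1 / J)) s) (fun s _ => (hgrad (i * (L1 / J)) s).2)
      (mem_univ (j * (L2 / J))) (mem_univ y')
    simp only [Real.norm_eq_abs] at this
    exact this.trans (mul_le_mul_of_nonneg_left hj (by positivity))
  have s3 : B ≤ G * B * ((L1 + L2) / J) := by
    have e1 : u.1 x' y' = (u.1 x' y' - u.1 (i * (L1 / J)) y') +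
        (u.1 (i * (L1 / J)) y' - u.1 (i * (L1 / J)) (j * (L2 / J))) := by
      rw [hgrid i j]; ring
    calc B = |u.1 x' y'| := by rw [hB, e0]
      _ ≤ G * B * (L1 / J) + G * B * (L2 / J) := by
          rw [e1]; exact (abs_add_le _ _).trans (add_le_add s1 s2)
      _ = G * B * ((L1 + L2) / J) := by ring
  have s4 : B = 0 := by
    by_contra hne
    have hBpos : 0 < B := lt_of_le_of_ne (abs_nonneg _) (Ne.symm hne)
    have h1 : G * ((L1 + L2) / J) < 1 := by
      rw [mul_div_assoc', div_lt_one hJ0']; linarith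
    have h2 : G * B * ((L1 + L2) / J) = B * (G * ((L1 + L2) / J)) := by ring
    rw [h2] at s3
    nlinarith
  apply Subtype.ext
  funext x y
  have := hmax x y
  rw [s4] at this
  exact abs_eq_zero.mp (le_antisymm this (abs_nonneg _))

/-- No Jordan blocks. -/
lemma no_jordan (hL : Periodic L1 L2 ρ σ) {μ : ℝ}
    (w v : espace ρ σ L1 L2 lam)
    (h1 : Tend lam hL w = μ • w + v) (h2 : Tend lam hL v = μ • v) : v = 0 := by
  have e1 : ∀ x y, dx (dx w.1) x y + lam * ρ x * w.1 x y = μ * w.1 x y + v.1 x y := by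
    intro x y
    rw [← Tend_apply hL w x y, h1]; rfl
  have e2 : ∀ x y, dx (dx v.1) x y + lam * ρ x * v.1 x y = μ * v.1 x y := by
    intro x y
    rw [← Tend_apply hL v x y, h2]; rfl
  apply Subtype.ext
  funext x y
  have hw := w.2.1
  have hv := v.2.1
  have hwp := w.2.2.1
  have hvp := v.2.2.1
  have key := deriv_zero_of_periodic (F := fun x => dx w.1 x y * v.1 x y -
      w.1 x y * dx v.1 x y) (F' := fun x => v.1 x y ^ 2) hL.L1_pos
    (fun x => by
      have d1 := hw.hasDerivAt_x' x y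
      have d2 := hv.hasDerivAt_x' x y
      have d3 := hw.dx.hasDerivAt_x' x y
      have d4 := hv.dx.hasDerivAt_x' x y
      refine ((d3.mul d2).sub (d1.mul d4)).congr_deriv ?_
      have h3 : dx (dx w.1) x y = μ * w.1 x y + v.1 x y - lam * ρ x * w.1 x y := by
        linarith [e1 x y]
      have h4 : dx (dx v.1) x y = μ * v.1 x y - lam * ρ x * v.1 x y := by
        linarith [e2 x y]
      rw [h3, h4]; ring)
    (fun x => by positivity)
    (fun x => by
      simp only
      rw [(hwp x y).1, (hvp x y).1, (hwp.dx x y).1, (hvp.dx x y).1]) x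
  exact pow_eq_zero_iff (two_ne_zero) |>.mp key

/-- Decomposition into eigenvectors. -/
lemma decomp_of_prod (hL : Periodic L1 L2 ρ σ) : ∀ (l : List ℝ)
    (w : espace ρ σ L1 L2 lam),
    aeval (Tend lam hL) ((l.map fun μ => X - C μ).prod) w = 0 →
    ∃ (S : Finset ℝ) (f : ℝ → espace ρ σ L1 L2 lam),
      (∀ μ ∈ S, Tend lam hL (f μ) = μ • f μ) ∧ w = ∑ μ ∈ S, f μ
  | [], w, h => by
    have h1 : w = 0 := by simpa using h
    exact ⟨∅, fun _ => 0, by simp, by simp [h1]⟩
  | μ :: l, w, h => by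
    classical
    set T := Tend lam hL with hT
    have h1 : aeval T ((l.map fun μ => X - C μ).prod) (T w - μ • w) = 0 := by
      rw [← h, List.map_cons, List.prod_cons, mul_comm, map_mul, Module.End.mul_apply]
      congr 1
      simp [Module.algebraMap_end_apply]
    obtain ⟨S, f, hf, hsum⟩ := decomp_of_prod hL l _ h1
    rw [← hT] at hf
    -- the corrected vector
    set r := w - ∑ ν ∈ S.erase μ, (ν - μ)⁻¹ • f ν with hr
    set v := T r - μ • r with hv
    have hv1 : v = if μ ∈ S then f μ else 0 := by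
      have e1 : v = (T w - μ • w) - ∑ ν ∈ S.erase μ, (T ((ν - μ)⁻¹ • f ν) - μ • (ν - μ)⁻¹ • f ν) := by
        rw [hv, hr, map_sub, map_sum, smul_sub, Finset.smul_sum, Finset.sum_sub_distrib]
        abel
      have e2 : ∀ ν ∈ S.erase μ, T ((ν - μ)⁻¹ • f ν) - μ • (ν - μ)⁻¹ • f ν = f ν := by
        intro ν hν
        have hν' := Finset.mem_erase.mp hν
        have hne : ν - μ ≠ 0 := sub_ne_zero.mpr hν'.1
        rw [map_smul, hf ν hν'.2, smul_comm μ]
        calc (ν - μ)⁻¹ • ν • f ν - (ν - μ)⁻¹ • μ • f ν = ((ν - μ)⁻¹ * (ν - μ)) • f ν := by module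
          _ = f ν := by rw [inv_mul_cancel₀ hne, one_smul]
      rw [e1, Finset.sum_congr rfl e2, hsum]
      by_cases hμ : μ ∈ S
      · rw [if_pos hμ, ← Finset.add_sum_erase _ _ hμ]; abel
      · rw [if_neg hμ, Finset.erase_eq_of_notMem hμ]; abel
    have hv2 : T v = μ • v := by
      rw [hv1]
      by_cases hμ : μ ∈ S
      · rw [if_pos hμ]; exact hf μ hμ
      · rw [if_neg hμ]; simp
    have hv0 : v = 0 := by
      apply no_jordan hL r v _ hv2
      rw [← hT, hv]; abel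
    have hTr : T r = μ • r := by
      rw [← sub_eq_zero]; exact hv0
    refine ⟨insert μ (S.erase μ), fun ν => if ν = μ then r else (ν - μ)⁻¹ • f ν, ?_, ?_⟩
    · intro ν hν
      by_cases hνμ : ν = μ
      · simp only [hνμ]
        exact hTr
      · simp only [if_neg hνμ]
        have hν' : ν ∈ S := by
          rcases Finset.mem_insert.mp hν with h | h
          · exact absurd h hνμ
          · exact Finset.mem_of_mem_erase h
        rw [map_smul, hf ν hν', smul_comm]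
    · rw [Finset.sum_insert (Finset.notMem_erase μ S), if_pos rfl]
      have e3 : ∑ ν ∈ S.erase μ, (if ν = μ then r else (ν - μ)⁻¹ • f ν) =
          ∑ ν ∈ S.erase μ, (ν - μ)⁻¹ • f ν := by
        apply Finset.sum_congr rfl
        intro ν hν
        rw [if_neg (Finset.mem_erase.mp hν).1]
      rw [e3, hr]; abel

/-- Every eigenfunction is a sum of separated ones. -/
lemma exists_decomp (hL : Periodic L1 L2 ρ σ) (hlam : 0 ≤ lam) {Λ : ℝ}
    (hρ : ∀ x, |ρ x| ≤ Λ) (hσ : ∀ y, |σ y| ≤ Λ) {u : ℝ → ℝ → ℝ}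
    (hu : u ∈ espace ρ σ L1 L2 lam) :
    ∃ (S : Finset ℝ) (U : ℝ → ℝ → ℝ → ℝ),
      (∀ μ ∈ S, U μ ∈ espace ρ σ L1 L2 lam ∧ |μ| ≤ lam * Λ ∧
        (∀ x y, dx (dx (U μ)) x y = (μ - lam * ρ x) * U μ x y) ∧
        (∀ x y, dy (dy (U μ)) x y = -(μ + lam * σ y) * U μ x y)) ∧
      ∀ x y, u x y = ∑ μ ∈ S, U μ x y := by
  classical
  have hfin := finite_eigenspace (lam := lam) hL hρ hσ
  set T := Tend lam hL with hT
  have hint : IsIntegral ℝ T := Algebra.IsIntegral.isIntegral T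
  have hsp := minpoly_splits (lam := lam) hL
  have hprod := hsp.eq_prod_roots_of_monic (minpoly.monic hint)
  have e : (((minpoly ℝ T).roots.toList).map fun μ => X - C μ).prod = minpoly ℝ T := by
    rw [← Multiset.prod_coe, ← Multiset.map_coe, Multiset.coe_toList]
    exact hprod.symm
  obtain ⟨S, f, hf, hsum⟩ := decomp_of_prod hL _ ⟨u, hu⟩ (by
    rw [e, ← hT]
    exact congrArg (fun A : Module.End ℝ _ => A ⟨u, hu⟩) (minpoly.aeval ℝ T))
  refine ⟨S.filter (fun μ => f μ ≠ 0), fun μ => (f μ).1, ?_, ?_⟩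
  · intro μ hμ
    obtain ⟨hμS, hμ0⟩ := Finset.mem_filter.mp hμ
    have hb := eigenvalue_bound hL hlam (fun x => (abs_le.mp (hρ x)).2)
      (fun y => (abs_le.mp (hσ y)).2) (f μ) hμ0 (hf μ hμS)
    have e1 : ∀ x y, dx (dx (f μ).1) x y = (μ - lam * ρ x) * (f μ).1 x y := by
      intro x y
      have h1 : dx (dx (f μ).1) x y + lam * ρ x * (f μ).1 x y = μ * (f μ).1 x y := by
        rw [← Tend_apply hL (f μ) x y, hf μ hμS]; rfl
      linarith
    refine ⟨(f μ).2, abs_le.mpr hb, e1, ?_⟩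
    intro x y
    have := pde_of_mem' (f μ).2 x y
    linear_combination this - e1 x y
  · intro x y
    have h1 : (⟨u, hu⟩ : espace ρ σ L1 L2 lam) =
        ∑ μ ∈ S.filter (fun μ => f μ ≠ 0), f μ := by
      rw [hsum]
      symm
      apply Finset.sum_subset (Finset.filter_subset _ _)
      intro μ hμ hμ'
      by_contra hcon
      exact hμ' (Finset.mem_filter.mpr ⟨hμ, hcon⟩)
    have h2 := congrArg (fun w : espace ρ σ L1 L2 lam => w.1 x y) h1
    simp only at h2
    rw [h2, AddSubmonoidClass.coe_finsetSum, Finset.sum_apply, Finset.sum_apply]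

/-- Zeros of an eigenfunction on a horizontal line. -/
lemma horizontal_zeros_aux (hL : Periodic L1 L2 ρ σ) (hlam : 0 < lam) {Λ : ℝ} (hΛ : 0 ≤ Λ)
    (hρ : ∀ x, |ρ x| ≤ Λ) (hσ : ∀ y, |σ y| ≤ Λ) {u : ℝ → ℝ → ℝ}
    (hu : u ∈ espace ρ σ L1 L2 lam) (y : ℝ) (hne : ∃ x, u x y ≠ 0)
    (a : ℝ) (s : Finset ℝ) (hs : ∀ x ∈ s, x ∈ Ico a (a + L1) ∧ u x y = 0) :
    (s.card : ℝ) ≤ 2 * L1 * Real.sqrt (lam * (2 * Λ + 1)) := by
  obtain ⟨S, U, hU, hsum⟩ := exists_decomp hL hlam.le hρ hσ hu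
  have hω : 0 < lam * (2 * Λ + 1) := by positivity
  apply Sturm.zero_count S (fun μ => lam * (Λ + 1) - μ) (fun μ x => U μ x y)
    (fun x => lam * (Λ + 1 - ρ x)) hL.L1_pos (Real.sqrt_pos.mpr hω) (a := a) (s := s)
  · exact continuous_const.mul (continuous_const.sub hL.smooth_rho.continuous)
  · intro x
    have := (abs_le.mp (hρ x)).2
    exact mul_pos hlam (by linarith)
  · intro μ hμ
    have := (abs_le.mp (hU μ hμ).2.1).2
    nlinarith
  · intro i _ j _ h
    linarith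
  · intro μ hμ x
    rw [Real.sq_sqrt hω.le]
    have h1 := abs_le.mp (hU μ hμ).2.1
    have h2 := abs_le.mp (hρ x)
    have h3 : |lam * ρ x| ≤ lam * Λ := by
      rw [abs_mul, abs_of_pos hlam]; exact mul_le_mul_of_nonneg_left (hρ x) hlam.le
    have h4 := abs_le.mp h3
    rw [abs_le]
    constructor <;> nlinarith
  · intro μ hμ x
    exact ((hU μ hμ).1.2.1 x y).1
  · intro μ hμ
    exact (hU μ hμ).1.1.diff_x y
  · intro μ hμ
    exact (hU μ hμ).1.1.dx.diff_x y
  · intro μ hμ x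
    have := (hU μ hμ).2.2.1 x y
    show dx (dx (U μ)) x y = _
    rw [this]; ring
  · obtain ⟨x, hx⟩ := hne
    exact ⟨x, by rwa [← hsum]⟩
  · intro x hx
    refine ⟨(hs x hx).1, ?_⟩
    rw [← hsum]; exact (hs x hx).2

/-- Zeros of an eigenfunction on a vertical line. -/
lemma vertical_zeros_aux (hL : Periodic L1 L2 ρ σ) (hlam : 0 < lam) {Λ : ℝ} (hΛ : 0 ≤ Λ)
    (hρ : ∀ x, |ρ x| ≤ Λ) (hσ : ∀ y, |σ y| ≤ Λ) {u : ℝ → ℝ → ℝ}
    (hu : u ∈ espace ρ σ L1 L2 lam) (x : ℝ) (hne : ∃ y, u x y ≠ 0)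
    (a : ℝ) (s : Finset ℝ) (hs : ∀ y ∈ s, y ∈ Ico a (a + L2) ∧ u x y = 0) :
    (s.card : ℝ) ≤ 2 * L2 * Real.sqrt (lam * (2 * Λ + 1)) := by
  obtain ⟨S, U, hU, hsum⟩ := exists_decomp hL hlam.le hρ hσ hu
  have hω : 0 < lam * (2 * Λ + 1) := by positivity
  apply Sturm.zero_count S (fun μ => lam * (Λ + 1) + μ) (fun μ y => U μ x y)
    (fun y => lam * (Λ + 1 - σ y)) hL.L2_pos (Real.sqrt_pos.mpr hω) (a := a) (s := s)
  · exact continuous_const.mul (continuous_const.sub hL.smooth_sigma.continuous)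
  · intro y
    have := (abs_le.mp (hσ y)).2
    exact mul_pos hlam (by linarith)
  · intro μ hμ
    have := (abs_le.mp (hU μ hμ).2.1).1
    nlinarith
  · intro i _ j _ h
    linarith
  · intro μ hμ y
    rw [Real.sq_sqrt hω.le]
    have h1 := abs_le.mp (hU μ hμ).2.1
    have h3 : |lam * σ y| ≤ lam * Λ := by
      rw [abs_mul, abs_of_pos hlam]; exact mul_le_mul_of_nonneg_left (hσ y) hlam.le
    have h4 := abs_le.mp h3
    rw [abs_le]
    constructor <;> nlinarith
  · intro μ hμ y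
    exact ((hU μ hμ).1.2.1 x y).2
  · intro μ hμ
    exact (hU μ hμ).1.1.diff_y x
  · intro μ hμ
    exact (hU μ hμ).1.1.dy.diff_y x
  · intro μ hμ y
    have := (hU μ hμ).2.2.2 x y
    show dy (dy (U μ)) x y = _
    rw [this]; ring
  · obtain ⟨y, hy⟩ := hne
    exact ⟨y, by rwa [← hsum]⟩
  · intro y hy
    refine ⟨(hs y hy).1, ?_⟩
    rw [← hsum]; exact (hs y hy).2

end

/-- Zeros of a doubly periodic solution of `u_xx + u_yy + lam (ρ + σ) u = 0` on a horizontal line. -/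
theorem horizontal_zeros {L1 L2 lam : ℝ} {ρ σ : ℝ → ℝ} (hP : LSphere.Periodic L1 L2 ρ σ)
    (hlam : 0 < lam) {Λ : ℝ} (hΛ : 0 ≤ Λ) (hρ : ∀ x, |ρ x| ≤ Λ) (hσ : ∀ y, |σ y| ≤ Λ)
    {u : ℝ → ℝ → ℝ} (hu : Torus.Smooth2 u) (hup : Torus.Periodic2 L1 L2 u)
    (hpde : ∀ x y, Torus.dx (Torus.dx u) x y + Torus.dy (Torus.dy u) x y +
      lam * (ρ x + σ y) * u x y = 0)
    (y : ℝ) (hne : ∃ x, u x y ≠ 0) (a : ℝ) (s : Finset ℝ)
    (hs : ∀ x ∈ s, x ∈ Set.Ico a (a + L1) ∧ u x y = 0) :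
    (s.card : ℝ) ≤ 2 * L1 * Real.sqrt (lam * (2 * Λ + 1)) :=
  horizontal_zeros_aux hP hlam hΛ hρ hσ (u := u) ⟨hu, hup, hpde⟩ y hne a s hs

/-- Zeros of a doubly periodic solution of `u_xx + u_yy + lam (ρ + σ) u = 0` on a vertical line. -/
theorem vertical_zeros {L1 L2 lam : ℝ} {ρ σ : ℝ → ℝ} (hP : LSphere.Periodic L1 L2 ρ σ)
    (hlam : 0 < lam) {Λ : ℝ} (hΛ : 0 ≤ Λ) (hρ : ∀ x, |ρ x| ≤ Λ) (hσ : ∀ y, |σ y| ≤ Λ)
    {u : ℝ → ℝ → ℝ} (hu : Torus.Smooth2 u) (hup : Torus.Periodic2 L1 L2 u)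
    (hpde : ∀ x y, Torus.dx (Torus.dx u) x y + Torus.dy (Torus.dy u) x y +
      lam * (ρ x + σ y) * u x y = 0)
    (x : ℝ) (hne : ∃ y, u x y ≠ 0) (a : ℝ) (s : Finset ℝ)
    (hs : ∀ y ∈ s, y ∈ Set.Ico a (a + L2) ∧ u x y = 0) :
    (s.card : ℝ) ≤ 2 * L2 * Real.sqrt (lam * (2 * Λ + 1)) :=
  vertical_zeros_aux hP hlam hΛ hρ hσ (u := u) ⟨hu, hup, hpde⟩ x hne a s hs

end Pool.Agent.H24.LSphere
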