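import Pool.Agent.H36.Conv

/-! The smooth `ω`-psh functions `ψ = 2^{-k-1} log (Σ|F_l|²) + 2^{-k}` on `ℂℙⁿ`, `n = m + 2`. -/

open MeasureTheory Filter Topology Complex Set
open scoped LinearAlgebra.Projectivization ContDiff

namespace Pool.Agent.H36

variable {m : ℕ}

/-- `|P(Z)|² + Σ_{l ≥ 2} |Z_l|^{2·2^k}` -/
noncomputable def Sf (k : ℕ) (P : Aff (m + 3) → ℂ) (Z : Aff (m + 3)) : ℝ :=
  ‖P Z‖ ^ 2 + ∑ l : Fin (m + 1), ‖Z l.succ.succ‖ ^ (2 * 2 ^ k)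

/-- `δ |Z_0|^{2·2^k} + |P(Z)|² + Σ_{l ≥ 2} |Z_l|^{2·2^k}` -/
noncomputable def Tf (k : ℕ) (P : Aff (m + 3) → ℂ) (δ : ℝ) (Z : Aff (m + 3)) : ℝ :=
  δ * ‖Z 0‖ ^ (2 * 2 ^ k) + Sf k P Z

/-- polynomial-like functions of degree `2^k` -/
structure Pol (k : ℕ) (P : Aff (m + 3) → ℂ) : Prop where
  holo : ∀ i, Holo (fun z : Aff (m + 2) => P (homog i z))
  hom : ∀ (c : ℂ) (Z : Aff (m + 3)), P (c • Z) = c ^ (2 ^ k) * P Z
  line : ∀ Z : Aff (m + 3), Z 2 = 0 → P Z = (Z 1) ^ (2 ^ k)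
  cont : Continuous P

lemma Sf_nonneg (k : ℕ) (P : Aff (m + 3) → ℂ) (Z : Aff (m + 3)) : 0 ≤ Sf k P Z := by
  unfold Sf; positivity

lemma Tf_nonneg (k : ℕ) (P : Aff (m + 3) → ℂ) {δ : ℝ} (hδ : 0 ≤ δ) (Z : Aff (m + 3)) :
    0 ≤ Tf k P δ Z := by
  unfold Tf; have := Sf_nonneg k P Z; positivity

lemma coord_cont {n : ℕ} (i : Fin n) : Continuous fun Z : Aff n => Z i :=
  (EuclideanSpace.proj i : Aff n →L[ℂ] ℂ).continuous

lemma Sf_cont {k : ℕ} {P : Aff (m + 3) → ℂ} (hP : Continuous P) : Continuous (Sf k P) := by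
  unfold Sf
  apply (hP.norm.pow 2).add
  exact continuous_finsetSum _ fun l _ => ((coord_cont _).norm.pow _)

lemma Tf_cont {k : ℕ} {P : Aff (m + 3) → ℂ} (hP : Continuous P) (δ : ℝ) :
    Continuous (Tf k P δ) := by
  unfold Tf
  exact (continuous_const.mul ((coord_cont _).norm.pow _)).add (Sf_cont hP)

lemma Pol.Sf_smul {k : ℕ} {P : Aff (m + 3) → ℂ} (hP : Pol k P) (c : ℂ) (Z : Aff (m + 3)) :
    Sf k P (c • Z) = ‖c‖ ^ (2 * 2 ^ k) * Sf k P Z := by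
  unfold Sf
  rw [hP.hom, mul_add, Finset.mul_sum]
  congr 1
  · rw [norm_mul, mul_pow, norm_pow, ← pow_mul, mul_comm (2 ^ k) 2]
  · refine Finset.sum_congr rfl fun l _ => ?_
    rw [PiLp.smul_apply, smul_eq_mul, norm_mul, mul_pow]

lemma Pol.Tf_smul {k : ℕ} {P : Aff (m + 3) → ℂ} (hP : Pol k P) (δ : ℝ) (c : ℂ)
    (Z : Aff (m + 3)) : Tf k P δ (c • Z) = ‖c‖ ^ (2 * 2 ^ k) * Tf k P δ Z := by
  unfold Tf
  rw [hP.Sf_smul, mul_add, PiLp.smul_apply, smul_eq_mul, norm_mul, mul_pow]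
  ring

/-- If `Sf = 0` then all coordinates but `Z_0` vanish. -/
lemma Pol.eq_zero_of_Sf {k : ℕ} {P : Aff (m + 3) → ℂ} (hP : Pol k P) {Z : Aff (m + 3)}
    (h : Sf k P Z = 0) : ∀ l : Fin (m + 2), Z l.succ = 0 := by
  unfold Sf at h
  have h1 : 0 ≤ ‖P Z‖ ^ 2 := by positivity
  have h2 : 0 ≤ ∑ l : Fin (m + 1), ‖Z l.succ.succ‖ ^ (2 * 2 ^ k) := by positivity
  have h3 : ‖P Z‖ ^ 2 = 0 := by linarith
  have h4 : ∑ l : Fin (m + 1), ‖Z l.succ.succ‖ ^ (2 * 2 ^ k) = 0 := by linarith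
  have h5 : P Z = 0 := by simpa using h3
  have h6 : ∀ l : Fin (m + 1), Z l.succ.succ = 0 := by
    intro l
    have := (Finset.sum_eq_zero_iff_of_nonneg (fun l _ => by positivity)).1 h4 l (Finset.mem_univ l)
    have h7 : 2 * 2 ^ k ≠ 0 := by positivity
    simpa [h7] using this
  have h8 : Z 2 = 0 := h6 0
  have h9 : Z 1 = 0 := by
    have := hP.line Z h8
    rw [h5] at this
    have h10 : (2:ℕ) ^ k ≠ 0 := by positivity
    exact (pow_eq_zero_iff h10).1 this.symm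
  intro l
  refine Fin.cases ?_ (fun l => ?_) l
  · exact h9
  · exact h6 l

lemma Pol.Sf_pos {k : ℕ} {P : Aff (m + 3) → ℂ} (hP : Pol k P) {Z : Aff (m + 3)}
    (h : ∃ l : Fin (m + 2), Z l.succ ≠ 0) : 0 < Sf k P Z := by
  rcases (Sf_nonneg k P Z).lt_or_eq with h1 | h1
  · exact h1
  · obtain ⟨l, hl⟩ := h
    exact absurd (hP.eq_zero_of_Sf h1.symm l) hl

lemma Pol.Tf_pos {k : ℕ} {P : Aff (m + 3) → ℂ} (hP : Pol k P) {δ : ℝ} (hδ : 0 < δ)
    {Z : Aff (m + 3)} (hZ : Z ≠ 0) : 0 < Tf k P δ Z := by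
  unfold Tf
  by_cases h0 : Z 0 = 0
  · have : ∃ l : Fin (m + 2), Z l.succ ≠ 0 := by
      by_contra h
      push Not at h
      apply hZ
      ext j
      refine Fin.cases ?_ (fun l => ?_) j
      · simpa using h0
      · simpa using h l
    have h1 := hP.Sf_pos this
    positivity
  · have h1 := Sf_nonneg k P Z
    have : 0 < ‖Z 0‖ := norm_pos_iff.2 h0
    positivity

/-- `2^{-k-1}` -/
noncomputable def ck (k : ℕ) : ℝ := (1 / 2) ^ (k + 1)

lemma ck_pos (k : ℕ) : 0 < ck k := by unfold ck; positivity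

lemma ck_mul (k : ℕ) : ck k * ((2 * 2 ^ k : ℕ) : ℝ) = 1 := by
  unfold ck
  push_cast
  rw [pow_succ, one_div, inv_pow]
  field_simp

lemma ck_succ (k : ℕ) : ck (k + 1) * 2 = ck k := by
  unfold ck; rw [pow_succ (1/2 : ℝ) (k + 1)]; ring

/-- the function `2^{-k-1} log T - log ‖Z‖ + 2^{-k}` on `ℂℙⁿ` -/
noncomputable def psiF (k : ℕ) (P : Aff (m + 3) → ℂ) (δ : ℝ) (x : CP (m + 2)) : ℝ :=
  ck k * Real.log (Tf k P δ (Projectivization.rep x)) - Real.log ‖Projectivization.rep x‖ +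
    (1 / 2) ^ k

lemma psiF_mk {k : ℕ} {P : Aff (m + 3) → ℂ} (hP : Pol k P) {δ : ℝ} (hδ : 0 < δ)
    {Z : Aff (m + 3)} (hZ : Z ≠ 0) :
    psiF k P δ (CP.mk ⟨Z, hZ⟩) = ck k * Real.log (Tf k P δ Z) - Real.log ‖Z‖ + (1 / 2) ^ k := by
  set x := CP.mk ⟨Z, hZ⟩ with hx
  have hW : Projectivization.rep x ≠ 0 := Projectivization.rep_nonzero x
  set W := Projectivization.rep x with hWdef
  have h1 : CP.mk ⟨W, hW⟩ = CP.mk ⟨Z, hZ⟩ := by
    have : Projectivization.mk ℂ W hW = x := Projectivization.mk_rep x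
    exact this
  obtain ⟨c, hc⟩ := CP.exists_smul_of_mk_eq hW hZ h1
  have hc0 : c ≠ 0 := by
    rintro rfl
    apply hW
    rw [← hc, zero_smul]
  have hcn : 0 < ‖c‖ := norm_pos_iff.2 hc0
  unfold psiF
  rw [← hWdef, ← hc, hP.Tf_smul, norm_smul,
    Real.log_mul (by positivity) (hP.Tf_pos hδ hZ).ne', Real.log_mul hcn.ne' (norm_ne_zero_iff.2 hZ),
    Real.log_pow]
  have := ck_mul k
  linear_combination (Real.log ‖c‖) * this

lemma log_norm_homog {n : ℕ} (i : Fin (n + 1)) (z : Aff n) : Real.log ‖homog i z‖ = fsPot z := by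
  unfold fsPot
  rw [← norm_homog_sq i z, Real.log_pow]
  push_cast
  ring

lemma pot_psiF {k : ℕ} {P : Aff (m + 3) → ℂ} (hP : Pol k P) {δ : ℝ} (hδ : 0 < δ)
    (i : Fin (m + 3)) (z : Aff (m + 2)) :
    pot (psiF k P δ) i z = ck k * Real.log (Tf k P δ (homog i z)) + (1 / 2) ^ k := by
  unfold pot chart
  rw [psiF_mk hP hδ, log_norm_homog]
  ring

lemma holo_homog_coord {n : ℕ} (i j : Fin (n + 1)) : Holo (fun z : Aff n => homog i z j) := by
  refine Fin.succAboveCases i ?_ (fun l => ?_) j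
  · simp only [homog_self]; exact Holo.const 1
  · simp only [homog_succAbove]; exact Holo.coord l

/-- the family `F_l` in the chart `i` -/
noncomputable def famF (k : ℕ) (P : Aff (m + 3) → ℂ) (δ : ℝ) (i : Fin (m + 3)) :
    Fin (m + 3) → Aff (m + 2) → ℂ :=
  Fin.cons (fun z => (√δ : ℂ) * homog i z 0 ^ (2 ^ k))
    (Fin.cons (fun z => P (homog i z)) fun l z => homog i z l.succ.succ ^ (2 ^ k))

lemma famF_holo {k : ℕ} {P : Aff (m + 3) → ℂ} (hP : Pol k P) (δ : ℝ) (i : Fin (m + 3))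
    (l : Fin (m + 3)) : Holo (famF k P δ i l) := by
  unfold famF
  refine Fin.cases ?_ (fun l => ?_) l
  · exact (Holo.const _).mul ((holo_homog_coord i 0).pow _)
  · refine Fin.cases ?_ (fun l => ?_) l
    · exact hP.holo i
    · exact (holo_homog_coord i l.succ.succ).pow _

lemma nsq_famF {k : ℕ} {P : Aff (m + 3) → ℂ} {δ : ℝ} (hδ : 0 ≤ δ) (i : Fin (m + 3))
    (z : Aff (m + 2)) : nsq (famF k P δ i) z = Tf k P δ (homog i z) := by
  unfold nsq Tf Sf famF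
  rw [Fin.sum_univ_succ, Fin.sum_univ_succ]
  simp only [Fin.cons_zero, Fin.cons_succ]
  congr 1
  · rw [norm_mul, mul_pow, norm_pow, Complex.norm_real, Real.norm_eq_abs, sq_abs, Real.sq_sqrt hδ,
      ← pow_mul, mul_comm (2 ^ k) 2]
  · congr 1
    refine Finset.sum_congr rfl fun l _ => ?_
    rw [norm_pow, ← pow_mul, mul_comm (2 ^ k) 2]

lemma pot_psiF' {k : ℕ} {P : Aff (m + 3) → ℂ} (hP : Pol k P) {δ : ℝ} (hδ : 0 < δ)
    (i : Fin (m + 3)) : pot (psiF k P δ) i =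
      fun z => ck k * Real.log (nsq (famF k P δ i) z) + (1 / 2) ^ k := by
  funext z
  rw [pot_psiF hP hδ, nsq_famF hδ.le]

/-- `psiF` is a smooth `ω`-psh function. -/
theorem smoothOmegaPSH_psiF {k : ℕ} {P : Aff (m + 3) → ℂ} (hP : Pol k P) {δ : ℝ} (hδ : 0 < δ) :
    SmoothOmegaPSH (psiF k P δ) := by
  apply smoothOmegaPSH_of_spsh
  intro i
  rw [pot_psiF' hP hδ]
  apply SPsh.add_const
  apply spsh_log_nsq (fun l => famF_holo hP δ i l)
  · intro z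
    rw [nsq_famF hδ.le]
    exact hP.Tf_pos hδ (homog_ne_zero i z)
  · exact (ck_pos k).le

/-! ### The mass outside a ball -/

/-- the map `f : ℂⁿ → ℂⁿ` -/
noncomputable def mapf (k : ℕ) (P : Aff (m + 3) → ℂ) : Fin (m + 2) → Aff (m + 2) → ℂ :=
  Fin.cons (fun z => P (homog 0 z)) fun l z => z l.succ ^ (2 ^ k)

lemma mapf_holo {k : ℕ} {P : Aff (m + 3) → ℂ} (hP : Pol k P) (l : Fin (m + 2)) :
    Holo (mapf k P l) := by
  unfold mapf
  refine Fin.cases ?_ (fun l => ?_) l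
  · exact hP.holo 0
  · exact (Holo.coord l.succ).pow _

lemma homog_zero_succ {n : ℕ} (z : Aff n) (l : Fin n) : homog 0 z l.succ = z l := by
  have := homog_succAbove 0 z l
  rwa [Fin.succAbove_zero] at this

lemma nsq_mapf (k : ℕ) (P : Aff (m + 3) → ℂ) (z : Aff (m + 2)) :
    nsq (mapf k P) z = Sf k P (homog 0 z) := by
  unfold nsq Sf mapf
  rw [Fin.sum_univ_succ]
  simp only [Fin.cons_zero, Fin.cons_succ]
  congr 1
  refine Finset.sum_congr rfl fun l _ => ?_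
  rw [norm_pow, ← pow_mul, mul_comm (2 ^ k) 2, homog_zero_succ]

lemma Tf_homog_zero (k : ℕ) (P : Aff (m + 3) → ℂ) (δ : ℝ) (z : Aff (m + 2)) :
    Tf k P δ (homog 0 z) = δ + nsq (mapf k P) z := by
  unfold Tf
  rw [nsq_mapf, homog_self]
  simp

lemma pot_psiF_zero {k : ℕ} {P : Aff (m + 3) → ℂ} (hP : Pol k P) {δ : ℝ} (hδ : 0 < δ) :
    pot (psiF k P δ) 0 = fun z => ck k * Real.log (δ + nsq (mapf k P) z) + (1 / 2) ^ k := by
  funext z
  rw [pot_psiF hP hδ, Tf_homog_zero]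

lemma det_levi_psiF {k : ℕ} {P : Aff (m + 3) → ℂ} (hP : Pol k P) {δ : ℝ} (hδ : 0 < δ)
    (z : Aff (m + 2)) :
    (levi (pot (psiF k P δ) 0) z).det.re = ck k ^ (m + 2) *
      (δ * ‖(Matrix.of fun i j => dv (bas j) (mapf k P i) z : Matrix (Fin (m + 2)) (Fin (m + 2)) ℂ).det‖ ^ 2
        / (δ + nsq (mapf k P) z) ^ (m + 2 + 1)) := by
  rw [pot_psiF_zero hP hδ]
  have hS : ContDiff ℝ ∞ (fun w => Real.log (δ + nsq (mapf k P) w)) := by
    apply log_contDiff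
    · exact contDiff_const.add (nsq_contDiff fun i => (mapf_holo hP i).smooth)
    · intro z; unfold nsq; positivity
  rw [det_levi_scale hS, det_levi_log (fun i => mapf_holo hP i) hδ, Complex.ofReal_re]

/-- the unit vectors outside the cone over the ball of radius `r` -/
def Sr (m : ℕ) (r : ℝ) : Set (Aff (m + 3)) := {Z | ‖Z‖ = 1 ∧ (1 + r ^ 2) * ‖Z 0‖ ^ 2 ≤ 1}

lemma Sr_compact (r : ℝ) : IsCompact (Sr m r) := by
  have h1 : Sr m r = Metric.sphere 0 1 ∩ {Z | (1 + r ^ 2) * ‖Z 0‖ ^ 2 ≤ 1} := by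
    ext Z; simp [Sr]
  rw [h1]
  apply (isCompact_sphere _ _).inter_right
  exact isClosed_le (continuous_const.mul ((coord_cont 0).norm.pow 2)) continuous_const

lemma Sr_exists {r : ℝ} (hr : 0 < r) {Z : Aff (m + 3)} (hZ : Z ∈ Sr m r) :
    ∃ l : Fin (m + 2), Z l.succ ≠ 0 := by
  by_contra h
  push Not at h
  have h1 : ‖Z‖ ^ 2 = ‖Z 0‖ ^ 2 := by
    rw [EuclideanSpace.norm_sq_eq, Fin.sum_univ_succ]
    simp [h]
  have h2 := hZ.2
  rw [← h1, hZ.1] at h2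
  have : 0 < r ^ 2 := by positivity
  linarith

lemma exists_Sf_lower {k : ℕ} {P : Aff (m + 3) → ℂ} (hP : Pol k P) {r : ℝ} (hr : 0 < r) :
    ∃ s : ℝ, 0 < s ∧ ∀ Z ∈ Sr m r, s ≤ Sf k P Z := by
  rcases (Sr m r).eq_empty_or_nonempty with h | h
  · exact ⟨1, one_pos, fun Z hZ => by rw [h] at hZ; exact absurd hZ (notMem_empty Z)⟩
  · obtain ⟨Z0, hZ0, hmin⟩ := (Sr_compact r).exists_isMinOn h (Sf_cont hP.cont).continuousOn (f := Sf k P)
    exact ⟨Sf k P Z0, hP.Sf_pos (Sr_exists hr hZ0), fun Z hZ => hmin hZ⟩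

lemma Sf_chart_lower {k : ℕ} {P : Aff (m + 3) → ℂ} (hP : Pol k P) {r s : ℝ} (hr : 0 < r)
    (hs : ∀ Z ∈ Sr m r, s ≤ Sf k P Z) (hs0 : 0 ≤ s) {z : Aff (m + 2)} (hz : r ≤ ‖z‖) :
    s ≤ nsq (mapf k P) z := by
  rw [nsq_mapf]
  set Z := homog 0 z with hZ
  have hZn : ‖Z‖ ^ 2 = 1 + ‖z‖ ^ 2 := norm_homog_sq 0 z
  have hZ1 : 1 ≤ ‖Z‖ := by
    have h1 : 0 ≤ ‖Z‖ := norm_nonneg _
    nlinarith [sq_nonneg ‖z‖]
  have hZ0 : ‖Z‖ ≠ 0 := by linarith
  set W : Aff (m + 3) := ((‖Z‖ : ℂ)⁻¹) • Z with hW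
  have hWZ : Z = (‖Z‖ : ℂ) • W := by
    rw [hW, smul_smul, mul_inv_cancel₀ (by exact_mod_cast hZ0), one_smul]
  have hWmem : W ∈ Sr m r := by
    constructor
    · rw [hW, norm_smul, norm_inv, Complex.norm_real, norm_norm, inv_mul_cancel₀ hZ0]
    · rw [hW, PiLp.smul_apply, smul_eq_mul, hZ, homog_self, mul_one, norm_inv, Complex.norm_real,
        norm_norm, inv_pow, ← hZ, hZn, ← div_eq_mul_inv, div_le_one (by positivity)]
      have : r ^ 2 ≤ ‖z‖ ^ 2 := by gcongr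
      linarith
  have h1 := hs W hWmem
  have h2 : Sf k P Z = ‖Z‖ ^ (2 * 2 ^ k) * Sf k P W := by
    conv_lhs => rw [hWZ]
    rw [hP.Sf_smul, Complex.norm_real, norm_norm]
  rw [h2]
  have h3 : 1 ≤ ‖Z‖ ^ (2 * 2 ^ k) := one_le_pow₀ hZ1
  nlinarith

/-- The mass outside a ball tends to zero with `δ`. -/
theorem exists_delta_mass {k : ℕ} {P : Aff (m + 3) → ℂ} (hP : Pol k P) {r : ℝ} (hr : 0 < r)
    {η : ℝ} (hη : 0 < η) : ∃ δ₀ : ℝ, 0 < δ₀ ∧ ∀ δ : ℝ, 0 < δ → δ ≤ δ₀ →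
      maLoc (pot (psiF k P δ) 0) {z | r ≤ ‖z‖} ≤ ENNReal.ofReal η := by
  obtain ⟨s, hs0, hs⟩ := exists_Sf_lower hP hr
  set A : ℝ := ((1 + s) / s) ^ (m + 2 + 1) with hA
  have hApos : 0 < A := by positivity
  set C : ℝ := (Real.pi / 2) ^ (m + 2) / (m + 2).factorial with hC
  have hCpos : 0 < C := by positivity
  have htot : maLoc (fsPot : Aff (m + 2) → ℝ) univ = ENNReal.ofReal C := maLoc_fsPot (by omega)
  refine ⟨η / (A * C), by positivity, fun δ hδ hδ' => ?_⟩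
  have hm : MeasurableSet {z : Aff (m + 2) | r ≤ ‖z‖} :=
    (isClosed_le continuous_const continuous_norm).measurableSet
  have hdens : ∀ z ∈ {z : Aff (m + 2) | r ≤ ‖z‖},
      ENNReal.ofReal (levi (pot (psiF k P δ) 0) z).det.re ≤
        ENNReal.ofReal (δ * A) * ENNReal.ofReal (levi (pot (psiF k P 1) 0) z).det.re := by
    intro z hz
    rw [← ENNReal.ofReal_mul (by positivity), det_levi_psiF hP hδ, det_levi_psiF hP one_pos]
    apply ENNReal.ofReal_le_ofReal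
    set q := ‖(Matrix.of fun i j => dv (bas j) (mapf k P i) z :
      Matrix (Fin (m + 2)) (Fin (m + 2)) ℂ).det‖ ^ 2 with hq
    have hq0 : 0 ≤ q := by positivity
    set N := nsq (mapf k P) z with hN
    have hsN : s ≤ N := Sf_chart_lower hP hr hs hs0.le hz
    have hNpos : 0 < N := by linarith
    have h1 : 1 / (δ + N) ≤ (1 + s) / s * (1 / (1 + N)) := by
      rw [div_mul_div_comm, mul_one, div_le_div_iff₀ (by positivity) (by positivity)]
      nlinarith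
    have h2 : (1 / (δ + N)) ^ (m + 2 + 1) ≤ A * (1 / (1 + N)) ^ (m + 2 + 1) := by
      rw [hA, ← mul_pow]
      exact pow_le_pow_left₀ (by positivity) h1 _
    have hc : 0 ≤ ck k ^ (m + 2) := pow_nonneg (ck_pos k).le _
    calc ck k ^ (m + 2) * (δ * q / (δ + N) ^ (m + 2 + 1))
        = ck k ^ (m + 2) * (δ * q) * (1 / (δ + N)) ^ (m + 2 + 1) := by rw [one_div, inv_pow]; ring
    _ ≤ ck k ^ (m + 2) * (δ * q) * (A * (1 / (1 + N)) ^ (m + 2 + 1)) := by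
        gcongr
    _ = δ * A * (ck k ^ (m + 2) * (1 * q / (1 + N) ^ (m + 2 + 1))) := by
        rw [one_div, inv_pow]; ring
  calc maLoc (pot (psiF k P δ) 0) {z | r ≤ ‖z‖}
      = ∫⁻ z in {z : Aff (m + 2) | r ≤ ‖z‖}, ENNReal.ofReal (levi (pot (psiF k P δ) 0) z).det.re :=
        maLoc_apply _ hm
  _ ≤ ∫⁻ z in {z : Aff (m + 2) | r ≤ ‖z‖}, ENNReal.ofReal (δ * A) *
        ENNReal.ofReal (levi (pot (psiF k P 1) 0) z).det.re := setLIntegral_mono' hm hdens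
  _ = ENNReal.ofReal (δ * A) * maLoc (pot (psiF k P 1) 0) {z | r ≤ ‖z‖} := by
        rw [lintegral_const_mul' _ _ ENNReal.ofReal_ne_top, maLoc_apply _ hm]
  _ ≤ ENNReal.ofReal (δ * A) * maLoc (pot (psiF k P 1) 0) univ := by
        gcongr
        exact subset_univ _
  _ = ENNReal.ofReal (δ * A) * ENNReal.ofReal C := by
        rw [(smoothOmegaPSH_psiF hP one_pos).mass, htot]
  _ = ENNReal.ofReal (δ * (A * C)) := by
        rw [← ENNReal.ofReal_mul (by positivity)]; congr 1; ring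
  _ ≤ ENNReal.ofReal η := by
        apply ENNReal.ofReal_le_ofReal
        rw [le_div_iff₀ (by positivity)] at hδ'
        exact hδ'

end Pool.Agent.H36
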