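import Pool.Agent.H36.Levi

/-! The regularised maximum and gluing of plurisubharmonic functions. -/

open MeasureTheory Filter Topology Complex Set
open scoped ContDiff

namespace Pool.Agent.H36

/-- a smooth convex function equal to `t` for `t ≥ 1` and constant for `t ≤ 0` -/
noncomputable def hreg (t : ℝ) : ℝ := 1 + ∫ x in (1:ℝ)..t, Real.smoothTransition x

lemma hreg_hasDerivAt (t : ℝ) : HasDerivAt hreg (Real.smoothTransition t) t := by
  have h := (Real.smoothTransition.continuous.integral_hasStrictDerivAt 1 t).hasDerivAt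
  exact h.const_add 1

lemma deriv_hreg : deriv hreg = Real.smoothTransition := by
  funext t; exact (hreg_hasDerivAt t).deriv

lemma hreg_contDiff : ContDiff ℝ ∞ hreg := by
  rw [contDiff_infty_iff_deriv]
  refine ⟨fun t => (hreg_hasDerivAt t).differentiableAt, ?_⟩
  rw [deriv_hreg]
  exact Real.smoothTransition.contDiff

lemma hreg_of_one_le {t : ℝ} (ht : 1 ≤ t) : hreg t = t := by
  unfold hreg
  have : ∫ x in (1:ℝ)..t, Real.smoothTransition x = ∫ x in (1:ℝ)..t, (1:ℝ) := by
    apply intervalIntegral.integral_congr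
    intro x hx
    rw [uIcc_of_le ht] at hx
    exact Real.smoothTransition.one_of_one_le hx.1
  rw [this]
  simp

lemma hreg_of_nonpos {t : ℝ} (ht : t ≤ 0) : hreg t = hreg 0 := by
  unfold hreg
  have h1 := intervalIntegral.integral_add_adjacent_intervals
    (Real.smoothTransition.continuous.intervalIntegrable (μ := volume) 1 0)
    (Real.smoothTransition.continuous.intervalIntegrable (μ := volume) 0 t)
  have : ∫ x in (0:ℝ)..t, Real.smoothTransition x = ∫ x in (0:ℝ)..t, (0:ℝ) := by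
    apply intervalIntegral.integral_congr
    intro x hx
    rw [uIcc_of_ge ht] at hx
    exact Real.smoothTransition.zero_of_nonpos hx.2
  rw [← h1, this]
  simp

lemma hreg_ge (t : ℝ) : t ≤ hreg t := by
  -- derivative of `hreg t - t` is nonpositive
  have hanti : Antitone (fun t => hreg t - t) := by
    apply antitone_of_deriv_nonpos
    · intro t
      exact ((hreg_hasDerivAt t).sub (hasDerivAt_id t)).differentiableAt
    · intro t
      have := ((hreg_hasDerivAt t).sub (hasDerivAt_id t)).deriv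
      have e : (fun t => hreg t - t) = hreg - id := rfl
      rw [e, this]
      linarith [Real.smoothTransition.le_one t]
  rcases le_total 1 t with h | h
  · rw [hreg_of_one_le h]
  · have := hanti h
    simp only at this
    rw [hreg_of_one_le le_rfl] at this
    linarith

lemma hreg_mono : Monotone hreg := by
  apply monotone_of_deriv_nonneg
  · intro t; exact (hreg_hasDerivAt t).differentiableAt
  · intro t; rw [deriv_hreg]; exact Real.smoothTransition.nonneg t

lemma hreg_nonneg (t : ℝ) : 0 ≤ hreg t := by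
  have h1 : hreg 0 ≤ hreg t ∨ 0 ≤ t := by
    rcases le_total t 0 with h | h
    · left; rw [hreg_of_nonpos h]
    · right; exact h
  rcases h1 with h | h
  · exact (hreg_ge 0).trans h
  · exact h.trans (hreg_ge t)

lemma hreg_le_max (t : ℝ) : hreg t ≤ max t 1 := by
  rcases le_total 1 t with h | h
  · rw [hreg_of_one_le h]; exact le_max_left _ _
  · calc hreg t ≤ hreg 1 := hreg_mono h
    _ = 1 := hreg_of_one_le le_rfl
    _ ≤ max t 1 := le_max_right _ _

variable {n : ℕ}

lemma dv_comp {φ : ℝ → ℝ} (hφ : ContDiff ℝ ∞ φ) {u : Aff n → ℝ} (hu : ContDiff ℝ ∞ u) (v : Aff n) :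
    dv v (fun w => φ (u w)) = fun z => deriv φ (u z) * dv v u z := by
  funext z
  unfold dv
  have h1 : HasDerivAt φ (deriv φ (u z)) (u z) :=
    ((hφ.differentiable (by simp)) (u z)).hasDerivAt
  have h2 := h1.comp_hasFDerivAt z (diffAt hu z).hasFDerivAt
  have e : (fun w => φ (u w)) = φ ∘ u := rfl
  rw [e, h2.fderiv]
  simp

lemma dv_mul {f g : Aff n → ℝ} (hf : ContDiff ℝ ∞ f) (hg : ContDiff ℝ ∞ g) (v z : Aff n) :
    dv v (fun w => f w * g w) z = dv v f z * g z + f z * dv v g z := by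
  unfold dv
  have := ((diffAt hf z).hasFDerivAt.mul (diffAt hg z).hasFDerivAt).fderiv
  have e : (fun w => f w * g w) = f * g := rfl
  rw [e, this]
  simp
  ring

lemma dv_add {f g : Aff n → ℝ} (hf : ContDiff ℝ ∞ f) (hg : ContDiff ℝ ∞ g) (v : Aff n) :
    dv v (fun w => f w + g w) = fun z => dv v f z + dv v g z := by
  funext z
  unfold dv
  have := ((diffAt hf z).hasFDerivAt.add (diffAt hg z).hasFDerivAt).fderiv
  have e : (fun w => f w + g w) = f + g := rfl
  rw [e, this]
  simp

lemma dv_sub {f g : Aff n → ℝ} (hf : ContDiff ℝ ∞ f) (hg : ContDiff ℝ ∞ g) (v : Aff n) :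
    dv v (fun w => f w - g w) = fun z => dv v f z - dv v g z := by
  funext z
  unfold dv
  have := ((diffAt hf z).hasFDerivAt.sub (diffAt hg z).hasFDerivAt).fderiv
  have e : (fun w => f w - g w) = f - g := rfl
  rw [e, this]
  simp

lemma dv_const_mul {f : Aff n → ℝ} (hf : ContDiff ℝ ∞ f) (a : ℝ) (v : Aff n) :
    dv v (fun w => a * f w) = fun z => a * dv v f z := by
  funext z
  unfold dv
  rw [((diffAt hf z).hasFDerivAt.const_mul a).fderiv]
  simp

lemma dv_const (a : ℝ) (v : Aff n) : dv v (fun _ => a) = fun _ => 0 := by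
  funext z
  simp [dv]

lemma lap_add {f g : Aff n → ℝ} (hf : ContDiff ℝ ∞ f) (hg : ContDiff ℝ ∞ g) (z v : Aff n) :
    lap (fun w => f w + g w) z v = lap f z v + lap g z v := by
  unfold lap
  rw [dv_add hf hg, dv_add hf hg, dv_add (dv_contDiff hf _) (dv_contDiff hg _),
    dv_add (dv_contDiff hf _) (dv_contDiff hg _)]
  ring

lemma lap_sub {f g : Aff n → ℝ} (hf : ContDiff ℝ ∞ f) (hg : ContDiff ℝ ∞ g) (z v : Aff n) :
    lap (fun w => f w - g w) z v = lap f z v - lap g z v := by
  unfold lap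
  rw [dv_sub hf hg, dv_sub hf hg, dv_sub (dv_contDiff hf _) (dv_contDiff hg _),
    dv_sub (dv_contDiff hf _) (dv_contDiff hg _)]
  ring

lemma lap_const_mul {f : Aff n → ℝ} (hf : ContDiff ℝ ∞ f) (a : ℝ) (z v : Aff n) :
    lap (fun w => a * f w) z v = a * lap f z v := by
  unfold lap
  rw [dv_const_mul hf, dv_const_mul hf, dv_const_mul (dv_contDiff hf _),
    dv_const_mul (dv_contDiff hf _)]
  ring

lemma lap_const (a : ℝ) (z v : Aff n) : lap (fun _ => a) z v = 0 := by
  unfold lap
  rw [dv_const, dv_const, dv_const, dv_const]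
  simp

lemma lap_congr {u w : Aff n → ℝ} {z : Aff n} (h : u =ᶠ[𝓝 z] w) (v : Aff n) :
    lap u z v = lap w z v := by
  have h1 : ∀ (a : Aff n) (f g : Aff n → ℝ) (y : Aff n), f =ᶠ[𝓝 y] g → dv a f y = dv a g y := by
    intro a f g y hfg
    unfold dv
    rw [hfg.fderiv_eq]
  have h2 : ∀ a : Aff n, dv a (dv a u) z = dv a (dv a w) z := by
    intro a
    apply h1
    filter_upwards [h.eventuallyEq_nhds] with y hy
    exact h1 _ _ _ _ hy
  unfold lap
  rw [h2, h2]

/-- chain rule for the Levi form -/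
lemma lap_comp {φ : ℝ → ℝ} (hφ : ContDiff ℝ ∞ φ) {u : Aff n → ℝ} (hu : ContDiff ℝ ∞ u)
    (z v : Aff n) : lap (fun w => φ (u w)) z v =
      deriv φ (u z) * lap u z v +
        deriv (deriv φ) (u z) * (dv v u z ^ 2 + dv (I • v) u z ^ 2) := by
  have hd : ContDiff ℝ ∞ (deriv φ) := (contDiff_infty_iff_deriv.1 hφ).2
  have h : ∀ v : Aff n, dv v (dv v (fun w => φ (u w))) z =
      deriv (deriv φ) (u z) * dv v u z ^ 2 + deriv φ (u z) * dv v (dv v u) z := by
    intro v
    have hdu : ContDiff ℝ ∞ (fun w => deriv φ (u w)) := hd.comp hu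
    rw [dv_comp hφ hu, dv_mul hdu (dv_contDiff hu v), dv_comp hd hu]
    ring
  unfold lap
  rw [h, h]
  ring

/-- Smooth plurisubharmonic functions on `ℂⁿ` (nonnegative Levi form). -/
structure SPsh (u : Aff n → ℝ) : Prop where
  smooth : ContDiff ℝ ∞ u
  lap_nonneg : ∀ z v, 0 ≤ lap u z v

lemma SPsh.add {u w : Aff n → ℝ} (hu : SPsh u) (hw : SPsh w) : SPsh (fun z => u z + w z) :=
  ⟨hu.smooth.add hw.smooth, fun z v => by
    rw [lap_add hu.smooth hw.smooth]; exact add_nonneg (hu.lap_nonneg z v) (hw.lap_nonneg z v)⟩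

lemma SPsh.add_const {u : Aff n → ℝ} (hu : SPsh u) (a : ℝ) : SPsh (fun z => u z + a) :=
  ⟨hu.smooth.add contDiff_const, fun z v => by
    rw [lap_add hu.smooth contDiff_const, lap_const, add_zero]; exact hu.lap_nonneg z v⟩

lemma SPsh.const_mul {u : Aff n → ℝ} (hu : SPsh u) {a : ℝ} (ha : 0 ≤ a) : SPsh (fun z => a * u z) :=
  ⟨contDiff_const.mul hu.smooth, fun z v => by
    rw [lap_const_mul hu.smooth]; exact mul_nonneg ha (hu.lap_nonneg z v)⟩

/-- regularised maximum `a + τ h((b-a)/τ)` -/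
noncomputable def rmax (τ : ℝ) (a b : Aff n → ℝ) (z : Aff n) : ℝ :=
  a z + τ * hreg (τ⁻¹ * (b z - a z))

lemma rmax_eq_right {τ : ℝ} (hτ : 0 < τ) {a b : Aff n → ℝ} {z : Aff n} (h : τ ≤ b z - a z) :
    rmax τ a b z = b z := by
  unfold rmax
  rw [hreg_of_one_le]
  · field_simp; ring
  · rw [inv_mul_eq_div, le_div_iff₀ hτ]; linarith

lemma rmax_eq_left {τ : ℝ} (hτ : 0 < τ) {a b : Aff n → ℝ} {z : Aff n} (h : b z - a z ≤ 0) :
    rmax τ a b z = a z + τ * hreg 0 := by
  unfold rmax
  rw [hreg_of_nonpos]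
  exact mul_nonpos_of_nonneg_of_nonpos (inv_nonneg.2 hτ.le) h

lemma SPsh.rmax {τ : ℝ} (hτ : 0 < τ) {a b : Aff n → ℝ} (ha : SPsh a) (hb : SPsh b) :
    SPsh (rmax τ a b) := by
  have hd : ContDiff ℝ ∞ (fun z => b z - a z) := hb.smooth.sub ha.smooth
  have hd2 : ContDiff ℝ ∞ (fun z => τ⁻¹ * (b z - a z)) := contDiff_const.mul hd
  have hc : ContDiff ℝ ∞ (fun z => hreg (τ⁻¹ * (b z - a z))) := hreg_contDiff.comp hd2
  refine ⟨ha.smooth.add (contDiff_const.mul hc), fun z v => ?_⟩
  have e : lap (H36.rmax τ a b) z v = lap a z v + τ * (Real.smoothTransition (τ⁻¹ * (b z - a z)) *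
      (τ⁻¹ * (lap b z v - lap a z v)) +
        deriv Real.smoothTransition (τ⁻¹ * (b z - a z)) *
        (dv v (fun z => τ⁻¹ * (b z - a z)) z ^ 2 + dv (I • v) (fun z => τ⁻¹ * (b z - a z)) z ^ 2)) := by
    have h1 : lap (H36.rmax τ a b) z v =
        lap (fun z => a z + τ * hreg (τ⁻¹ * (b z - a z))) z v := rfl
    rw [h1, lap_add ha.smooth (contDiff_const.mul hc), lap_const_mul hc,
      lap_comp hreg_contDiff hd2, deriv_hreg, lap_const_mul hd, lap_sub hb.smooth ha.smooth]
  rw [e]
  have h2 : 0 ≤ deriv Real.smoothTransition (τ⁻¹ * (b z - a z)) :=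
    Real.smoothTransition.monotone.deriv_nonneg
  have h3 := Real.smoothTransition.nonneg (τ⁻¹ * (b z - a z))
  have h4 := Real.smoothTransition.le_one (τ⁻¹ * (b z - a z))
  set s := Real.smoothTransition (τ⁻¹ * (b z - a z)) with hs
  set q := dv v (fun z => τ⁻¹ * (b z - a z)) z ^ 2 + dv (I • v) (fun z => τ⁻¹ * (b z - a z)) z ^ 2
    with hq
  have hq0 : 0 ≤ q := by positivity
  have e2 : lap a z v + τ * (s * (τ⁻¹ * (lap b z v - lap a z v)) +
      deriv Real.smoothTransition (τ⁻¹ * (b z - a z)) * q) =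
      (1 - s) * lap a z v + s * lap b z v +
        τ * (deriv Real.smoothTransition (τ⁻¹ * (b z - a z)) * q) := by
    field_simp
    ring
  rw [e2]
  have h5 := ha.lap_nonneg z v
  have h6 := hb.lap_nonneg z v
  have h7 : 0 ≤ 1 - s := by linarith
  positivity

end Pool.Agent.H36
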