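import Pool.Agent.H36.Glue

/-! The sub-mean value property of smooth functions and the Levi form. -/

open MeasureTheory Filter Topology Complex Set
open scoped ContDiff ComplexOrder ComplexConjugate Interval

namespace Pool.Agent.H36

lemma hasDerivAt_param {G G' : ℝ → ℝ → ℝ} (hG : Continuous (Function.uncurry G))
    (hG' : Continuous (Function.uncurry G'))
    (hd : ∀ r θ, HasDerivAt (fun r => G r θ) (G' r θ) r) (a b r : ℝ) :
    HasDerivAt (fun r => ∫ θ in a..b, G r θ) (∫ θ in a..b, G' r θ) r := by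
  obtain ⟨C, hC⟩ := ((isCompact_Icc (a := r - 1) (b := r + 1)).prod
    (isCompact_uIcc (a := a) (b := b))).exists_bound_of_continuousOn hG'.continuousOn
  have h := intervalIntegral.hasDerivAt_integral_of_dominated_loc_of_deriv_le (μ := volume)
    (F := G) (F' := G') (x₀ := r) (s := Icc (r - 1) (r + 1)) (a := a) (b := b) (bound := fun _ => C)
    (Icc_mem_nhds (by linarith) (by linarith))
    (Eventually.of_forall fun x => ((hG.comp (Continuous.prodMk_right x)).aestronglyMeasurable))
    ((hG.comp (Continuous.prodMk_right r)).intervalIntegrable a b)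
    ((hG'.comp (Continuous.prodMk_right r)).aestronglyMeasurable)
    (Eventually.of_forall fun t ht x hx => hC (x, t) ⟨hx, uIoc_subset_uIcc ht⟩)
    (intervalIntegrable_const)
    (Eventually.of_forall fun t _ x _ => hd x t)
  exact h.2

variable {n : ℕ}

/-- the point `z + r e^{iθ} w` -/
noncomputable def cpt (z w : Aff n) (r θ : ℝ) : Aff n := z + r • (Complex.exp (θ * I) • w)

/-- the vector `e^{iθ} w` -/
noncomputable def cvec (w : Aff n) (θ : ℝ) : Aff n := Complex.exp (θ * I) • w

lemma cvec_cont (w : Aff n) : Continuous (cvec w) := by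
  unfold cvec; fun_prop

lemma cpt_cont (z w : Aff n) : Continuous (Function.uncurry (cpt z w)) := by
  unfold cpt Function.uncurry
  fun_prop

lemma cvec_hasDerivAt (w : Aff n) (θ : ℝ) : HasDerivAt (cvec w) (I • cvec w θ) θ := by
  have h1 : HasDerivAt (fun θ : ℝ => Complex.exp (θ * I)) (Complex.exp (θ * I) * I) θ := by
    have h2 : HasDerivAt (fun θ : ℝ => (θ : ℂ) * I) I θ := by
      simpa using (Complex.ofRealCLM.hasDerivAt (x := θ)).mul_const I
    exact h2.cexp
  have h3 := h1.smul_const w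
  unfold cvec
  rw [smul_smul, mul_comm I]
  exact h3

lemma cpt_hasDerivAt_r (z w : Aff n) (r θ : ℝ) : HasDerivAt (fun r => cpt z w r θ) (cvec w θ) r := by
  unfold cpt cvec
  have := ((hasDerivAt_id r).smul_const (Complex.exp (θ * I) • w)).const_add z
  simpa using this

lemma cpt_hasDerivAt_θ (z w : Aff n) (r θ : ℝ) :
    HasDerivAt (fun θ => cpt z w r θ) (r • (I • cvec w θ)) θ := by
  have := ((cvec_hasDerivAt w θ).const_smul r).const_add z
  exact this

lemma lap_csmul {u : Aff n → ℝ} (hu : ContDiff ℝ ∞ u) (z v : Aff n) (a : ℂ) :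
    lap u z (a • v) = ‖a‖ ^ 2 * lap u z v := by
  rw [lap_eq hu, lap_eq hu]
  set B := fderiv ℝ (fderiv ℝ u) z with hB
  have hsym : ∀ v w, B v w = B w v := fun v w => snd_symm hu z v w
  rw [csmul_eq a v]
  have e : (I : ℂ) • (a.re • v + a.im • (I • v)) = a.re • (I • v) - a.im • v := by
    rw [smul_add, smul_comm I a.re v, smul_comm I a.im, I_smul_I_smul]
    simp [sub_eq_add_neg]
  rw [e]
  simp only [map_add, map_sub, map_smul, add_apply, sub_apply, smul_apply, smul_eq_mul]
  rw [hsym (I • v) v, ← Complex.normSq_eq_norm_sq, Complex.normSq_apply]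
  ring

lemma norm_exp_I (θ : ℝ) : ‖Complex.exp (θ * I)‖ = 1 := Complex.norm_exp_ofReal_mul_I θ

section
variable {u : Aff n → ℝ} (hu : ContDiff ℝ ∞ u) (z w : Aff n)

include hu

/-- derivative of the circle integral -/
lemma circ_deriv (r : ℝ) :
    HasDerivAt (fun r => ∫ θ in (0:ℝ)..(2 * Real.pi), u (cpt z w r θ))
      (∫ θ in (0:ℝ)..(2 * Real.pi), fderiv ℝ u (cpt z w r θ) (cvec w θ)) r := by
  have h1 : Continuous (fderiv ℝ u) := (hu.fderiv_right (m := ∞) (by simp)).continuous
  refine hasDerivAt_param (G := fun r θ => u (cpt z w r θ))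
    (G' := fun r θ => fderiv ℝ u (cpt z w r θ) (cvec w θ)) ?_ ?_ ?_ _ _ _
  · exact hu.continuous.comp (cpt_cont z w)
  · have : Function.uncurry (fun r θ => fderiv ℝ u (cpt z w r θ) (cvec w θ)) =
      fun p : ℝ × ℝ => fderiv ℝ u (Function.uncurry (cpt z w) p) (cvec w p.2) := by
      funext p; rfl
    rw [this]
    exact (h1.comp (cpt_cont z w)).clm_apply ((cvec_cont w).comp continuous_snd)
  · intro r θ
    exact (diffAt hu _).hasFDerivAt.comp_hasDerivAt r (cpt_hasDerivAt_r z w r θ)

lemma fderiv_comp_hasDerivAt {γ : ℝ → Aff n} {γ' : Aff n} {v : ℝ → Aff n} {v' : Aff n} {t : ℝ}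
    (hγ : HasDerivAt γ γ' t) (hv : HasDerivAt v v' t) :
    HasDerivAt (fun t => fderiv ℝ u (γ t) (v t))
      (fderiv ℝ (fderiv ℝ u) (γ t) γ' (v t) + fderiv ℝ u (γ t) v') t := by
  have h1 : ContDiff ℝ ∞ (fderiv ℝ u) := hu.fderiv_right (m := ∞) (by simp)
  have h2 : HasDerivAt (fun t => fderiv ℝ u (γ t)) (fderiv ℝ (fderiv ℝ u) (γ t) γ') t :=
    (diffAt h1 _).hasFDerivAt.comp_hasDerivAt t hγ
  exact h2.clm_apply hv

/-- `r ↦ r B'(r)` has derivative `r ∫ lap`. -/
lemma circ_deriv2 (r : ℝ) :
    HasDerivAt (fun r => r * ∫ θ in (0:ℝ)..(2 * Real.pi), fderiv ℝ u (cpt z w r θ) (cvec w θ))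
      (r * ∫ θ in (0:ℝ)..(2 * Real.pi), lap u (cpt z w r θ) w) r := by
  have h1 : Continuous (fderiv ℝ u) := (hu.fderiv_right (m := ∞) (by simp)).continuous
  have h1' : ContDiff ℝ ∞ (fderiv ℝ u) := (hu.fderiv_right (m := ∞) (by simp))
  have h2 : Continuous (fderiv ℝ (fderiv ℝ u)) := (h1'.fderiv_right (m := ∞) (by simp)).continuous
  have hPc : Continuous (Function.uncurry fun r θ => fderiv ℝ u (cpt z w r θ) (cvec w θ)) := by
    have : Function.uncurry (fun r θ => fderiv ℝ u (cpt z w r θ) (cvec w θ)) =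
      fun p : ℝ × ℝ => fderiv ℝ u (Function.uncurry (cpt z w) p) (cvec w p.2) := by
      funext p; rfl
    rw [this]
    exact (h1.comp (cpt_cont z w)).clm_apply ((cvec_cont w).comp continuous_snd)
  have hHc : Continuous (Function.uncurry fun r θ =>
      fderiv ℝ (fderiv ℝ u) (cpt z w r θ) (cvec w θ) (cvec w θ)) := by
    have : (Function.uncurry fun r θ =>
      fderiv ℝ (fderiv ℝ u) (cpt z w r θ) (cvec w θ) (cvec w θ)) =
      fun p : ℝ × ℝ => fderiv ℝ (fderiv ℝ u) (Function.uncurry (cpt z w) p) (cvec w p.2)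
        (cvec w p.2) := by
      funext p; rfl
    rw [this]
    exact ((h2.comp (cpt_cont z w)).clm_apply ((cvec_cont w).comp continuous_snd)).clm_apply
      ((cvec_cont w).comp continuous_snd)
  have hd1 : HasDerivAt (fun r => ∫ θ in (0:ℝ)..(2 * Real.pi),
      fderiv ℝ u (cpt z w r θ) (cvec w θ))
      (∫ θ in (0:ℝ)..(2 * Real.pi),
        fderiv ℝ (fderiv ℝ u) (cpt z w r θ) (cvec w θ) (cvec w θ)) r := by
    refine hasDerivAt_param hPc hHc ?_ _ _ _
    intro r θ
    have := fderiv_comp_hasDerivAt hu (cpt_hasDerivAt_r z w r θ) (hasDerivAt_const r (cvec w θ))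
    simpa using this
  have hd2 := (hasDerivAt_id r).mul hd1
  -- the periodic identity
  have hper : ∫ θ in (0:ℝ)..(2 * Real.pi),
      (r * fderiv ℝ (fderiv ℝ u) (cpt z w r θ) (I • cvec w θ) (I • cvec w θ)
        - fderiv ℝ u (cpt z w r θ) (cvec w θ)) = 0 := by
    have hIc : Continuous fun θ => I • cvec w θ := (cvec_cont w).const_smul I
    have hcr : Continuous fun θ => cpt z w r θ := (cpt_cont z w).comp (Continuous.prodMk_right r)
    have hF : ∀ θ : ℝ, HasDerivAt (fun θ => fderiv ℝ u (cpt z w r θ) (I • cvec w θ))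
        (r * fderiv ℝ (fderiv ℝ u) (cpt z w r θ) (I • cvec w θ) (I • cvec w θ)
        - fderiv ℝ u (cpt z w r θ) (cvec w θ)) θ := by
      intro θ
      have hv : HasDerivAt (fun θ => I • cvec w θ) (I • (I • cvec w θ)) θ :=
        (cvec_hasDerivAt w θ).const_smul I
      have := fderiv_comp_hasDerivAt hu (cpt_hasDerivAt_θ z w r θ) hv
      convert! this using 1
      have e4 : fderiv ℝ (fderiv ℝ u) (cpt z w r θ) (r • (I • cvec w θ)) (I • cvec w θ) =
          r * fderiv ℝ (fderiv ℝ u) (cpt z w r θ) (I • cvec w θ) (I • cvec w θ) := by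
        rw [(fderiv ℝ (fderiv ℝ u) (cpt z w r θ)).map_smul r, smul_apply, smul_eq_mul]
      rw [I_smul_I_smul, map_neg, e4, sub_eq_add_neg]
    rw [intervalIntegral.integral_eq_sub_of_hasDerivAt (fun θ _ => hF θ)]
    · have e1 : cvec w (2 * Real.pi) = cvec w 0 := by
        unfold cvec
        congr 1
        push_cast
        rw [Complex.exp_two_pi_mul_I]
        simp
      have e2 : cpt z w r (2 * Real.pi) = cpt z w r 0 := by
        have e3 : ∀ θ, cpt z w r θ = z + r • cvec w θ := fun θ => rfl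
        rw [e3, e3, e1]
      rw [e1, e2, sub_self]
    · apply Continuous.intervalIntegrable
      apply Continuous.sub
      · exact continuous_const.mul (((h2.comp hcr).clm_apply hIc).clm_apply hIc)
      · exact (h1.comp hcr).clm_apply (cvec_cont w)
  have hIc : Continuous fun θ => I • cvec w θ := (cvec_cont w).const_smul I
  have hcr : Continuous fun θ => cpt z w r θ := (cpt_cont z w).comp (Continuous.prodMk_right r)
  have i1 : IntervalIntegrable (fun θ => r * fderiv ℝ (fderiv ℝ u) (cpt z w r θ) (I • cvec w θ)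
      (I • cvec w θ)) volume 0 (2 * Real.pi) :=
    (continuous_const.mul (((h2.comp hcr).clm_apply hIc).clm_apply hIc)).intervalIntegrable _ _
  have i2 : IntervalIntegrable (fun θ => fderiv ℝ u (cpt z w r θ) (cvec w θ)) volume 0
      (2 * Real.pi) := ((h1.comp hcr).clm_apply (cvec_cont w)).intervalIntegrable _ _
  have i3 : IntervalIntegrable (fun θ => fderiv ℝ (fderiv ℝ u) (cpt z w r θ) (cvec w θ)
      (cvec w θ)) volume 0 (2 * Real.pi) :=
    (((h2.comp hcr).clm_apply (cvec_cont w)).clm_apply (cvec_cont w)).intervalIntegrable _ _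
  rw [intervalIntegral.integral_sub i1 i2, intervalIntegral.integral_const_mul] at hper
  have hlap : ∀ θ, lap u (cpt z w r θ) w =
      fderiv ℝ (fderiv ℝ u) (cpt z w r θ) (cvec w θ) (cvec w θ) +
      fderiv ℝ (fderiv ℝ u) (cpt z w r θ) (I • cvec w θ) (I • cvec w θ) := by
    intro θ
    rw [← lap_eq hu]
    unfold cvec
    rw [lap_csmul hu, norm_exp_I]
    ring
  have hsum : ∫ θ in (0:ℝ)..(2 * Real.pi), lap u (cpt z w r θ) w =
      (∫ θ in (0:ℝ)..(2 * Real.pi),
        fderiv ℝ (fderiv ℝ u) (cpt z w r θ) (cvec w θ) (cvec w θ)) +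
      ∫ θ in (0:ℝ)..(2 * Real.pi),
        fderiv ℝ (fderiv ℝ u) (cpt z w r θ) (I • cvec w θ) (I • cvec w θ) := by
    simp_rw [hlap]
    rw [intervalIntegral.integral_add i3]
    exact (((h2.comp hcr).clm_apply hIc).clm_apply hIc).intervalIntegrable _ _
  convert! hd2 using 1
  rw [hsum]
  simp only [id]
  linarith

end

/-- the circle integral is the circle average up to `2π` -/
lemma circ_eq (u : Aff n → ℝ) (z w : Aff n) (r : ℝ) :
    Real.circleAverage (fun ζ : ℂ => u (z + ζ • w)) 0 r =
      (2 * Real.pi)⁻¹ * ∫ θ in (0:ℝ)..(2 * Real.pi), u (cpt z w r θ) := by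
  unfold Real.circleAverage cpt circleMap
  simp only [zero_add, smul_eq_mul]
  congr 1
  apply intervalIntegral.integral_congr
  intro θ _
  simp only
  congr 2
  rw [mul_smul]
  simp

/-- Smooth functions with nonnegative Levi form satisfy the sub-mean value inequality. -/
theorem submean_of_lap {u : Aff n → ℝ} (hu : SPsh u) (z w : Aff n) :
    u z ≤ Real.circleAverage (fun ζ : ℂ => u (z + ζ • w)) 0 1 := by
  set B : ℝ → ℝ := fun r => ∫ θ in (0:ℝ)..(2 * Real.pi), u (cpt z w r θ) with hB
  set P : ℝ → ℝ := fun r => ∫ θ in (0:ℝ)..(2 * Real.pi),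
    fderiv ℝ u (cpt z w r θ) (cvec w θ) with hP
  have hQ : ∀ r, 0 ≤ r → 0 ≤ r * P r := by
    intro r hr
    have hmono : MonotoneOn (fun r => r * P r) (Ici 0) := by
      apply monotoneOn_of_deriv_nonneg (convex_Ici 0)
      · exact fun r _ => (circ_deriv2 hu.smooth z w r).continuousAt.continuousWithinAt
      · exact fun r _ => (circ_deriv2 hu.smooth z w r).differentiableAt.differentiableWithinAt
      · intro r hr
        rw [interior_Ici] at hr
        rw [(circ_deriv2 hu.smooth z w r).deriv]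
        apply mul_nonneg (le_of_lt hr)
        apply intervalIntegral.integral_nonneg (by positivity)
        intro θ _
        exact hu.lap_nonneg _ _
    have := hmono (mem_Ici.2 le_rfl) (mem_Ici.2 hr) hr
    simpa using this
  have hBmono : MonotoneOn B (Ici 0) := by
    apply monotoneOn_of_deriv_nonneg (convex_Ici 0)
    · exact fun r _ => (circ_deriv hu.smooth z w r).continuousAt.continuousWithinAt
    · exact fun r _ => (circ_deriv hu.smooth z w r).differentiableAt.differentiableWithinAt
    · intro r hr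
      rw [interior_Ici] at hr
      rw [(circ_deriv hu.smooth z w r).deriv]
      have hr' : 0 < r := hr
      have := hQ r hr'.le
      exact nonneg_of_mul_nonneg_right this hr'
  have h01 := hBmono (mem_Ici.2 le_rfl) (mem_Ici.2 zero_le_one) zero_le_one
  rw [circ_eq]
  have h0 : B 0 = (2 * Real.pi) * u z := by
    simp only [hB]
    have : ∀ θ, cpt z w 0 θ = z := by intro θ; simp [cpt]
    simp_rw [this]
    simp
  rw [h0] at h01
  rw [le_inv_mul_iff₀ (by positivity)]
  exact h01

/-- The converse. -/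
theorem lap_of_submean {u : Aff n → ℝ} (hu : ContDiff ℝ ∞ u)
    (h : ∀ z w, u z ≤ Real.circleAverage (fun ζ : ℂ => u (z + ζ • w)) 0 1) : SPsh u := by
  refine ⟨hu, fun z v => ?_⟩
  by_contra hneg
  push Not at hneg
  -- the Levi form is negative nearby
  have hlapc : Continuous fun y => lap u y v := by
    unfold lap
    exact (dv_contDiff (dv_contDiff hu _) _).continuous.add
      (dv_contDiff (dv_contDiff hu _) _).continuous
  have hev : ∀ᶠ y in 𝓝 z, lap u y v < 0 := hlapc.continuousAt.eventually (gt_mem_nhds hneg)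
  obtain ⟨δ, hδ, hball⟩ := Metric.eventually_nhds_iff_ball.1 hev
  obtain ⟨ε, hε, hεv⟩ : ∃ ε : ℝ, 0 < ε ∧ ε * ‖v‖ < δ := by
    refine ⟨δ / (2 * (‖v‖ + 1)), by positivity, ?_⟩
    have hv : 0 ≤ ‖v‖ := norm_nonneg v
    rw [div_mul_eq_mul_div, div_lt_iff₀ (by positivity)]
    nlinarith
  have hin : ∀ r ∈ Icc 0 ε, ∀ θ, lap u (cpt z v r θ) v < 0 := by
    intro r hr θ
    apply hball
    rw [Metric.mem_ball, dist_eq_norm]
    have e : cpt z v r θ - z = r • cvec v θ := by unfold cpt cvec; simp
    rw [e, norm_smul]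
    unfold cvec
    rw [norm_smul, norm_exp_I, one_mul, Real.norm_eq_abs, abs_of_nonneg hr.1]
    calc r * ‖v‖ ≤ ε * ‖v‖ := by gcongr; exact hr.2
    _ < δ := hεv
  set B : ℝ → ℝ := fun r => ∫ θ in (0:ℝ)..(2 * Real.pi), u (cpt z v r θ) with hB
  set P : ℝ → ℝ := fun r => ∫ θ in (0:ℝ)..(2 * Real.pi),
    fderiv ℝ u (cpt z v r θ) (cvec v θ) with hP
  have hQanti : StrictAntiOn (fun r => r * P r) (Icc 0 ε) := by
    apply strictAntiOn_of_deriv_neg (convex_Icc 0 ε)
    · exact fun r _ => (circ_deriv2 hu z v r).continuousAt.continuousWithinAt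
    · intro r hr
      rw [interior_Icc] at hr
      rw [(circ_deriv2 hu z v r).deriv]
      apply mul_neg_of_pos_of_neg hr.1
      have hcr : Continuous fun θ => cpt z v r θ := (cpt_cont z v).comp (Continuous.prodMk_right r)
      have hneg2 : 0 < ∫ θ in (0:ℝ)..(2 * Real.pi), - lap u (cpt z v r θ) v := by
        apply intervalIntegral.intervalIntegral_pos_of_pos_on
        · exact ((hlapc.comp hcr).neg).intervalIntegrable _ _
        · intro θ _
          have := hin r ⟨hr.1.le, hr.2.le⟩ θ
          linarith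
        · positivity
      rw [intervalIntegral.integral_neg] at hneg2
      linarith
  have hBanti : StrictAntiOn B (Icc 0 ε) := by
    apply strictAntiOn_of_deriv_neg (convex_Icc 0 ε)
    · exact fun r _ => (circ_deriv hu z v r).continuousAt.continuousWithinAt
    · intro r hr
      rw [interior_Icc] at hr
      rw [(circ_deriv hu z v r).deriv]
      have h1 := hQanti (left_mem_Icc.2 hε.le) ⟨hr.1.le, hr.2.le⟩ hr.1
      simp only [zero_mul] at h1
      have hr0 : 0 < r := hr.1
      by_contra hcon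
      push Not at hcon
      have : 0 ≤ r * P r := mul_nonneg hr0.le hcon
      linarith
  have h01 := hBanti (left_mem_Icc.2 hε.le) (right_mem_Icc.2 hε.le) hε
  have h0 : B 0 = (2 * Real.pi) * u z := by
    simp only [hB]
    have : ∀ θ, cpt z v 0 θ = z := by intro θ; simp [cpt]
    simp_rw [this]
    simp
  have h2 := h z (ε • v)
  have e1 : Real.circleAverage (fun ζ : ℂ => u (z + ζ • (ε • v))) 0 1 = (2 * Real.pi)⁻¹ * B ε := by
    rw [circ_eq u z (ε • v) 1]
    congr 1
    simp only [hB]
    apply intervalIntegral.integral_congr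
    intro θ _
    simp only
    congr 1
    unfold cpt
    rw [one_smul, smul_comm]
  rw [e1, le_inv_mul_iff₀ (by positivity)] at h2
  rw [h0] at h01
  linarith

end Pool.Agent.H36
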