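import Pool.Agent.H36.RegMax

/-! Comparison of total Monge-Ampère masses on `ℂⁿ`. -/

open MeasureTheory Filter Topology Complex Set
open scoped ContDiff ComplexOrder

namespace Pool.Agent.H36

variable {n : ℕ}

/-- The measure `det(∂²u/∂z_j∂z̄_k) dλ` on `ℂⁿ`. -/
noncomputable def maLoc (u : Aff n → ℝ) : Measure (Aff n) :=
  volume.withDensity fun z => ENNReal.ofReal (levi u z).det.re

lemma det_re_continuous {u : Aff n → ℝ} (hu : ContDiff ℝ ∞ u) :
    Continuous fun z => (levi u z).det.re :=
  Complex.continuous_re.comp (det_levi_continuous hu)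

lemma SPsh.posSemidef {u : Aff n → ℝ} (hu : SPsh u) (z : Aff n) : (levi u z).PosSemidef :=
  levi_posSemidef hu.smooth (hu.lap_nonneg z)

lemma SPsh.det_nonneg {u : Aff n → ℝ} (hu : SPsh u) (z : Aff n) : 0 ≤ (levi u z).det.re :=
  det_re_nonneg (hu.posSemidef z)

lemma maLoc_apply (u : Aff n → ℝ) {S : Set (Aff n)} (hS : MeasurableSet S) :
    maLoc u S = ∫⁻ z in S, ENNReal.ofReal (levi u z).det.re := withDensity_apply _ hS

lemma maLoc_congr {u w : Aff n → ℝ} {S : Set (Aff n)} (hS : MeasurableSet S)
    (h : ∀ z ∈ S, levi u z = levi w z) : maLoc u S = maLoc w S := by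
  rw [maLoc_apply _ hS, maLoc_apply _ hS]
  refine setLIntegral_congr_fun hS fun z hz => ?_
  simp only [h z hz]

/-- Changing a smooth psh function on a compact set does not change the total mass. -/
theorem maLoc_univ_eq_of_compact {u w : Aff n → ℝ} (hu : SPsh u) (hw : SPsh w)
    (hc : HasCompactSupport fun z => w z - u z) : maLoc w univ = maLoc u univ := by
  set g : Aff n → ℝ := fun z => w z - u z with hg
  have hgs : ContDiff ℝ ∞ g := hw.smooth.sub hu.smooth
  have key := integral_det_levi_add hu.smooth hgs hc
  have e1 : (fun z => u z + g z) = w := by funext z; simp [hg]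
  rw [e1] at key
  set K := tsupport g with hK
  have hKc : IsCompact K := hc
  have hKm : MeasurableSet K := hKc.isClosed.measurableSet
  have hout : ∀ z ∉ K, levi w z = levi u z := by
    intro z hz
    apply levi_congr
    have : g =ᶠ[𝓝 z] 0 := notMem_tsupport_iff_eventuallyEq.1 hz
    filter_upwards [this] with y hy
    simp only [hg, Pi.zero_apply] at hy
    linarith
  have h1 : maLoc w Kᶜ = maLoc u Kᶜ := maLoc_congr hKm.compl fun z hz => hout z hz
  have hiw : IntegrableOn (fun z => (levi w z).det.re) K :=
    (det_re_continuous hw.smooth).continuousOn.integrableOn_compact hKc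
  have hiu : IntegrableOn (fun z => (levi u z).det.re) K :=
    (det_re_continuous hu.smooth).continuousOn.integrableOn_compact hKc
  have h2 : ∫ z in K, (levi w z).det.re = ∫ z in K, (levi u z).det.re := by
    have h3 : ∫ z in K, ((levi w z).det - (levi u z).det) = 0 := by
      rw [setIntegral_eq_integral_of_forall_compl_eq_zero]
      · exact key
      · intro z hz
        rw [hout z hz, sub_self]
    have hint : IntegrableOn (fun z => (levi w z).det - (levi u z).det) K :=
      ((det_levi_continuous hw.smooth).sub (det_levi_continuous hu.smooth)).continuousOn.integrableOn_compact hKc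
    have h4 : ∫ z in K, ((levi w z).det - (levi u z).det).re = 0 := by
      have := integral_re (𝕜 := ℂ) hint
      simp only [RCLike.re_to_complex] at this
      rw [this, h3]; simp
    simp only [Complex.sub_re] at h4
    rw [integral_sub hiw hiu] at h4
    linarith
  have h5 : maLoc w K = maLoc u K := by
    rw [maLoc_apply _ hKm, maLoc_apply _ hKm,
      ← ofReal_integral_eq_lintegral_ofReal hiw (ae_of_all _ fun z => hw.det_nonneg z),
      ← ofReal_integral_eq_lintegral_ofReal hiu (ae_of_all _ fun z => hu.det_nonneg z), h2]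
  rw [← measure_add_measure_compl hKm (μ := maLoc w), ← measure_add_measure_compl hKm (μ := maLoc u),
    h1, h5]

lemma levi_scale {v : Aff n → ℝ} (hv : ContDiff ℝ ∞ v) (a c : ℝ) (z : Aff n) :
    levi (fun z => a * v z + c) z = (a : ℂ) • levi v z := by
  rw [levi_add (contDiff_const.mul hv) contDiff_const, levi_const_mul hv, levi_const, add_zero]

lemma det_levi_scale {v : Aff n → ℝ} (hv : ContDiff ℝ ∞ v) (a c : ℝ) (z : Aff n) :
    (levi (fun z => a * v z + c) z).det.re = a ^ n * (levi v z).det.re := by
  rw [levi_scale hv, Matrix.det_smul]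
  simp only [Fintype.card_fin]
  rw [← Complex.ofReal_pow, Complex.re_ofReal_mul]

lemma maLoc_scale {v : Aff n → ℝ} (hv : ContDiff ℝ ∞ v) {a : ℝ} (ha : 0 ≤ a) (c : ℝ)
    {S : Set (Aff n)} (hS : MeasurableSet S) :
    maLoc (fun z => a * v z + c) S = ENNReal.ofReal (a ^ n) * maLoc v S := by
  rw [maLoc_apply _ hS, maLoc_apply _ hS, ← lintegral_const_mul' _ _ ENNReal.ofReal_ne_top]
  refine lintegral_congr fun z => ?_
  rw [det_levi_scale hv, ENNReal.ofReal_mul (pow_nonneg ha n)]

/-- Comparison: if `u ≤ v + K` and `v` is an exhaustion then `u` has at most the mass of `v`. -/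
theorem maLoc_le_of_le {u v : Aff n → ℝ} (hu : SPsh u) (hv : SPsh v) (K : ℝ)
    (h : ∀ z, u z ≤ v z + K) (hv_top : Tendsto v (cocompact (Aff n)) atTop) :
    maLoc u univ ≤ maLoc v univ := by
  -- first with a factor
  have step : ∀ ε : ℝ, 0 < ε → maLoc u univ ≤ ENNReal.ofReal ((1 + ε) ^ n) * maLoc v univ := by
    intro ε hε
    have hcover : (univ : Set (Aff n)) = ⋃ R : ℕ, Metric.ball (0 : Aff n) R := by
      symm; exact Metric.iUnion_ball_nat 0
    have hmono : Monotone fun R : ℕ => Metric.ball (0 : Aff n) R := fun a b hab =>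
      Metric.ball_subset_ball (by exact_mod_cast hab)
    have hsup : maLoc u univ = ⨆ R : ℕ, maLoc u (Metric.ball (0 : Aff n) R) := by
      conv_lhs => rw [hcover]
      exact hmono.measure_iUnion
    rw [hsup]
    refine iSup_le fun R => ?_
    -- choose L
    have hcont : Continuous fun z => u z - (1 + ε) * v z :=
      hu.smooth.continuous.sub (continuous_const.mul hv.smooth.continuous)
    obtain ⟨B, hB⟩ := (isCompact_closedBall (0 : Aff n) (R:ℝ)).exists_bound_of_continuousOn
      hcont.continuousOn
    set L : ℝ := B + 1 with hL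
    set a : Aff n → ℝ := fun z => (1 + ε) * v z + (-L) with ha
    have haS : SPsh a := (hv.const_mul (by linarith)).add_const _
    set w := rmax 1 a u with hw
    have hwS : SPsh w := SPsh.rmax one_pos haS hu
    have hball : maLoc u (Metric.ball (0 : Aff n) R) = maLoc w (Metric.ball (0 : Aff n) R) := by
      refine maLoc_congr measurableSet_ball fun z hz => ?_
      apply levi_congr
      filter_upwards [Metric.isOpen_ball.mem_nhds hz] with y hy
      rw [hw, rmax_eq_right one_pos]
      have h1 := hB y (Metric.ball_subset_closedBall hy)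
      rw [Real.norm_eq_abs, abs_le] at h1
      simp only [ha, hL]
      linarith [h1.1]
    have hcs : HasCompactSupport fun z => w z - (a z + 1 * hreg 0) := by
      rw [hasCompactSupport_iff_eventuallyEq]
      have h1 : ∀ᶠ z in cocompact (Aff n), (K + L) / ε ≤ v z :=
        hv_top.eventually (eventually_ge_atTop _)
      rw [coclosedCompact_eq_cocompact]
      filter_upwards [h1] with z hz
      rw [hw, rmax_eq_left one_pos]
      · simp
      · rw [div_le_iff₀ hε] at hz
        have := h z
        simp only [ha]
        nlinarith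
    have haS' : SPsh (fun z => a z + 1 * hreg 0) := haS.add_const _
    calc maLoc u (Metric.ball (0 : Aff n) R) = maLoc w (Metric.ball (0 : Aff n) R) := hball
    _ ≤ maLoc w univ := measure_mono (subset_univ _)
    _ = maLoc (fun z => a z + 1 * hreg 0) univ := maLoc_univ_eq_of_compact haS' hwS hcs
    _ = maLoc (fun z => (1 + ε) * v z + (-L + 1 * hreg 0)) univ := by
        congr 2; funext z; simp only [ha]; ring
    _ = ENNReal.ofReal ((1 + ε) ^ n) * maLoc v univ :=
        maLoc_scale hv.smooth (by linarith) _ MeasurableSet.univ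
  by_cases htop : maLoc v univ = ⊤
  · rw [htop]; exact le_top
  · have hlim : Tendsto (fun ε : ℝ => ENNReal.ofReal ((1 + ε) ^ n) * maLoc v univ) (𝓝[>] 0)
        (𝓝 (ENNReal.ofReal ((1 + 0) ^ n) * maLoc v univ)) := by
      apply ENNReal.Tendsto.mul_const
      · apply ENNReal.tendsto_ofReal
        have : Continuous fun ε : ℝ => (1 + ε) ^ n := by fun_prop
        exact (this.tendsto 0).mono_left nhdsWithin_le_nhds
      · right; exact htop
    have := ge_of_tendsto hlim (by
      filter_upwards [self_mem_nhdsWithin] with ε hε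
      exact step ε hε)
    simpa using this

lemma fsPot_tendsto : Tendsto (fsPot (n := n)) (cocompact (Aff n)) atTop := by
  unfold fsPot
  have h1 : Tendsto (fun z : Aff n => ‖z‖) (cocompact (Aff n)) atTop := tendsto_norm_cocompact_atTop
  have h2 : Tendsto (fun z : Aff n => 1 + ‖z‖ ^ 2) (cocompact (Aff n)) atTop :=
    tendsto_atTop_add_const_left _ _ ((tendsto_pow_atTop two_ne_zero).comp h1)
  exact (Real.tendsto_log_atTop.comp h2).const_mul_atTop (by norm_num)

/-- Two smooth psh functions at bounded distance from `½ log(1+|z|²)` have the same mass. -/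
theorem maLoc_univ_eq {u v : Aff n → ℝ} (hu : SPsh u) (hv : SPsh v) (K : ℝ)
    (h1 : ∀ z, |u z - fsPot z| ≤ K) (h2 : ∀ z, |v z - fsPot z| ≤ K) :
    maLoc u univ = maLoc v univ := by
  have aux : ∀ {a : Aff n → ℝ}, (∀ z, |a z - fsPot z| ≤ K) →
      Tendsto a (cocompact (Aff n)) atTop := by
    intro a ha
    apply tendsto_atTop_mono (f := fun z => fsPot z + (-K))
    · intro z
      have := (abs_le.1 (ha z)).1
      linarith
    · exact tendsto_atTop_add_const_right _ _ fsPot_tendsto
  apply le_antisymm
  · apply maLoc_le_of_le hu hv (2 * K) _ (aux h2)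
    intro z
    have a1 := (abs_le.1 (h1 z)).2
    have a2 := (abs_le.1 (h2 z)).1
    linarith
  · apply maLoc_le_of_le hv hu (2 * K) _ (aux h1)
    intro z
    have a1 := (abs_le.1 (h1 z)).1
    have a2 := (abs_le.1 (h2 z)).2
    linarith

end Pool.Agent.H36
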