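import Pool.Agent.H36.GreenDefs

/-! Wirtinger derivatives on `ℂⁿ`, null Lagrangians and the Levi matrix. -/

open MeasureTheory Filter Topology Complex
open scoped ContDiff

namespace Pool.Agent.H36

lemma two_le_infty : (2 : WithTop ℕ∞) ≤ ∞ := WithTop.coe_le_coe.2 le_top

lemma one_le_infty : (1 : WithTop ℕ∞) ≤ ∞ := WithTop.coe_le_coe.2 le_top

section basics

variable {n : ℕ}

/-- directional derivative -/
noncomputable def dv {F : Type*} [NormedAddCommGroup F] [NormedSpace ℝ F] (v : Aff n) (f : Aff n → F)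
    (z : Aff n) : F := fderiv ℝ f z v

lemma dv_contDiff {F : Type*} [NormedAddCommGroup F] [NormedSpace ℝ F] {f : Aff n → F}
    (hf : ContDiff ℝ ∞ f) (v : Aff n) : ContDiff ℝ ∞ (dv v f) := by
  have h1 : ContDiff ℝ ∞ (fderiv ℝ f) := hf.fderiv_right (m := ∞) (by simp)
  exact h1.clm_apply contDiff_const

lemma dv_dv_eq {F : Type*} [NormedAddCommGroup F] [NormedSpace ℝ F] {f : Aff n → F}
    (hf : ContDiff ℝ ∞ f) (a b z : Aff n) : dv a (dv b f) z = fderiv ℝ (fderiv ℝ f) z a b := by
  have h1 : ContDiff ℝ ∞ (fderiv ℝ f) := hf.fderiv_right (m := ∞) (by simp)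
  have h2 : DifferentiableAt ℝ (fderiv ℝ f) z := (h1.differentiable (by simp)) z
  unfold dv
  rw [fderiv_clm_apply h2 (differentiableAt_const b)]
  simp

lemma dv_comm {F : Type*} [NormedAddCommGroup F] [NormedSpace ℝ F] {f : Aff n → F}
    (hf : ContDiff ℝ ∞ f) (v w : Aff n) : dv v (dv w f) = dv w (dv v f) := by
  funext z
  rw [dv_dv_eq hf, dv_dv_eq hf]
  have hs : IsSymmSndFDerivAt ℝ f z := by
    apply ContDiffAt.isSymmSndFDerivAt (n := ∞) hf.contDiffAt
    simpa using two_le_infty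
  exact hs.eq v w

/-- common generalisation of `dz` and `dzb` -/
noncomputable def wd (c : ℂ) (j : Fin n) (f : Aff n → ℂ) (z : Aff n) : ℂ :=
  (dv (bas j) f z + c * dv (I • bas j) f z) / 2

lemma dz_eq_wd (j : Fin n) (f : Aff n → ℂ) : dz j f = wd (-I) j f := by
  funext z; simp [dz, wd, dv]; ring

lemma dzb_eq_wd (j : Fin n) (f : Aff n → ℂ) : dzb j f = wd I j f := by
  funext z; simp [dzb, wd, dv]

lemma wd_contDiff {f : Aff n → ℂ} (hf : ContDiff ℝ ∞ f) (c : ℂ) (j : Fin n) :
    ContDiff ℝ ∞ (wd c j f) := by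
  have h1 := dv_contDiff hf (bas j)
  have h2 := dv_contDiff hf (I • bas j)
  exact (h1.add (contDiff_const.mul h2)).div_const 2

lemma diffAt {F : Type*} [NormedAddCommGroup F] [NormedSpace ℝ F] {f : Aff n → F}
    (hf : ContDiff ℝ ∞ f) (z : Aff n) : DifferentiableAt ℝ f z := (hf.differentiable (by simp)) z

lemma dv_comb {f g : Aff n → ℂ} (hf : ContDiff ℝ ∞ f) (hg : ContDiff ℝ ∞ g) (c : ℂ) (v : Aff n) :
    dv v (fun z => (f z + c * g z) / 2) = fun z => (dv v f z + c * dv v g z) / 2 := by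
  funext z
  have h1 : HasFDerivAt (fun z => (f z + c * g z) / 2)
      ((2 : ℂ)⁻¹ • (fderiv ℝ f z + c • fderiv ℝ g z)) z := by
    have h2 := ((diffAt hf z).hasFDerivAt.add ((diffAt hg z).hasFDerivAt.const_mul c)).mul_const
      ((2:ℂ)⁻¹)
    simpa [div_eq_mul_inv] using h2
  unfold dv
  rw [h1.fderiv]
  simp [div_eq_inv_mul]
  ring

lemma wd_comm {f : Aff n → ℂ} (hf : ContDiff ℝ ∞ f) (c c' : ℂ) (j k : Fin n) :
    wd c j (wd c' k f) = wd c' k (wd c j f) := by
  have e1 : ∀ (v : Aff n), dv v (wd c' k f) =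
      fun z => (dv v (dv (bas k) f) z + c' * dv v (dv (I • bas k) f) z) / 2 := fun v =>
    dv_comb (dv_contDiff hf _) (dv_contDiff hf _) c' v
  have e2 : ∀ (v : Aff n), dv v (wd c j f) =
      fun z => (dv v (dv (bas j) f) z + c * dv v (dv (I • bas j) f) z) / 2 := fun v =>
    dv_comb (dv_contDiff hf _) (dv_contDiff hf _) c v
  funext z
  have a : wd c j (wd c' k f) z = (dv (bas j) (wd c' k f) z + c * dv (I • bas j) (wd c' k f) z) / 2 :=
    rfl
  have b : wd c' k (wd c j f) z = (dv (bas k) (wd c j f) z + c' * dv (I • bas k) (wd c j f) z) / 2 :=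
    rfl
  rw [a, b, e1, e1, e2, e2, dv_comm hf (bas k) (bas j), dv_comm hf (bas k) (I • bas j),
    dv_comm hf (I • bas k) (bas j), dv_comm hf (I • bas k) (I • bas j)]
  ring

lemma wd_mul {f g : Aff n → ℂ} (hf : ContDiff ℝ ∞ f) (hg : ContDiff ℝ ∞ g) (c : ℂ) (j : Fin n)
    (z : Aff n) : wd c j (fun w => f w * g w) z = wd c j f z * g z + f z * wd c j g z := by
  have h : ∀ v : Aff n, dv v (fun w => f w * g w) z = dv v f z * g z + f z * dv v g z := by
    intro v
    unfold dv
    have := ((diffAt hf z).hasFDerivAt.mul (diffAt hg z).hasFDerivAt).fderiv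
    have e : (fun w => f w * g w) = f * g := rfl
    rw [e, this]
    simp
    ring
  unfold wd
  rw [h, h]
  ring

lemma wd_prod {ι : Type*} [DecidableEq ι] (s : Finset ι) {F : ι → Aff n → ℂ}
    (hF : ∀ i ∈ s, ContDiff ℝ ∞ (F i)) (c : ℂ) (j : Fin n) (z : Aff n) :
    wd c j (fun w => ∏ i ∈ s, F i w) z = ∑ i ∈ s, (∏ l ∈ s.erase i, F l z) * wd c j (F i) z := by
  have h : ∀ v : Aff n, dv v (fun w => ∏ i ∈ s, F i w) z =
      ∑ i ∈ s, (∏ l ∈ s.erase i, F l z) * dv v (F i) z := by
    intro v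
    unfold dv
    rw [fderiv_finsetProd (fun i hi => diffAt (hF i hi) z)]
    simp
  unfold wd
  rw [h, h, Finset.mul_sum, ← Finset.sum_add_distrib, Finset.sum_div]
  refine Finset.sum_congr rfl fun i _ => ?_
  ring

lemma wd_hasCompactSupport {f : Aff n → ℂ} (hc : HasCompactSupport f) (c : ℂ) (j : Fin n) :
    HasCompactSupport (wd c j f) := by
  have h1 : HasCompactSupport (fderiv ℝ f) := hc.fderiv ℝ
  apply h1.mono
  intro z hz
  simp only [Function.mem_support, ne_eq] at hz ⊢
  intro h0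
  apply hz
  simp [wd, dv, h0]

lemma integral_dv_mul {f g : Aff n → ℂ} (hf : ContDiff ℝ ∞ f) (hg : ContDiff ℝ ∞ g)
    (hc : HasCompactSupport f) (v : Aff n) :
    ∫ z, dv v f z * g z = - ∫ z, f z * dv v g z := by
  have hcv : HasCompactSupport (dv v f) := by
    have h1 : HasCompactSupport (fderiv ℝ f) := hc.fderiv ℝ
    apply h1.mono
    intro z hz
    simp only [Function.mem_support, ne_eq] at hz ⊢
    intro h0
    apply hz
    simp [dv, h0]
  have i1 : Integrable (fun x => (fderiv ℝ f x) v * g x) :=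
    ((dv_contDiff hf v).continuous.mul hg.continuous).integrable_of_hasCompactSupport
      (hcv.mul_right)
  have i2 : Integrable (fun x => f x * (fderiv ℝ g x) v) :=
    (hf.continuous.mul (dv_contDiff hg v).continuous).integrable_of_hasCompactSupport
      (hc.mul_right)
  have i3 : Integrable (fun x => f x * g x) :=
    (hf.continuous.mul hg.continuous).integrable_of_hasCompactSupport (hc.mul_right)
  have := integral_mul_fderiv_eq_neg_fderiv_mul_of_integrable (v := v) i1 i2 i3
    (fun x _ => diffAt hf x) (fun x _ => diffAt hg x)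
  unfold dv
  rw [this, neg_neg]

lemma integral_wd_mul {f g : Aff n → ℂ} (hf : ContDiff ℝ ∞ f) (hg : ContDiff ℝ ∞ g)
    (hc : HasCompactSupport f) (c : ℂ) (j : Fin n) :
    ∫ z, wd c j f z * g z = - ∫ z, f z * wd c j g z := by
  have hcv : ∀ v : Aff n, HasCompactSupport (dv v f) := by
    intro v
    have h1 : HasCompactSupport (fderiv ℝ f) := hc.fderiv ℝ
    apply h1.mono
    intro z hz
    simp only [Function.mem_support, ne_eq] at hz ⊢
    intro h0
    apply hz
    simp [dv, h0]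
  have i1 : ∀ v : Aff n, Integrable (fun x => dv v f x * g x) := fun v =>
    ((dv_contDiff hf v).continuous.mul hg.continuous).integrable_of_hasCompactSupport
      ((hcv v).mul_right)
  have i2 : ∀ v : Aff n, Integrable (fun x => f x * dv v g x) := fun v =>
    (hf.continuous.mul (dv_contDiff hg v).continuous).integrable_of_hasCompactSupport
      (hc.mul_right)
  have e1 : (fun z => wd c j f z * g z) =
      fun z => (2:ℂ)⁻¹ * (dv (bas j) f z * g z) + (c/2) * (dv (I • bas j) f z * g z) := by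
    funext z; unfold wd; ring
  have e2 : (fun z => f z * wd c j g z) =
      fun z => (2:ℂ)⁻¹ * (f z * dv (bas j) g z) + (c/2) * (f z * dv (I • bas j) g z) := by
    funext z; unfold wd; ring
  rw [e1, e2, integral_add ((i1 _).const_mul _) ((i1 _).const_mul _),
    integral_add ((i2 _).const_mul _) ((i2 _).const_mul _), integral_const_mul, integral_const_mul,
    integral_const_mul, integral_const_mul, integral_dv_mul hf hg hc, integral_dv_mul hf hg hc]
  ring

/-- Null Lagrangian: `∫ det (∂f_l/∂z̄_k) = 0` if one of the `f_l` has compact support. -/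
theorem integral_det_wd_eq_zero (c : ℂ) (f : Fin n → Aff n → ℂ) (hf : ∀ l, ContDiff ℝ ∞ (f l))
    (i₀ : Fin n) (hc : HasCompactSupport (f i₀)) :
    ∫ z, (Matrix.of fun l k => wd c k (f l) z).det = 0 := by
  classical
  -- Leibniz expansion along rows
  have hdet : ∀ z, (Matrix.of fun l k => wd c k (f l) z).det =
      ∑ σ : Equiv.Perm (Fin n), ((Equiv.Perm.sign σ : ℤ) : ℂ) *
        (wd c (σ i₀) (f i₀) z * ∏ l ∈ Finset.univ.erase i₀, wd c (σ l) (f l) z) := by
    intro z
    rw [← Matrix.det_transpose, Matrix.det_apply']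
    refine Finset.sum_congr rfl fun σ _ => ?_
    congr 1
    simp only [Matrix.transpose_apply, Matrix.of_apply]
    rw [Finset.mul_prod_erase Finset.univ (fun l => wd c (σ l) (f l) z) (Finset.mem_univ i₀)]
  have hprod : ∀ σ : Equiv.Perm (Fin n),
      ContDiff ℝ ∞ (fun z => ∏ l ∈ Finset.univ.erase i₀, wd c (σ l) (f l) z) := fun σ =>
    contDiff_prod fun l _ => wd_contDiff (hf l) c _
  have hint : ∀ σ : Equiv.Perm (Fin n), Integrable fun z => (wd c (σ i₀) (f i₀) z *
      ∏ l ∈ Finset.univ.erase i₀, wd c (σ l) (f l) z) := fun σ =>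
    ((wd_contDiff (hf i₀) c _).continuous.mul (hprod σ).continuous).integrable_of_hasCompactSupport
      ((wd_hasCompactSupport hc c _).mul_right)
  simp_rw [hdet]
  rw [integral_finsetSum _ (fun σ _ => (hint σ).const_mul _)]
  simp_rw [integral_const_mul]
  have step : ∀ σ : Equiv.Perm (Fin n), ∫ z, (wd c (σ i₀) (f i₀) z *
      ∏ l ∈ Finset.univ.erase i₀, wd c (σ l) (f l) z) =
      - ∑ m ∈ Finset.univ.erase i₀, ∫ z, f i₀ z *
        ((∏ l ∈ (Finset.univ.erase i₀).erase m, wd c (σ l) (f l) z) *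
          wd c (σ i₀) (wd c (σ m) (f m)) z) := by
    intro σ
    rw [integral_wd_mul (hf i₀) (hprod σ) hc]
    congr 1
    have e : ∀ z, f i₀ z * wd c (σ i₀) (fun z => ∏ l ∈ Finset.univ.erase i₀, wd c (σ l) (f l) z) z =
        ∑ m ∈ Finset.univ.erase i₀, f i₀ z *
        ((∏ l ∈ (Finset.univ.erase i₀).erase m, wd c (σ l) (f l) z) *
          wd c (σ i₀) (wd c (σ m) (f m)) z) := by
      intro z
      rw [wd_prod _ (fun l _ => wd_contDiff (hf l) c _), Finset.mul_sum]
    simp_rw [e]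
    rw [integral_finsetSum]
    intro m _
    exact ((hf i₀).continuous.mul ((contDiff_prod fun l _ => wd_contDiff (hf l) c _).mul
      (wd_contDiff (wd_contDiff (hf m) c _) c _)).continuous).integrable_of_hasCompactSupport
      hc.mul_right
  simp_rw [step, mul_neg, Finset.sum_neg_distrib, Finset.mul_sum]
  rw [neg_eq_zero, Finset.sum_comm]
  refine Finset.sum_eq_zero fun m hm => ?_
  have hmi : m ≠ i₀ := Finset.ne_of_mem_erase hm
  -- antisymmetry under composition with the transposition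
  set T : Equiv.Perm (Fin n) → ℂ := fun σ => ((Equiv.Perm.sign σ : ℤ) : ℂ) * ∫ z, f i₀ z *
        ((∏ l ∈ (Finset.univ.erase i₀).erase m, wd c (σ l) (f l) z) *
          wd c (σ i₀) (wd c (σ m) (f m)) z) with hT
  have hanti : ∀ σ, T (σ * Equiv.swap i₀ m) = - T σ := by
    intro σ
    simp only [hT]
    have h1 : (σ * Equiv.swap i₀ m) i₀ = σ m := by simp
    have h2 : (σ * Equiv.swap i₀ m) m = σ i₀ := by simp
    have h3 : ∀ l ∈ (Finset.univ.erase i₀).erase m, (σ * Equiv.swap i₀ m) l = σ l := by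
      intro l hl
      have hl1 : l ≠ m := Finset.ne_of_mem_erase hl
      have hl2 : l ≠ i₀ := Finset.ne_of_mem_erase (Finset.mem_of_mem_erase hl)
      simp [Equiv.swap_apply_of_ne_of_ne hl2 hl1]
    have h4 : ∀ z, (∏ l ∈ (Finset.univ.erase i₀).erase m, wd c ((σ * Equiv.swap i₀ m) l) (f l) z) =
        (∏ l ∈ (Finset.univ.erase i₀).erase m, wd c (σ l) (f l) z) := fun z =>
      Finset.prod_congr rfl fun l hl => by rw [h3 l hl]
    have h5 : wd c (σ m) (wd c (σ i₀) (f m)) = wd c (σ i₀) (wd c (σ m) (f m)) :=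
      wd_comm (hf m) c c _ _
    rw [h1, h2]
    simp_rw [h4, h5]
    rw [Equiv.Perm.sign_mul, Equiv.Perm.sign_swap (Ne.symm hmi)]
    push_cast
    ring
  have hsum : ∑ σ, T σ = ∑ σ, T (σ * Equiv.swap i₀ m) :=
    (Equiv.sum_comp (Equiv.mulRight (Equiv.swap i₀ m)) T).symm
  have hneg : ∑ σ, T (σ * Equiv.swap i₀ m) = - ∑ σ, T σ := by
    simp_rw [hanti, Finset.sum_neg_distrib]
  have : ∑ σ, T σ = - ∑ σ, T σ := hsum.trans hneg
  have h0 : ∑ σ, T σ = 0 := by
    have h2 : (2:ℂ) * ∑ σ, T σ = 0 := by linear_combination this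
    simpa using h2
  exact h0

end basics

end Pool.Agent.H36
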